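import Pool.Agent.Lib.MP_d8bd92_nt.ToF

set_option autoImplicit false

/-!
The law of the Szpiro ratio: definitions.
-/

namespace Pool.Agent.Lib.MP_d8bd92_nt

namespace P4

open Finset Pool.Agent.Lib.Szpiro

/-- The height `max |c₄|³ |c₆|²`. -/
def Ht (W : WeierstrassCurve ℤ) : ℕ := max (W.c₄.natAbs ^ 3) (W.c₆.natAbs ^ 2)

/-- The semistable curves with a point of order two, `N ≤ Y`, `N ^ s ≤ |Δ| ≤ Y ^ κ`. -/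
def twoLaw (Y κ s : ℝ) : Set (ℤ × ℤ) :=
  {c | ∃ W : WeierstrassCurve ℤ, W.c₄ = c.1 ∧ W.c₆ = c.2 ∧ W.Δ ≠ 0 ∧ IsCoprime W.c₄ W.Δ ∧
    (∃ P : (W.baseChange ℚ).toAffine.Point, addOrderOf P = 2) ∧
    ((rd W.Δ.natAbs : ℕ) : ℝ) ≤ Y ∧
    ((rd W.Δ.natAbs : ℕ) : ℝ) ^ s ≤ ((W.Δ.natAbs : ℕ) : ℝ) ∧
    ((W.Δ.natAbs : ℕ) : ℝ) ≤ Y ^ κ}

/-- The semistable curves with a point of order two, `N ≤ Y`, `N ^ s ≤ |Δ|` and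
`max |c₄|³ |c₆|² ≤ H`. -/
def twoHt (Y H s : ℝ) : Set (ℤ × ℤ) :=
  {c | ∃ W : WeierstrassCurve ℤ, W.c₄ = c.1 ∧ W.c₆ = c.2 ∧ W.Δ ≠ 0 ∧ IsCoprime W.c₄ W.Δ ∧
    (∃ P : (W.baseChange ℚ).toAffine.Point, addOrderOf P = 2) ∧
    ((rd W.Δ.natAbs : ℕ) : ℝ) ≤ Y ∧
    ((rd W.Δ.natAbs : ℕ) : ℝ) ^ s ≤ ((W.Δ.natAbs : ℕ) : ℝ) ∧ ((Ht W : ℕ) : ℝ) ≤ H}

/-- The semistable curves with a point of order two, `N ≤ Y`, `N ^ s ≤ max |c₄|³ |c₆|² ≤ H`. -/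
def twoHH (Y H s : ℝ) : Set (ℤ × ℤ) :=
  {c | ∃ W : WeierstrassCurve ℤ, W.c₄ = c.1 ∧ W.c₆ = c.2 ∧ W.Δ ≠ 0 ∧ IsCoprime W.c₄ W.Δ ∧
    (∃ P : (W.baseChange ℚ).toAffine.Point, addOrderOf P = 2) ∧
    ((rd W.Δ.natAbs : ℕ) : ℝ) ≤ Y ∧
    ((rd W.Δ.natAbs : ℕ) : ℝ) ^ s ≤ ((Ht W : ℕ) : ℝ) ∧ ((Ht W : ℕ) : ℝ) ≤ H}

/-- The semistable curves with a point of order two, `N ≤ Y`, `N ^ s ≤ max |c₄|³ |c₆|²`,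
`|Δ| ≤ Y ^ κ`. -/
def twoLawH (Y κ s : ℝ) : Set (ℤ × ℤ) :=
  {c | ∃ W : WeierstrassCurve ℤ, W.c₄ = c.1 ∧ W.c₆ = c.2 ∧ W.Δ ≠ 0 ∧ IsCoprime W.c₄ W.Δ ∧
    (∃ P : (W.baseChange ℚ).toAffine.Point, addOrderOf P = 2) ∧
    ((rd W.Δ.natAbs : ℕ) : ℝ) ≤ Y ∧
    ((rd W.Δ.natAbs : ℕ) : ℝ) ^ s ≤ ((Ht W : ℕ) : ℝ) ∧ ((W.Δ.natAbs : ℕ) : ℝ) ≤ Y ^ κ}

end P4

end Pool.Agent.Lib.MP_d8bd92_nt
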