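import Pool.Agent.Lib.MP_d8bd92_nt.P4.LowTwo
import Pool.Agent.Lib.MP_d8bd92_nt.CdK3

set_option autoImplicit false

/-!
The lower bound of the law for the curves with full rational two torsion, `2 ≤ s < 6`: the curves of
`low_two_ht` are the curves `K3W α τ`.
-/

namespace Pool.Agent.Lib.MP_d8bd92_nt

namespace P4

open Finset Pool.Agent.Lib.Szpiro WeierstrassCurve WeierstrassCurve.Affine

/-- two points of order two -/
theorem two_points (s t : ℤ) (hs : 0 < s) (hΔ0 : (K3W s t).Δ ≠ 0) :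
    ∃ S T : ((K3W s t).baseChange ℚ).toAffine.Point, addOrderOf S = 2 ∧ addOrderOf T = 2 ∧ S ≠ T := by
  have hΔQ : ((K3W s t).baseChange ℚ).toAffine.Δ ≠ 0 := by
    have : ((K3W s t).baseChange ℚ).Δ = ((K3W s t).Δ : ℚ) := by
      rw [WeierstrassCurve.baseChange, WeierstrassCurve.map_Δ]; simp
    change ((K3W s t).baseChange ℚ).Δ ≠ 0
    rw [this]
    exact_mod_cast hΔ0
  have e1 : ((K3W s t).baseChange ℚ).toAffine.a₁ = 1 := by
    simp [WeierstrassCurve.baseChange, K3W]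
  have e2 : ((K3W s t).baseChange ℚ).toAffine.a₂ = (t : ℚ) - 4 * s := by
    simp [WeierstrassCurve.baseChange, K3W]
  have e3 : ((K3W s t).baseChange ℚ).toAffine.a₃ = 0 := by
    simp [WeierstrassCurve.baseChange, K3W]
  have e4 : ((K3W s t).baseChange ℚ).toAffine.a₄ = -((s : ℚ) * (4 * t + 1)) := by
    simp [WeierstrassCurve.baseChange, K3W]
  have e6 : ((K3W s t).baseChange ℚ).toAffine.a₆ = 0 := by
    simp [WeierstrassCurve.baseChange, K3W]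
  have hS : ((K3W s t).baseChange ℚ).toAffine.Nonsingular 0 0 := by
    rw [← equation_iff_nonsingular_of_Δ_ne_zero hΔQ, equation_iff, e1, e2, e3, e4, e6]
    ring
  have hT : ((K3W s t).baseChange ℚ).toAffine.Nonsingular (4 * (s : ℚ)) (-(2 * (s : ℚ))) := by
    rw [← equation_iff_nonsingular_of_Δ_ne_zero hΔQ, equation_iff, e1, e2, e3, e4, e6]
    ring
  refine ⟨Point.some _ _ hS, Point.some _ _ hT, ?_, ?_, ?_⟩
  · rw [addOrderOf_eq_prime_iff (p := 2)]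
    refine ⟨?_, Point.some_ne_zero _⟩
    rw [two_nsmul]
    apply Point.add_self_of_Y_eq
    rw [negY, e1, e3]; ring
  · rw [addOrderOf_eq_prime_iff (p := 2)]
    refine ⟨?_, Point.some_ne_zero _⟩
    rw [two_nsmul]
    apply Point.add_self_of_Y_eq
    rw [negY, e1, e3]; ring
  · intro h
    rw [Point.some.injEq] at h
    have h1 := h.1
    have h2 : (0 : ℚ) < s := by exact_mod_cast hs
    linarith

/-- the family of `low_two_ht`, all curves are `K3W α τ` -/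
theorem low_two_full (s : ℝ) (h1 : 2 ≤ s) (h2 : s < 6) : ∃ c Y0 : ℝ, 0 < c ∧ 1 ≤ Y0 ∧ ∀ Y : ℝ, Y0 ≤ Y →
    ∃ F : Finset (ℤ × ℤ), (F : Set (ℤ × ℤ)) ⊆ twoLaw Y s s ∩ twoHt Y (40000 * Y ^ s) s ∧
      (∀ x ∈ F, ∃ α τ : ℤ, 0 < α ∧ (K3W α τ).c₄ = x.1 ∧ (K3W α τ).c₆ = x.2) ∧
      c * Y ^ (1 - s / 6) ≤ (F.card : ℝ) := by
  classical
  have hs6 : 0 < 1 - s / 6 := by linarith
  refine ⟨1 / 1280000000, max 1 ((40000000 : ℝ) ^ (1 / (1 - s / 6))), by norm_num,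
    le_max_left _ _, ?_⟩
  intro Y hY
  have hY1 : 1 ≤ Y := (le_max_left _ _).trans hY
  have hYK : (40000000 : ℝ) ^ (1 / (1 - s / 6)) ≤ Y := (le_max_right _ _).trans hY
  have hY0 : 0 < Y := by linarith
  set z : ℝ := Y ^ (s / 6) with hz
  have hz0 : 0 < z := by positivity
  have hz6 : z ^ 6 = Y ^ s := by
    rw [hz, ← Real.rpow_natCast, ← Real.rpow_mul hY0.le]
    congr 1
    push_cast
    ring
  have hzY : Y ≤ z ^ 3 := by
    have e : z ^ 3 = Y ^ (s / 2) := by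
      rw [hz, ← Real.rpow_natCast, ← Real.rpow_mul hY0.le]
      congr 1
      push_cast
      ring
    rw [e]
    calc Y = Y ^ (1 : ℝ) := (Real.rpow_one Y).symm
      _ ≤ Y ^ (s / 2) := Real.rpow_le_rpow_of_exponent_le hY1 (by linarith)
  have hYz : 40000000 * z ≤ Y := by
    have e1 : Y = Y ^ (1 - s / 6) * z := by
      rw [hz, ← Real.rpow_add hY0]
      rw [show 1 - s / 6 + s / 6 = 1 by ring, Real.rpow_one]
    have e2 : (40000000 : ℝ) ≤ Y ^ (1 - s / 6) := by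
      calc (40000000 : ℝ) = ((40000000 : ℝ) ^ (1 / (1 - s / 6))) ^ (1 - s / 6) := by
            rw [← Real.rpow_mul (by norm_num), one_div_mul_cancel hs6.ne', Real.rpow_one]
        _ ≤ Y ^ (1 - s / 6) := Real.rpow_le_rpow (by positivity) hYK hs6.le
    calc 40000000 * z ≤ Y ^ (1 - s / 6) * z := mul_le_mul_of_nonneg_right e2 hz0.le
      _ = Y := e1.symm
  set u : ℝ := Real.sqrt (Y / (40000000 * z)) with hu
  have hu2 : u ^ 2 = Y / (40000000 * z) := Real.sq_sqrt (by positivity)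
  have hu1 : 1 ≤ u := by
    rw [hu, Real.one_le_sqrt, le_div_iff₀ (by positivity)]
    linarith
  have huz : u ≤ z / 12 := by
    have h3 : u ^ 2 ≤ (z / 12) ^ 2 := by
      rw [hu2, div_le_iff₀ (by positivity)]
      calc Y ≤ z ^ 3 := hzY
        _ ≤ (z / 12) ^ 2 * (40000000 * z) := by
            have : (z / 12) ^ 2 * (40000000 * z) = (40000000 / 144) * z ^ 3 := by ring
            rw [this]
            have h0 : 0 ≤ z ^ 3 := by positivity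
            linarith
    exact (pow_le_pow_iff_left₀ (by linarith) (by positivity) (by norm_num)).1 h3
  obtain ⟨T, hT⟩ : ∃ T : ℕ, T = ⌊u⌋₊ := ⟨_, rfl⟩
  have hTu : (T : ℝ) ≤ u := by rw [hT]; exact Nat.floor_le (by linarith)
  have hTlow : u < (T : ℝ) + 1 := by rw [hT]; exact Nat.lt_floor_add_one _
  have hT1 : 1 ≤ T := by
    rw [hT]; apply Nat.le_floor; push_cast; linarith
  have hT1R : (1 : ℝ) ≤ (T : ℝ) := by exact_mod_cast hT1
  obtain ⟨M, hM⟩ : ∃ M : ℝ, M = z / 3 := ⟨_, rfl⟩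
  have hM0 : 0 < M := by rw [hM]; positivity
  have hYM : Y ^ s = 729 * M ^ 6 := by rw [← hz6, hM]; ring
  have hTM4 : (T : ℝ) ≤ M / 4 := by rw [hM]; linarith
  obtain ⟨i, hi1, hi2⟩ := low_two_scale 2 (by norm_num) T hT1 M (by linarith)
  obtain ⟨j, hj1, hj2⟩ := low_two_scale 5 (by norm_num) T hT1 (M / 4) hTM4
  push_cast at hi1 hi2 hj1 hj2
  have hTM : 340 * (T : ℝ) ^ 2 * M ≤ Y / 350000 := by
    have h3 : (T : ℝ) ^ 2 ≤ u ^ 2 := pow_le_pow_left₀ (by positivity) hTu 2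
    calc 340 * (T : ℝ) ^ 2 * M ≤ 340 * u ^ 2 * M := by
          apply mul_le_mul_of_nonneg_right _ hM0.le
          linarith
      _ = 17 / 6000000 * Y := by
          rw [hu2, hM]
          field_simp
          ring
      _ ≤ Y / 350000 := by
          linarith
  choose t ht using exists_t
  obtain ⟨m, hm⟩ := low_two_five j
  set P := ((Icc 1 T) ×ˢ (Icc 1 T)).filter (fun w : ℕ × ℕ => (Nat.Coprime (2 * w.1 - 1) w.2 ∧
      T < 8 * w.2) ∧ ¬ 5 ∣ w.2 ∧ T < 20 * w.1) with hP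
  obtain ⟨τ, hτ⟩ : ∃ τ : ℕ → ℤ, τ = fun k => m * (4 * t k + 1) + t k := ⟨_, rfl⟩
  have hτ1 : ∀ k, 4 * τ k + 1 = 5 ^ j * (4 * t k + 1) := by
    intro k
    rw [hτ, hm]
    ring
  have hτ2 : ∀ k, 1 ≤ k → (4 * τ k + 1).natAbs = 5 ^ j * (2 * k - 1) := by
    intro k hk
    rw [hτ1, Int.natAbs_mul, Int.natAbs_pow]
    rcases ht k with h | h
    · rw [h]; rfl
    · omega
  have hPmem : ∀ w ∈ P, 1 ≤ w.1 ∧ w.1 ≤ T ∧ 1 ≤ w.2 ∧ w.2 ≤ T ∧ Nat.Coprime (2 * w.1 - 1) w.2 ∧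
      T < 8 * w.2 ∧ ¬ 5 ∣ w.2 ∧ T < 20 * w.1 := by
    intro w hw
    rw [hP, Finset.mem_filter, Finset.mem_product, Finset.mem_Icc, Finset.mem_Icc] at hw
    obtain ⟨⟨⟨h1, h2⟩, h3, h4⟩, ⟨h5, h6⟩, h7, h8⟩ := hw
    exact ⟨h1, h2, h3, h4, h5, h6, h7, h8⟩
  set f : ℕ × ℕ → ℤ × ℤ := fun w =>
    ((LoW (τ w.1 - 4 * ((2 ^ i * w.2 : ℕ) : ℤ)) (-(((2 ^ i * w.2 : ℕ) : ℤ) * (4 * τ w.1 + 1)))).c₄,
      (LoW (τ w.1 - 4 * ((2 ^ i * w.2 : ℕ) : ℤ))
        (-(((2 ^ i * w.2 : ℕ) : ℤ) * (4 * τ w.1 + 1)))).c₆) with hf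
  have h2i : 0 < 2 ^ i := by positivity
  have h5j : 0 < 5 ^ j := by positivity
  have hinj : Set.InjOn f (P : Set (ℕ × ℕ)) := by
    intro w hw w' hw' hww
    obtain ⟨h1, h2, h3, h4, h5, h6, h7, h8⟩ := hPmem w hw
    obtain ⟨h1', h2', h3', h4', h5', h6', h7', h8'⟩ := hPmem w' hw'
    simp only [hf, Prod.mk.injEq] at hww
    have hp : (0 : ℤ) < ((2 ^ i * w.2 : ℕ) : ℤ) := by exact_mod_cast Nat.mul_pos h2i h3
    have hp' : (0 : ℤ) < ((2 ^ i * w'.2 : ℕ) : ℤ) := by exact_mod_cast Nat.mul_pos h2i h3'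
    obtain ⟨e1, e2⟩ := low_two_inj hp hp' hww.1 hww.2
    apply Prod.ext
    · have e3 := hτ2 w.1 h1
      rw [e2, hτ2 w'.1 h1'] at e3
      have e4 := Nat.eq_of_mul_eq_mul_left h5j e3
      omega
    · have e3 : 2 ^ i * w.2 = 2 ^ i * w'.2 := by exact_mod_cast e1
      exact Nat.eq_of_mul_eq_mul_left h2i e3
  have hmem : ∀ w ∈ P, f w ∈ twoLaw Y s s ∩ twoHt Y (40000 * Y ^ s) s := by
    intro w hw
    obtain ⟨h3, h4, h5, h6, h7, h8, h9, h10⟩ := hPmem w hw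
    have hcop : Nat.Coprime (2 ^ i * w.2) (5 ^ j * (2 * w.1 - 1)) := by
      apply Nat.Coprime.mul_left
      · apply Nat.Coprime.pow_left
        apply Nat.Coprime.mul_right
        · exact Nat.Coprime.pow_right _ (by norm_num)
        · rw [Nat.coprime_two_left]
          exact ⟨w.1 - 1, by omega⟩
      · apply Nat.Coprime.mul_right
        · apply Nat.Coprime.pow_right
          exact ((Nat.Prime.coprime_iff_not_dvd (by norm_num)).2 h9).symm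
        · exact h7.symm
    exact low_two_mem s Y M h1 hY1 hM0 hYM T i j w.2 (2 * w.1 - 1) (τ w.1) h5 h6 h8 (by omega)
      (by omega) (by omega) (hτ2 w.1 h3) hcop hi1 hi2 hj1 hj2 hTM
  have hcount := low_two_count T hT1
  rw [← hP] at hcount
  refine ⟨P.image f, ?_, ?_, ?_⟩
  · intro c hc
    simp only [Finset.coe_image, Set.mem_image, Finset.mem_coe] at hc
    obtain ⟨w, hw, rfl⟩ := hc
    exact hmem w hw
  · intro x hx
    obtain ⟨w, hw, rfl⟩ := Finset.mem_image.1 hx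
    refine ⟨((2 ^ i * w.2 : ℕ) : ℤ), τ w.1, ?_, rfl, rfl⟩
    exact_mod_cast Nat.mul_pos h2i (hPmem w hw).2.2.1
  · rw [Finset.card_image_of_injOn hinj]
    refine le_trans ?_ hcount
    have e1 : Y ^ (1 - s / 6) = Y / z := by
      rw [hz, Real.rpow_sub hY0, Real.rpow_one]
    have h3 : u / 2 ≤ (T : ℝ) := by linarith
    rw [e1]
    calc 1 / 1280000000 * (Y / z) = 1 / 8 * ((u / 2) * (u / 2)) := by
          have : (u / 2) * (u / 2) = u ^ 2 / 4 := by ring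
          rw [this, hu2]
          field_simp
          ring
      _ ≤ 1 / 8 * ((T : ℝ) * T) := by
          apply mul_le_mul_of_nonneg_left _ (by norm_num)
          exact mul_le_mul h3 h3 (by linarith) (by positivity)
      _ = 1 / 8 * T * T := by ring

/-- **Lower bound of the law, full rational two torsion**: `N ^ s ≤ |Δ| ≤ Y ^ s` and height
`≤ 40000 Y ^ s`. -/
theorem full_lower (s : ℝ) (h1 : 2 ≤ s) (h2 : s < 6) : ∃ c Y0 : ℝ, 0 < c ∧ 1 ≤ Y0 ∧ ∀ Y : ℝ, Y0 ≤ Y →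
    ∃ F : Finset (ℤ × ℤ), (∀ x ∈ F, ∃ W : WeierstrassCurve ℤ, W.c₄ = x.1 ∧ W.c₆ = x.2 ∧ W.Δ ≠ 0 ∧
      IsCoprime W.c₄ W.Δ ∧
      (∃ S T : (W.baseChange ℚ).toAffine.Point, addOrderOf S = 2 ∧ addOrderOf T = 2 ∧ S ≠ T) ∧
      ((rd W.Δ.natAbs : ℕ) : ℝ) ≤ Y ∧
      ((rd W.Δ.natAbs : ℕ) : ℝ) ^ s ≤ ((W.Δ.natAbs : ℕ) : ℝ) ∧ ((W.Δ.natAbs : ℕ) : ℝ) ≤ Y ^ s ∧
      ((Ht W : ℕ) : ℝ) ≤ 40000 * Y ^ s) ∧
      c * Y ^ (1 - s / 6) ≤ (F.card : ℝ) := by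
  obtain ⟨c, Y0, hc, hY0, h⟩ := low_two_full s h1 h2
  refine ⟨c, Y0, hc, hY0, fun Y hY => ?_⟩
  obtain ⟨F, hF1, hF2, hF3⟩ := h Y hY
  refine ⟨F, fun x hx => ?_, hF3⟩
  obtain ⟨α, τ, hα, k4, k6⟩ := hF2 x hx
  obtain ⟨⟨W, g4, g6, hΔ, hss, _, hN, hs, hD⟩, ⟨W', g4', g6', _, _, _, _, _, hH⟩⟩ := hF1 hx
  have hΔe : W.Δ = (K3W α τ).Δ := by
    have r1 := W.c_relation
    have r2 := (K3W α τ).c_relation
    rw [g4, g6] at r1
    rw [k4, k6] at r2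
    linarith
  have h4e : W.c₄ = (K3W α τ).c₄ := by rw [g4, k4]
  have hHte : Ht W' = Ht (K3W α τ) := by
    unfold Ht
    rw [g4', g6', k4, k6]
  rw [hΔe] at hΔ hss hN hs hD
  rw [h4e] at hss
  rw [hHte] at hH
  exact ⟨K3W α τ, k4, k6, hΔ, hss, two_points α τ hα hΔ, hN, hs, hD, hH⟩

/-- The lower bound in the form `FullTwoSet`. -/
theorem full_lower_set (s κ : ℝ) (h1 : 2 ≤ s) (h2 : s < 6) (h3 : s ≤ κ) :
    ∃ c Y0 : ℝ, 0 < c ∧ 1 ≤ Y0 ∧ ∀ Y : ℝ, Y0 ≤ Y →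
    ∃ F : Finset (ℤ × ℤ), (F : Set (ℤ × ℤ)) ⊆ FullTwoSet (fun N D => (N : ℝ) ≤ Y ∧
      (N : ℝ) ^ s ≤ (D : ℝ) ∧ (D : ℝ) ≤ Y ^ κ) ∧ c * Y ^ (1 - s / 6) ≤ (F.card : ℝ) := by
  obtain ⟨c, Y0, hc, hY0, h⟩ := full_lower s h1 h2
  refine ⟨c, Y0, hc, hY0, fun Y hY => ?_⟩
  obtain ⟨F, hF1, hF2⟩ := h Y hY
  refine ⟨F, fun x hx => ?_, hF2⟩
  obtain ⟨W, g4, g6, hΔ, hss, hP, hN, hs, hD, _⟩ := hF1 x hx
  exact ⟨W, g4, g6, hΔ, hss, hP, hN, hs,
    hD.trans (Real.rpow_le_rpow_of_exponent_le (hY0.trans hY) h3)⟩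

end P4

end Pool.Agent.Lib.MP_d8bd92_nt
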