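import Pool.Agent.Lib.MP_d8bd92_nt.P4.Defs

set_option autoImplicit false

/-!
Lower bound, first family (one point of order two), `3/2 ≤ s < 3`.

PROOF. Family `LoW t b` of ToF (adapt `twoSet_lower` there): Δ = b²(a² - 64 b), a = 4t+1, c₄ = a² - 48 b. Put Z = Y^(s/3),
B = ⌊Y / (2^15 Z)⌋ (>= 1 for Y >= Y0 since s < 3), j with Z/8 < 2^j B <= Z/4 (possible: B <= Z/4 as Z² >= Y),
T = ⌊(Z/8)^(1/2)⌋ >= 1, so 2 T² <= Z/4 <= 3 * 2^j B (and even 2T² < 2 * 2^j B).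
Pairs w = (s', v) of `many_coprime T B`: gcd(2s'-1, v) = 1, B < 8 v; |a| = 2s'-1 <= 2T (`exists_t`), b = 2^j v; gcd(a,b) = 1
(a odd). b > 2^j B/8, so 144 b > 12 T²·(…): the injectivity proof of twoSet_lower is unchanged with B replaced by 2^j B.
4T² <= 48 b (as 4T² <= 6 * 2^j B < 48 b), so 16 b <= 64 b - a² <= 64 b, |Δ| = b²(64b - a²).
|Δ| >= 16 b³ >= 16 (2^j B/8)³ >= (Z/8)³/32 = Z³/2^14; |Δ| <= 64 b³ <= 64 (Z/4)³ = Z³ = Y^s.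
N = rd|Δ| <= rd(2^j v) * |64b - a²| <= 2v * 64b <= 128 B (2^j B) <= 32 B Z <= Y/2^10 <= Y, and
N^s <= Y^s / 2^(10 s) <= Y^s/2^15 <= Z³/2^14 <= |Δ|. Number: (3/8) T B >= c Z^(1/2) Y / Z = c Y^(1 - s/6).
-/

namespace Pool.Agent.Lib.MP_d8bd92_nt

namespace P4

open Finset Pool.Agent.Lib.Szpiro

/-- doubling: a multiple `2 ^ j B` in `(x / 2, x]` -/
theorem low_one_scale (B : ℕ) (hB : 1 ≤ B) (x : ℝ) (hx : (B : ℝ) ≤ x) :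
    ∃ j : ℕ, (2 : ℝ) ^ j * B ≤ x ∧ x < 2 * ((2 : ℝ) ^ j * B) := by
  classical
  have hB1 : (1 : ℝ) ≤ (B : ℝ) := by exact_mod_cast hB
  have hex : ∃ n : ℕ, x < (2 : ℝ) ^ n * B := by
    obtain ⟨n, hn⟩ := pow_unbounded_of_one_lt x (by norm_num : (1 : ℝ) < 2)
    have h2 : (0 : ℝ) ≤ (2 : ℝ) ^ n := pow_nonneg (by norm_num) n
    exact ⟨n, hn.trans_le (le_mul_of_one_le_right h2 hB1)⟩
  have h1 := Nat.find_spec hex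
  have h0 : Nat.find hex ≠ 0 := by
    intro h
    rw [h, pow_zero, one_mul] at h1
    exact absurd h1 (not_lt.2 hx)
  obtain ⟨m, hm⟩ := Nat.exists_eq_succ_of_ne_zero h0
  have h2 : ¬ x < (2 : ℝ) ^ m * B := Nat.find_min hex (by rw [hm]; exact Nat.lt_succ_self m)
  rw [hm, Nat.succ_eq_add_one, pow_succ] at h1
  refine ⟨m, not_lt.1 h2, h1.trans_eq ?_⟩
  ring

theorem low_one_pw {Y : ℝ} (hY : 0 < Y) (s : ℝ) (k : ℕ) :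
    (Y ^ (s / 6)) ^ k = Y ^ (s / 6 * k) := by
  rw [← Real.rpow_natCast, ← Real.rpow_mul hY.le]

theorem low_one_z4 {s Y : ℝ} (h1 : 3 / 2 ≤ s) (hY : 256 ≤ Y) : 4 ≤ Y ^ (s / 6) := by
  have hY1 : 1 ≤ Y := le_trans (by norm_num) hY
  have e : (256 : ℝ) ^ (1 / 4 : ℝ) = 4 := by
    rw [show (256 : ℝ) = 4 ^ (4 : ℝ) by norm_num, ← Real.rpow_mul (by norm_num)]
    norm_num
  rw [← e]
  exact (Real.rpow_le_rpow (by norm_num) hY (by norm_num)).trans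
    (Real.rpow_le_rpow_of_exponent_le hY1 (by linarith))

theorem low_one_zY {s Y : ℝ} (h1 : 3 / 2 ≤ s) (hY1 : 1 ≤ Y) : Y ≤ (Y ^ (s / 6)) ^ 4 := by
  rw [low_one_pw (by linarith)]
  have h := Real.rpow_le_rpow_of_exponent_le hY1 (show (1 : ℝ) ≤ s / 6 * (4 : ℕ) by
    push_cast
    linarith)
  rwa [Real.rpow_one] at h

theorem low_one_Yz {s Y : ℝ} (h2 : s < 3) (hY0 : 0 < Y)
    (hY15 : ((2 : ℝ) ^ 15) ^ (1 / (1 - s / 3)) ≤ Y) : (2 : ℝ) ^ 15 * (Y ^ (s / 6)) ^ 2 ≤ Y := by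
  have hs3 : 0 < 1 - s / 3 := by linarith
  have e1 : Y ^ (1 - s / 3) * (Y ^ (s / 6)) ^ 2 = Y := by
    rw [low_one_pw hY0, ← Real.rpow_add hY0]
    have : 1 - s / 3 + s / 6 * ((2 : ℕ) : ℝ) = 1 := by
      push_cast
      ring
    rw [this, Real.rpow_one]
  have e2 : (2 : ℝ) ^ 15 ≤ Y ^ (1 - s / 3) := by
    have h := Real.rpow_le_rpow (by positivity) hY15 hs3.le
    rwa [← Real.rpow_mul (by norm_num), one_div_mul_cancel hs3.ne', Real.rpow_one] at h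
  have h3 : 0 ≤ (Y ^ (s / 6)) ^ 2 := sq_nonneg _
  calc (2 : ℝ) ^ 15 * (Y ^ (s / 6)) ^ 2 ≤ Y ^ (1 - s / 3) * (Y ^ (s / 6)) ^ 2 :=
        mul_le_mul_of_nonneg_right e2 h3
    _ = Y := e1

/-- the integers `T, B, M` -/
theorem low_one_TB {Y z u : ℝ} (hz : 4 ≤ z) (hzY : Y ≤ z ^ 4) (hu : u * (2 ^ 15 * z ^ 2) = Y)
    (hu1 : 1 ≤ u) : ∃ T B M j : ℕ, 1 ≤ T ∧ 1 ≤ B ∧ M = 2 ^ j * B ∧ T ^ 2 < M ∧
      (M : ℝ) ≤ z ^ 2 / 4 ∧ z ^ 2 / 4 < 2 * (M : ℝ) ∧ z / 8 ≤ (T : ℝ) ∧ u / 2 ≤ (B : ℝ) ∧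
      (B : ℝ) ≤ u := by
  have hz0 : 0 < z := by linarith
  have hz2 : 0 < z ^ 2 := by positivity
  have hT4 : (⌊z / 4⌋₊ : ℝ) ≤ z / 4 := Nat.floor_le (by linarith)
  have hBu : (⌊u⌋₊ : ℝ) ≤ u := Nat.floor_le (by linarith)
  have hTlow : z / 4 < (⌊z / 4⌋₊ : ℝ) + 1 := Nat.lt_floor_add_one _
  have hBlow : u < (⌊u⌋₊ : ℝ) + 1 := Nat.lt_floor_add_one _
  have hT1 : 1 ≤ ⌊z / 4⌋₊ := Nat.le_floor (by push_cast; linarith)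
  have hB1 : 1 ≤ ⌊u⌋₊ := Nat.le_floor (by push_cast; linarith)
  generalize ⌊z / 4⌋₊ = T at hT4 hTlow hT1
  generalize ⌊u⌋₊ = B at hBu hBlow hB1
  have hT1R : (1 : ℝ) ≤ (T : ℝ) := by exact_mod_cast hT1
  have hB1R : (1 : ℝ) ≤ (B : ℝ) := by exact_mod_cast hB1
  have huz : u ≤ z ^ 2 / 4 := by
    have h3 : u * (2 ^ 15 * z ^ 2) ≤ z ^ 2 / 4 * (2 ^ 15 * z ^ 2) := by
      rw [hu]
      refine hzY.trans ?_
      have h4 : 0 ≤ z ^ 4 := pow_nonneg hz0.le 4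
      have h5 : z ^ 2 / 4 * (2 ^ 15 * z ^ 2) = 2 ^ 13 * z ^ 4 := by ring
      rw [h5]
      linarith
    exact le_of_mul_le_mul_right h3 (by linarith)
  obtain ⟨j, hj1, hj2⟩ := low_one_scale B hB1 (z ^ 2 / 4) (hBu.trans huz)
  have hMR : ((2 ^ j * B : ℕ) : ℝ) = (2 : ℝ) ^ j * B := by push_cast; rfl
  rw [← hMR] at hj1 hj2
  refine ⟨T, B, 2 ^ j * B, j, hT1, hB1, rfl, ?_, hj1, hj2, by linarith, by linarith, hBu⟩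
  have h3 : (T : ℝ) ^ 2 ≤ (z / 4) ^ 2 := pow_le_pow_left₀ (by linarith) hT4 2
  have h5 : (z / 4) ^ 2 = z ^ 2 / 4 / 4 := by ring
  have h4 : ((T ^ 2 : ℕ) : ℝ) < ((2 ^ j * B : ℕ) : ℝ) := by
    rw [Nat.cast_pow]
    linarith
  exact_mod_cast h4

/-- `(c₄, c₆)` determines the pair -/
theorem low_one_inj {a a' b b' T M : ℤ} (hT : 0 ≤ T) (ha : |a| ≤ 2 * T) (ha' : |a'| ≤ 2 * T)
    (hTM : T ^ 2 < M) (hM : M < 8 * b) (e4 : a ^ 2 - 48 * b = a' ^ 2 - 48 * b')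
    (e6 : -a ^ 3 + 72 * a * b = -a' ^ 3 + 72 * a' * b') : a = a' ∧ b = b' := by
  have hfac : (a - a') * (a ^ 2 + a * a' + a' ^ 2 - 3 * (a ^ 2 - 48 * b)) = 0 := by
    linear_combination 2 * e6 + (3 * a') * e4
  have haeq : a = a' := by
    rcases mul_eq_zero.mp hfac with h | h
    · exact sub_eq_zero.1 h
    · exfalso
      have h9 : |a| * |a| ≤ 2 * T * (2 * T) := mul_le_mul ha ha (abs_nonneg _) (by linarith)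
      have h10 : |a| * |a'| ≤ 2 * T * (2 * T) := mul_le_mul ha ha' (abs_nonneg _) (by linarith)
      rw [abs_mul_abs_self] at h9
      rw [← abs_mul] at h10
      have h12 := neg_abs_le (a * a')
      have h13 := sq_nonneg a'
      have h14 := sq_nonneg T
      linarith
  refine ⟨haeq, ?_⟩
  rw [haeq] at e4
  linarith

theorem low_one_e {a T M : ℤ} {b : ℕ} (ha : |a| ≤ 2 * T) (hTM : T ^ 2 < M)
    (hM : M < 8 * (b : ℤ)) : (a ^ 2 - 64 * (b : ℤ)).natAbs ≤ 64 * b ∧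
      16 * b ≤ (a ^ 2 - 64 * (b : ℤ)).natAbs ∧ (a ^ 2 - 48 * (b : ℤ)).natAbs ≤ 48 * b := by
  have h8 : a ^ 2 ≤ 4 * T ^ 2 := by
    have := sq_le_sq' (by linarith [(abs_le.mp ha).1]) (abs_le.mp ha).2
    linarith
  have h12 := sq_nonneg a
  generalize a ^ 2 = x at h8 h12
  generalize T ^ 2 = y at h8 hTM
  omega

theorem low_one_rd {b j v e : ℕ} (hb : b = 2 ^ j * v) (hv : 1 ≤ v) (he : e ≠ 0) :
    rd (b ^ 2 * e) ≤ 2 * v * e := by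
  have hne : 2 * v * e ≠ 0 := Nat.mul_ne_zero (by omega) he
  refine (rd_mono' hne ?_).trans (rd_le hne)
  intro p hp hpd
  rcases (hp.dvd_mul).mp hpd with h9 | h9
  · have h10 := hp.dvd_of_dvd_pow h9
    rw [hb] at h10
    rcases (hp.dvd_mul).mp h10 with h11 | h11
    · exact Dvd.dvd.mul_right (Dvd.dvd.mul_right (hp.dvd_of_dvd_pow h11) _) _
    · exact Dvd.dvd.mul_right (Dvd.dvd.mul_left h11 _) _
  · exact Dvd.dvd.mul_left h9 _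

theorem low_one_N {Y z u : ℝ} (hu : u * (2 ^ 15 * z ^ 2) = Y) {N v e b B M : ℕ}
    (hN : N ≤ 2 * v * e) (hv : v ≤ B) (he : e ≤ 64 * b) (hb : b ≤ M) (hB : (B : ℝ) ≤ u)
    (hM : (M : ℝ) ≤ z ^ 2 / 4) : (N : ℝ) ≤ Y / 2 ^ 10 := by
  have h8 : N ≤ 2 * B * (64 * M) := hN.trans
    (Nat.mul_le_mul (Nat.mul_le_mul_left _ hv) (he.trans (Nat.mul_le_mul_left _ hb)))
  have h9 : (N : ℝ) ≤ 2 * (B : ℝ) * (64 * M) := by exact_mod_cast h8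
  have h10 : (B : ℝ) * M ≤ u * (z ^ 2 / 4) :=
    mul_le_mul hB hM (Nat.cast_nonneg _) ((Nat.cast_nonneg _).trans hB)
  have h11 : Y / 2 ^ 10 = 128 * (u * (z ^ 2 / 4)) := by
    rw [← hu]
    ring
  rw [h11]
  linarith

theorem low_one_D {z : ℝ} {b e M : ℕ} (he1 : e ≤ 64 * b) (he2 : 16 * b ≤ e)
    (hb1 : M < 8 * b) (hb2 : b ≤ M) (hM : (M : ℝ) ≤ z ^ 2 / 4) (hM2 : z ^ 2 / 4 < 2 * (M : ℝ)) :
    z ^ 6 / 2 ^ 14 ≤ ((b ^ 2 * e : ℕ) : ℝ) ∧ ((b ^ 2 * e : ℕ) : ℝ) ≤ z ^ 6 := by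
  constructor
  · have h8 : b ^ 2 * (16 * b) ≤ b ^ 2 * e := Nat.mul_le_mul_left _ he2
    have h10 : ((b ^ 2 * (16 * b) : ℕ) : ℝ) ≤ ((b ^ 2 * e : ℕ) : ℝ) := Nat.cast_le.2 h8
    have h9 : ((b ^ 2 * (16 * b) : ℕ) : ℝ) = 16 * (b : ℝ) ^ 3 := by
      push_cast
      ring
    have h7 : (M : ℝ) < 8 * (b : ℝ) := by exact_mod_cast hb1
    have h11 : z ^ 2 / 64 ≤ (b : ℝ) := by linarith
    have h12 : (z ^ 2 / 64) ^ 3 ≤ (b : ℝ) ^ 3 :=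
      pow_le_pow_left₀ (div_nonneg (sq_nonneg _) (by norm_num)) h11 3
    have h13 : z ^ 6 / 2 ^ 14 = 16 * (z ^ 2 / 64) ^ 3 := by ring
    rw [h13]
    linarith
  · have h8 : b ^ 2 * e ≤ M ^ 2 * (64 * M) :=
      Nat.mul_le_mul (Nat.pow_le_pow_left hb2 2) (he1.trans (Nat.mul_le_mul_left _ hb2))
    have h9 : ((b ^ 2 * e : ℕ) : ℝ) ≤ ((M ^ 2 * (64 * M) : ℕ) : ℝ) := Nat.cast_le.2 h8
    have h10 : ((M ^ 2 * (64 * M) : ℕ) : ℝ) = 64 * (M : ℝ) ^ 3 := by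
      push_cast
      ring
    have h11 : (M : ℝ) ^ 3 ≤ (z ^ 2 / 4) ^ 3 := pow_le_pow_left₀ (Nat.cast_nonneg _) hM 3
    have h12 : z ^ 6 = 64 * (z ^ 2 / 4) ^ 3 := by ring
    rw [h12]
    linarith

theorem low_one_ten : (2 : ℝ) ^ 14 ≤ ((2 : ℝ) ^ 10) ^ (3 / 2 : ℝ) := by
  have : ((2 : ℝ) ^ 10) ^ (3 / 2 : ℝ) = 2 ^ (15 : ℝ) := by
    rw [← Real.rpow_natCast, ← Real.rpow_mul (by norm_num)]
    norm_num
  rw [this]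
  norm_num

theorem low_one_pow {Y s N : ℝ} (hY : 0 < Y) (h1 : 3 / 2 ≤ s) (hN0 : 0 ≤ N)
    (hN : N ≤ Y / 2 ^ 10) : N ^ s ≤ Y ^ s / 2 ^ 14 := by
  have h2 : N ^ s ≤ (Y / 2 ^ 10) ^ s := Real.rpow_le_rpow hN0 hN (by linarith)
  rw [Real.div_rpow hY.le (by norm_num)] at h2
  refine h2.trans (div_le_div_of_nonneg_left (Real.rpow_nonneg hY.le _) (by norm_num) ?_)
  exact low_one_ten.trans (Real.rpow_le_rpow_of_exponent_le (by norm_num) h1)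

theorem low_one_Ht {W : WeierstrassCurve ℤ} {b e : ℕ} (h4 : W.c₄.natAbs ≤ 48 * b)
    (hE : W.Δ.natAbs = b ^ 2 * e) (he : 16 * b ≤ e) : Ht W ≤ 8640 * W.Δ.natAbs := by
  have g3 : W.c₄.natAbs ^ 3 ≤ 6912 * W.Δ.natAbs := by
    rw [hE]
    calc W.c₄.natAbs ^ 3 ≤ (48 * b) ^ 3 := Nat.pow_le_pow_left h4 3
      _ = 6912 * (b ^ 2 * (16 * b)) := by ring
      _ ≤ 6912 * (b ^ 2 * e) := Nat.mul_le_mul_left _ (Nat.mul_le_mul_left _ he)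
  have g4 : W.c₆.natAbs ^ 2 ≤ W.c₄.natAbs ^ 3 + 1728 * W.Δ.natAbs := by
    have h8 : W.c₆ ^ 2 = W.c₄ ^ 3 - 1728 * W.Δ := by
      rw [W.c_relation]
      ring
    have h9 := Int.natAbs_sub_le (W.c₄ ^ 3) (1728 * W.Δ)
    rw [← h8, Int.natAbs_mul, Int.natAbs_pow, Int.natAbs_pow] at h9
    exact h9
  unfold Ht
  generalize W.c₄.natAbs ^ 3 = x at g3 g4
  generalize W.c₆.natAbs ^ 2 = y at g4
  generalize W.Δ.natAbs = D at g3 g4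
  exact max_le (by omega) (by omega)

theorem low_one_cop {t : ℤ} {n j v : ℕ} (h7 : (4 * t + 1).natAbs = 2 * n - 1) (hn : 1 ≤ n)
    (h5 : Nat.Coprime (2 * n - 1) v) : IsCoprime (4 * t + 1) ((2 ^ j * v : ℕ) : ℤ) := by
  rw [Int.isCoprime_iff_gcd_eq_one, Int.gcd, h7, Int.natAbs_natCast]
  apply Nat.Coprime.mul_right
  · apply Nat.Coprime.pow_right
    rw [Nat.coprime_two_right]
    exact ⟨n - 1, by omega⟩
  · exact h5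

/-- one curve -/
theorem low_one_mem {Y z u s : ℝ} (h1 : 3 / 2 ≤ s) (hY : 0 < Y)
    (hz6 : z ^ 6 = Y ^ s) (hu : u * (2 ^ 15 * z ^ 2) = Y) {T B M j v n : ℕ} {t : ℤ} (hn : 1 ≤ n)
    (hnT : n ≤ T) (h7 : (4 * t + 1).natAbs = 2 * n - 1) (h5 : Nat.Coprime (2 * n - 1) v)
    (hv1 : 1 ≤ v) (hv : v ≤ B) (hTM : T ^ 2 < M) (hb1 : M < 8 * (2 ^ j * v)) (hb2 : 2 ^ j * v ≤ M)
    (hB : (B : ℝ) ≤ u) (hM : (M : ℝ) ≤ z ^ 2 / 4) (hM2 : z ^ 2 / 4 < 2 * (M : ℝ)) :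
    ((LoW t ((2 ^ j * v : ℕ) : ℤ)).c₄, (LoW t ((2 ^ j * v : ℕ) : ℤ)).c₆) ∈
      twoLaw Y s s ∩ twoHt Y (8640 * Y ^ s) s := by
  have hcop := low_one_cop (j := j) h7 hn h5
  have habs : |4 * t + 1| ≤ 2 * (T : ℤ) := by
    rw [Int.abs_eq_natAbs, h7]
    omega
  have hbn : 2 ^ j * v ≠ 0 := Nat.mul_ne_zero (pow_ne_zero _ two_ne_zero) (by omega)
  obtain ⟨b, hb⟩ : ∃ b, b = 2 ^ j * v := ⟨_, rfl⟩
  rw [← hb] at hcop hb1 hb2 hbn ⊢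
  have hb0 : (b : ℤ) ≠ 0 := Int.natCast_ne_zero.2 hbn
  have hTMz : (T : ℤ) ^ 2 < (M : ℤ) := by exact_mod_cast hTM
  have hMz : (M : ℤ) < 8 * (b : ℤ) := by exact_mod_cast hb1
  obtain ⟨he1, he2, he3⟩ := low_one_e habs hTMz hMz
  have hE : ((LoW t (b : ℤ)).Δ).natAbs = b ^ 2 * ((4 * t + 1) ^ 2 - 64 * (b : ℤ)).natAbs := by
    rw [LoW_Δ, Int.natAbs_mul, Int.natAbs_pow, Int.natAbs_natCast]
  rw [← LoW_c4] at he3
  obtain ⟨e, he⟩ : ∃ e, e = ((4 * t + 1) ^ 2 - 64 * (b : ℤ)).natAbs := ⟨_, rfl⟩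
  rw [← he] at he1 he2 hE
  have he0 : e ≠ 0 := by omega
  have hHt := low_one_Ht he3 hE he2
  have hΔ0 := LoW_Δ_ne t (b : ℤ) hb0
  have hpt := LoW_point t (b : ℤ) hb0
  have hco := LoW_coprime t (b : ℤ) hcop
  have hrd := low_one_rd hb hv1 he0
  rw [← hE] at hrd
  have hN := low_one_N hu hrd hv he1 hb2 hB hM
  obtain ⟨hlow, hupp⟩ := low_one_D he1 he2 hb1 hb2 hM hM2
  rw [← hE] at hlow hupp
  rw [hz6] at hlow hupp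
  have hlowN := (low_one_pow hY h1 (Nat.cast_nonneg _) hN).trans hlow
  have hNY : ((rd (((LoW t (b : ℤ)).Δ).natAbs) : ℕ) : ℝ) ≤ Y :=
    hN.trans (div_le_self hY.le (by norm_num))
  have hht : ((Ht (LoW t (b : ℤ)) : ℕ) : ℝ) ≤ 8640 * Y ^ s := by
    have h8 : ((Ht (LoW t (b : ℤ)) : ℕ) : ℝ) ≤
        8640 * ((((LoW t (b : ℤ)).Δ).natAbs : ℕ) : ℝ) := by exact_mod_cast hHt
    exact h8.trans (mul_le_mul_of_nonneg_left hupp (by norm_num))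
  exact ⟨⟨LoW t (b : ℤ), rfl, rfl, hΔ0, hco, hpt, hNY, hlowN, hupp⟩,
    ⟨LoW t (b : ℤ), rfl, rfl, hΔ0, hco, hpt, hNY, hlowN, hht⟩⟩

theorem low_one_ht (s : ℝ) (h1 : 3 / 2 ≤ s) (h2 : s < 3) : ∃ c Y0 : ℝ, 0 < c ∧ 1 ≤ Y0 ∧ ∀ Y : ℝ, Y0 ≤ Y →
    ∃ F : Finset (ℤ × ℤ), (F : Set (ℤ × ℤ)) ⊆ twoLaw Y s s ∩ twoHt Y (8640 * Y ^ s) s ∧
      c * Y ^ (1 - s / 6) ≤ (F.card : ℝ) := by
  classical
  refine ⟨3 / 2 ^ 22, max 256 (((2 : ℝ) ^ 15) ^ (1 / (1 - s / 3))), by norm_num,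
    le_trans (by norm_num) (le_max_left _ _), ?_⟩
  intro Y hY
  have hY256 : 256 ≤ Y := (le_max_left _ _).trans hY
  have hY15 : ((2 : ℝ) ^ 15) ^ (1 / (1 - s / 3)) ≤ Y := (le_max_right _ _).trans hY
  have hY0 : 0 < Y := lt_of_lt_of_le (by norm_num) hY256
  have hY1 : 1 ≤ Y := le_trans (by norm_num) hY256
  have hz4 := low_one_z4 h1 hY256
  have hzY := low_one_zY h1 hY1
  have hYz := low_one_Yz h2 hY0 hY15
  have hz6 : (Y ^ (s / 6)) ^ 6 = Y ^ s := by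
    rw [low_one_pw hY0]
    congr 1
    push_cast
    ring
  have e1 : Y ^ (1 - s / 6) = Y / Y ^ (s / 6) := by
    rw [Real.rpow_sub hY0, Real.rpow_one]
  rw [e1]
  clear hY hY15 e1
  generalize Y ^ (s / 6) = z at hz4 hzY hYz hz6
  have hz0 : 0 < z := lt_of_lt_of_le (by norm_num) hz4
  have hz2 : 0 < 2 ^ 15 * z ^ 2 := by positivity
  obtain ⟨u, hu⟩ : ∃ u : ℝ, u = Y / (2 ^ 15 * z ^ 2) := ⟨_, rfl⟩
  have huY : u * (2 ^ 15 * z ^ 2) = Y := by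
    rw [hu, div_mul_cancel₀ _ hz2.ne']
  have hu1 : 1 ≤ u := by
    rw [hu, le_div_iff₀ hz2, one_mul]
    exact hYz
  obtain ⟨T, B, M, j, hT1, hB1, hM, hTM, hMz, hzM, hTz, huB, hBu⟩ := low_one_TB hz4 hzY huY hu1
  choose t ht using exists_t
  have hcount := many_coprime T B hT1
  generalize hP : ((Icc 1 T) ×ˢ (Icc 1 B)).filter (fun w : ℕ × ℕ =>
      Nat.Coprime (2 * w.1 - 1) w.2 ∧ B < 8 * w.2) = P at hcount
  have h2j : 0 < 2 ^ j := Nat.two_pow_pos j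
  have hPmem : ∀ w ∈ P, 1 ≤ w.1 ∧ w.1 ≤ T ∧ 1 ≤ w.2 ∧ w.2 ≤ B ∧ Nat.Coprime (2 * w.1 - 1) w.2 ∧
      (4 * t w.1 + 1).natAbs = 2 * w.1 - 1 ∧ M < 8 * (2 ^ j * w.2) ∧ 2 ^ j * w.2 ≤ M := by
    intro w hw
    rw [← hP, Finset.mem_filter, Finset.mem_product, Finset.mem_Icc, Finset.mem_Icc] at hw
    obtain ⟨⟨⟨g1, g2⟩, g3, g4⟩, g5, g6⟩ := hw
    refine ⟨g1, g2, g3, g4, g5, ?_, ?_, ?_⟩
    · rcases ht w.1 with h | h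
      · exact h
      · omega
    · calc M = 2 ^ j * B := hM
        _ < 2 ^ j * (8 * w.2) := Nat.mul_lt_mul_of_pos_left g6 h2j
        _ = 8 * (2 ^ j * w.2) := Nat.mul_left_comm _ _ _
    · rw [hM]
      exact Nat.mul_le_mul_left _ g4
  have hTMz : (T : ℤ) ^ 2 < (M : ℤ) := by exact_mod_cast hTM
  have habs : ∀ w ∈ P, |4 * t w.1 + 1| ≤ 2 * (T : ℤ) := by
    intro w hw
    obtain ⟨g1, g2, _, _, _, g7, _⟩ := hPmem w hw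
    rw [Int.abs_eq_natAbs, g7]
    omega
  have hinj : Set.InjOn (fun w : ℕ × ℕ => ((LoW (t w.1) ((2 ^ j * w.2 : ℕ) : ℤ)).c₄,
      (LoW (t w.1) ((2 ^ j * w.2 : ℕ) : ℤ)).c₆)) (P : Set (ℕ × ℕ)) := by
    intro w hw w' hw' hww
    have hw1 : w ∈ P := hw
    have hw1' : w' ∈ P := hw'
    obtain ⟨g1, _, _, _, _, g7, g8, _⟩ := hPmem w hw1
    obtain ⟨g1', _, _, _, _, g7', _, _⟩ := hPmem w' hw1'
    simp only [Prod.mk.injEq, LoW_c4, LoW_c6] at hww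
    obtain ⟨q1, q2⟩ := low_one_inj (Int.natCast_nonneg T) (habs w hw1) (habs w' hw1') hTMz
      (by exact_mod_cast g8) hww.1 hww.2
    apply Prod.ext
    · rw [q1, g7'] at g7
      omega
    · exact Nat.eq_of_mul_eq_mul_left h2j (Int.natCast_inj.1 q2)
  refine ⟨P.image (fun w : ℕ × ℕ => ((LoW (t w.1) ((2 ^ j * w.2 : ℕ) : ℤ)).c₄,
      (LoW (t w.1) ((2 ^ j * w.2 : ℕ) : ℤ)).c₆)), ?_, ?_⟩
  · intro c hc
    rw [Finset.coe_image, Set.mem_image] at hc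
    obtain ⟨w, hw, rfl⟩ := hc
    obtain ⟨g1, g2, g3, g4, g5, g7, g8, g9⟩ := hPmem w hw
    exact low_one_mem h1 hY0 hz6 huY g1 g2 g7 g5 g3 g4 hTM g8 g9 hBu hMz hzM
  · rw [Finset.card_image_of_injOn hinj]
    refine le_trans ?_ hcount
    have h5 : (z / 8) * (u / 2) ≤ (T : ℝ) * B :=
      mul_le_mul hTz huB (by linarith) (Nat.cast_nonneg _)
    have h6 : 3 / 2 ^ 22 * (Y / z) = 3 / 8 * ((z / 8) * (u / 2)) := by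
      rw [← huY]
      field_simp
      ring
    rw [h6]
    linarith

theorem low_one (s : ℝ) (h1 : 3 / 2 ≤ s) (h2 : s < 3) : ∃ c Y0 : ℝ, 0 < c ∧ 1 ≤ Y0 ∧ ∀ Y : ℝ, Y0 ≤ Y →
    ∃ F : Finset (ℤ × ℤ), (F : Set (ℤ × ℤ)) ⊆ twoLaw Y s s ∧ c * Y ^ (1 - s / 6) ≤ (F.card : ℝ) := by
  obtain ⟨c, Y0, hc, hY0, h⟩ := low_one_ht s h1 h2
  refine ⟨c, Y0, hc, hY0, fun Y hY => ?_⟩
  obtain ⟨F, hF1, hF2⟩ := h Y hY
  exact ⟨F, hF1.trans Set.inter_subset_left, hF2⟩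

end P4

end Pool.Agent.Lib.MP_d8bd92_nt
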