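import Pool.Agent.Lib.MP_d8bd92_nt.P4.Defs

set_option autoImplicit false

/-!
Lower bound, second family (Frey curves), `2 ≤ s < 6`.

PROOF. Curves `LoW t b` (ToF) with a = 4t+1 = β - 16 α, b = -α β, where α >= 1 and β ≡ 1 mod 4 (so β odd, maybe negative),
gcd(α, β) = 1; C := β + 16 α. Δ = b²(a² - 64b) = (α β C)², c₄ = a² - 48 b = (a² + 3C²)/4, gcd(a, b) = 1.
M = Y^(s/6)/3, T = B = ⌊(Y / (1.2e8 M))^(1/2)⌋ (>= 1 for Y >= Y0 since s < 6), i with M/2 < 2^i B <= M (B <= M since s >= 2),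
j with M/20 < 5^j T <= M/4 (T <= M/4). Pairs w = (s', v) of `many_coprime T B` (gcd(2s'-1, v) = 1, B < 8v, number >= 3/8 TB)
with also 5 ∤ v (remove <= T B/5) and 20 s' > T (remove <= T B/20): number >= TB/8. α = 2^i v, β = 5^j (4 t' + 1) with
|4t'+1| = 2s'-1 (`exists_t`), 5^j ≡ 1 mod 4, so β ≡ 1 mod 4. gcd(α, β) = 1.
Sizes: M/16 < α <= M; M/400 < |β| <= M/2; |C| >= 16α - |β| >= M/2, |C| <= 17 M.
|Δ| <= (M * M/2 * 17M)² <= 73 M^6 <= 729 M^6 = Y^s, |Δ| >= (M/16 * M/400 * M/2)² = M^6/12800² >= Y^s/(1.2e11).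
N = rd|Δ| <= rd α * rd β * |C| <= 2v * 5(2s'-1) * 17M <= 340 T B M <= Y/350000 (<= Y), N^s <= Y^s/350000^2 <= Y^s/(1.2e11) <= |Δ|.
Injectivity of w ↦ (c₄, c₆): c₆ = -a³ + 72ab; (a - a')(a² + a a' + a'² - 3c₄) = 0 as in twoSet_lower. If a = a': b = b', then
C² = a² + ... the same, α β = α' β' and β - 16α = β' - 16α', so (β + 16 α)² equal; β + 16α = -(β' + 16α') would give β = -16 α'
(add the two), impossible as β is odd; so α = α', β = β', and 2^i, 5^j, i, j are fixed: w = w'.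
If a ≠ a': 12 c₄ - 3a² = 9C², (2a' + a)² = 9 C². 2a' + a = -3C gives a' = -2β - 16α even, impossible. 2a' + a = 3C gives
a' = β + 32α, then from 4c₄ = a'² + 3C'² (C' = β' + 16α'): C'² = β², C' = β: 32α' = C' - a' = -32 α, impossible (α, α' > 0);
C' = -β: 32α' = -2β - 32α, 16 α' = -β - 16 α, impossible as β is odd.
Number >= T B/8 >= c Y/M = c' Y^(1 - s/6).
-/

namespace Pool.Agent.Lib.MP_d8bd92_nt

namespace P4

open Finset Pool.Agent.Lib.Szpiro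

/-- a multiple `p ^ j B` in `(x / p, x]` -/
theorem low_two_scale (p : ℕ) (hp : 2 ≤ p) (B : ℕ) (hB : 1 ≤ B) (x : ℝ) (hx : (B : ℝ) ≤ x) :
    ∃ j : ℕ, (p : ℝ) ^ j * B ≤ x ∧ x < p * ((p : ℝ) ^ j * B) := by
  classical
  have hB1 : (1 : ℝ) ≤ (B : ℝ) := by exact_mod_cast hB
  have hp1 : (1 : ℝ) < (p : ℝ) := by exact_mod_cast (by omega : 1 < p)
  have hex : ∃ n : ℕ, x < (p : ℝ) ^ n * B := by
    obtain ⟨n, hn⟩ := pow_unbounded_of_one_lt x hp1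
    refine ⟨n, ?_⟩
    have h2 : (0 : ℝ) < (p : ℝ) ^ n := by positivity
    nlinarith
  have h1 := Nat.find_spec hex
  have h0 : Nat.find hex ≠ 0 := by
    intro h
    rw [h, pow_zero, one_mul] at h1
    linarith
  obtain ⟨m, hm⟩ := Nat.exists_eq_succ_of_ne_zero h0
  have h2 : ¬ x < (p : ℝ) ^ m * B := Nat.find_min hex (by omega)
  rw [hm] at h1
  refine ⟨m, not_lt.1 h2, ?_⟩
  calc x < (p : ℝ) ^ (m.succ) * B := h1
    _ = p * ((p : ℝ) ^ m * B) := by rw [pow_succ]; ring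

theorem low_two_coprime (α τ : ℤ) (h : IsCoprime α (4 * τ + 1)) :
    IsCoprime (4 * (τ - 4 * α) + 1) (-(α * (4 * τ + 1))) := by
  have h1 : IsCoprime (4 * (τ - 4 * α) + 1) α := by
    have e1 : 4 * (τ - 4 * α) + 1 = (4 * τ + 1) + α * (-16) := by ring
    rw [e1]
    exact h.symm.add_mul_left_left _
  have h2 : IsCoprime (4 * (τ - 4 * α) + 1) (4 * τ + 1) := by
    have h4 : IsCoprime (4 : ℤ) (4 * τ + 1) := ⟨-τ, 1, by ring⟩
    have h16 : IsCoprime (16 : ℤ) (4 * τ + 1) := by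
      have h5 := h4.pow_left (m := 2)
      norm_num at h5
      exact h5
    have h5 : IsCoprime (-(16 * α)) (4 * τ + 1) := (h16.mul_left h).neg_left
    have e2 : 4 * (τ - 4 * α) + 1 = -(16 * α) + (4 * τ + 1) * 1 := by ring
    rw [e2]
    exact h5.add_mul_left_left _
  exact (h1.mul_right h2).neg_right

theorem low_two_Δ (α τ : ℤ) : (LoW (τ - 4 * α) (-(α * (4 * τ + 1)))).Δ =
    (α * (4 * τ + 1) * (4 * τ + 1 + 16 * α)) ^ 2 := by
  rw [LoW_Δ]; ring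

theorem low_two_inj {α τ α' τ' : ℤ} (h : 0 < α) (h' : 0 < α')
    (e4 : (LoW (τ - 4 * α) (-(α * (4 * τ + 1)))).c₄ =
      (LoW (τ' - 4 * α') (-(α' * (4 * τ' + 1)))).c₄)
    (e6 : (LoW (τ - 4 * α) (-(α * (4 * τ + 1)))).c₆ =
      (LoW (τ' - 4 * α') (-(α' * (4 * τ' + 1)))).c₆) : α = α' ∧ τ = τ' := by
  rw [LoW_c4, LoW_c4] at e4
  rw [LoW_c6, LoW_c6] at e6
  obtain ⟨a, ha⟩ : ∃ a, a = 4 * (τ - 4 * α) + 1 := ⟨_, rfl⟩
  obtain ⟨a', ha'⟩ : ∃ a', a' = 4 * (τ' - 4 * α') + 1 := ⟨_, rfl⟩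
  obtain ⟨C, hC⟩ : ∃ C, C = 4 * τ + 1 + 16 * α := ⟨_, rfl⟩
  obtain ⟨C', hC'⟩ : ∃ C', C' = 4 * τ' + 1 + 16 * α' := ⟨_, rfl⟩
  have f4 : a ^ 2 + 3 * C ^ 2 = a' ^ 2 + 3 * C' ^ 2 := by
    rw [ha, hC, ha', hC']
    linear_combination 4 * e4
  have hfac : (a - a') * ((a + 2 * a') ^ 2 - 9 * C ^ 2) = 0 := by
    rw [ha, hC, ha']
    linear_combination 8 * e6 + 12 * (4 * (τ' - 4 * α') + 1) * e4
  rcases mul_eq_zero.mp hfac with h1 | h1
  · have haa : a = a' := by linarith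
    have h2 : (C - C') * (C + C') = 0 := by
      rw [haa] at f4
      linarith
    rcases mul_eq_zero.mp h2 with h3 | h3
    · constructor <;> omega
    · exfalso
      omega
  · exfalso
    have h2 : (a + 2 * a' - 3 * C) * (a + 2 * a' + 3 * C) = 0 := by linarith
    rcases mul_eq_zero.mp h2 with h3 | h3
    · have h4 : a' = 4 * τ + 1 + 32 * α := by omega
      have h5 : (C' - (4 * τ + 1)) * (C' + (4 * τ + 1)) = 0 := by
        rw [h4, ha, hC] at f4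
        linarith
      rcases mul_eq_zero.mp h5 with h6 | h6
      · omega
      · omega
    · omega

theorem low_two_count (T : ℕ) (hT : 1 ≤ T) : (1 / 8 : ℝ) * T * T ≤
    ((((Icc 1 T) ×ˢ (Icc 1 T)).filter (fun w : ℕ × ℕ => (Nat.Coprime (2 * w.1 - 1) w.2 ∧
      T < 8 * w.2) ∧ ¬ 5 ∣ w.2 ∧ T < 20 * w.1)).card : ℝ) := by
  classical
  have h0 := many_coprime T T hT
  set A := (Icc 1 T) ×ˢ (Icc 1 T) with hA
  set P := A.filter (fun w : ℕ × ℕ => Nat.Coprime (2 * w.1 - 1) w.2 ∧ T < 8 * w.2) with hP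
  set P' := A.filter (fun w : ℕ × ℕ => (Nat.Coprime (2 * w.1 - 1) w.2 ∧
      T < 8 * w.2) ∧ ¬ 5 ∣ w.2 ∧ T < 20 * w.1) with hP'
  set Q := A.filter (fun w : ℕ × ℕ => 5 ∣ w.2) with hQ
  set R := A.filter (fun w : ℕ × ℕ => 20 * w.1 ≤ T) with hR
  have hcover : P ⊆ P' ∪ (Q ∪ R) := by
    intro w hw
    obtain ⟨hwA, hw1⟩ := Finset.mem_filter.1 hw
    by_cases h1 : 5 ∣ w.2
    · exact Finset.mem_union_right _ (Finset.mem_union_left _ (Finset.mem_filter.2 ⟨hwA, h1⟩))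
    · by_cases h2 : T < 20 * w.1
      · exact Finset.mem_union_left _ (Finset.mem_filter.2 ⟨hwA, hw1, h1, h2⟩)
      · exact Finset.mem_union_right _ (Finset.mem_union_right _
          (Finset.mem_filter.2 ⟨hwA, not_lt.1 h2⟩))
  have hTR : (0 : ℝ) ≤ (T : ℝ) := Nat.cast_nonneg T
  have hQc : (Q.card : ℝ) ≤ (T : ℝ) * T / 5 := by
    have h1 : Q ⊆ (Icc 1 T) ×ˢ ((Ioc 0 T).filter (fun b => 5 ∣ b)) := by
      intro w hw
      rw [hQ, Finset.mem_filter, hA, Finset.mem_product, Finset.mem_Icc, Finset.mem_Icc] at hw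
      rw [Finset.mem_product, Finset.mem_filter, Finset.mem_Icc, Finset.mem_Ioc]
      refine ⟨hw.1.1, ⟨?_, hw.2⟩⟩
      omega
    have h2 := Finset.card_le_card h1
    rw [Finset.card_product, Nat.card_Icc, Nat.Ioc_filter_dvd_card_eq_div] at h2
    have h3 : Q.card ≤ T * (T / 5) := by simpa using h2
    have h4 : (Q.card : ℝ) ≤ (T : ℝ) * ((T / 5 : ℕ) : ℝ) := by exact_mod_cast h3
    have h5 : ((T / 5 : ℕ) : ℝ) ≤ (T : ℝ) / 5 := by
      have := Nat.cast_div_le (m := T) (n := 5) (α := ℝ)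
      simpa using this
    calc (Q.card : ℝ) ≤ (T : ℝ) * ((T / 5 : ℕ) : ℝ) := h4
      _ ≤ (T : ℝ) * ((T : ℝ) / 5) := mul_le_mul_of_nonneg_left h5 hTR
      _ = (T : ℝ) * T / 5 := by ring
  have hRc : (R.card : ℝ) ≤ (T : ℝ) * T / 20 := by
    have h1 : R ⊆ (Icc 1 (T / 20)) ×ˢ (Icc 1 T) := by
      intro w hw
      rw [hR, Finset.mem_filter, hA, Finset.mem_product, Finset.mem_Icc, Finset.mem_Icc] at hw
      rw [Finset.mem_product, Finset.mem_Icc, Finset.mem_Icc]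
      omega
    have h2 := Finset.card_le_card h1
    rw [Finset.card_product, Nat.card_Icc, Nat.card_Icc] at h2
    have h3 : R.card ≤ (T / 20) * T := by simpa using h2
    have h4 : (R.card : ℝ) ≤ ((T / 20 : ℕ) : ℝ) * (T : ℝ) := by exact_mod_cast h3
    have h5 : ((T / 20 : ℕ) : ℝ) ≤ (T : ℝ) / 20 := by
      have := Nat.cast_div_le (m := T) (n := 20) (α := ℝ)
      simpa using this
    calc (R.card : ℝ) ≤ ((T / 20 : ℕ) : ℝ) * (T : ℝ) := h4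
      _ ≤ ((T : ℝ) / 20) * T := mul_le_mul_of_nonneg_right h5 hTR
      _ = (T : ℝ) * T / 20 := by ring
  have hfin : (P.card : ℝ) ≤ (P'.card : ℝ) + ((Q.card : ℝ) + (R.card : ℝ)) := by
    have h1 := (Finset.card_le_card hcover).trans ((Finset.card_union_le _ _).trans
      (Nat.add_le_add_left (Finset.card_union_le _ _) _))
    exact_mod_cast h1
  linarith

theorem low_two_five (j : ℕ) : ∃ m : ℤ, (5 : ℤ) ^ j = 4 * m + 1 := by
  induction j with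
  | zero => exact ⟨0, by norm_num⟩
  | succ n ih =>
    obtain ⟨m, hm⟩ := ih
    exact ⟨5 * m + 1, by rw [pow_succ, hm]; ring⟩

/-- the height of a curve of the family -/
theorem low_two_height (t x : ℤ) (M Y s : ℝ) (_hM : 0 ≤ M) (hYM : Y ^ s = 729 * M ^ 6)
    (ha : |((4 * t + 1 : ℤ) : ℝ)| ≤ 33 / 2 * M) (hx : |((x : ℤ) : ℝ)| ≤ M ^ 2 / 2)
    (hD : ((((LoW t (-x)).Δ).natAbs : ℕ) : ℝ) ≤ Y ^ s) :
    ((Ht (LoW t (-x)) : ℕ) : ℝ) ≤ 40000 * Y ^ s := by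
  have hcast : ∀ z : ℤ, ((z.natAbs : ℕ) : ℝ) = |(z : ℝ)| := fun z => by
    rw [Nat.cast_natAbs, Int.cast_abs]
  have h4 : (((LoW t (-x)).c₄.natAbs : ℕ) : ℝ) ≤ 297 * M ^ 2 := by
    rw [hcast, LoW_c4]
    have e : (((4 * t + 1) ^ 2 - 48 * (-x) : ℤ) : ℝ) = ((4 * t + 1 : ℤ) : ℝ) ^ 2 + 48 * (x : ℝ) := by
      push_cast; ring
    rw [e]
    have h1 : ((4 * t + 1 : ℤ) : ℝ) ^ 2 ≤ (33 / 2 * M) ^ 2 := by
      rw [← sq_abs]
      exact pow_le_pow_left₀ (abs_nonneg _) ha 2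
    have h2 := abs_le.1 hx
    have h3 := sq_nonneg ((4 * t + 1 : ℤ) : ℝ)
    rw [abs_le]
    constructor <;> nlinarith [h2.1, h2.2, sq_nonneg M]
  have h43 : ((((LoW t (-x)).c₄.natAbs ^ 3 : ℕ)) : ℝ) ≤ 35937 * Y ^ s := by
    rw [Nat.cast_pow, hYM]
    calc (((LoW t (-x)).c₄.natAbs : ℕ) : ℝ) ^ 3 ≤ (297 * M ^ 2) ^ 3 :=
          pow_le_pow_left₀ (Nat.cast_nonneg _) h4 3
      _ = 35937 * (729 * M ^ 6) := by ring
  have g4 : (LoW t (-x)).c₆.natAbs ^ 2 ≤ (LoW t (-x)).c₄.natAbs ^ 3 +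
      1728 * ((LoW t (-x)).Δ).natAbs := by
    have g1 : (1728 : ℤ) * (LoW t (-x)).Δ = (LoW t (-x)).c₄ ^ 3 - (LoW t (-x)).c₆ ^ 2 :=
      (LoW t (-x)).c_relation
    have h8 : (LoW t (-x)).c₆ ^ 2 = (LoW t (-x)).c₄ ^ 3 - 1728 * (LoW t (-x)).Δ := by linarith
    have h9 := Int.natAbs_sub_le ((LoW t (-x)).c₄ ^ 3) (1728 * (LoW t (-x)).Δ)
    rw [← h8, Int.natAbs_mul, Int.natAbs_pow, Int.natAbs_pow] at h9
    exact h9
  have g5 : ((((LoW t (-x)).c₆.natAbs ^ 2 : ℕ)) : ℝ) ≤ ((((LoW t (-x)).c₄.natAbs ^ 3 : ℕ)) : ℝ) +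
      1728 * ((((LoW t (-x)).Δ).natAbs : ℕ) : ℝ) := by exact_mod_cast g4
  unfold Ht
  rw [Nat.cast_max]
  have hY0 : 0 ≤ Y ^ s := by rw [hYM]; positivity
  apply max_le
  · linarith
  · linarith

/-- one curve of the family: `α = 2 ^ i v`, `|β| = 5 ^ j r` -/
theorem low_two_mem (s Y M : ℝ) (hs : 2 ≤ s) (hY : 1 ≤ Y) (hM : 0 < M) (hYM : Y ^ s = 729 * M ^ 6)
    (T i j v r : ℕ) (τ : ℤ) (hv0 : 1 ≤ v) (hv : v ≤ T) (hv8 : T < 8 * v) (hr0 : 1 ≤ r)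
    (hr : r ≤ 2 * T) (hr20 : T < 20 * r) (hβ : (4 * τ + 1).natAbs = 5 ^ j * r)
    (hcop : Nat.Coprime (2 ^ i * v) (5 ^ j * r))
    (hi1 : (2 : ℝ) ^ i * T ≤ M) (hi2 : M < 2 * ((2 : ℝ) ^ i * T))
    (hj1 : (5 : ℝ) ^ j * T ≤ M / 4) (hj2 : M / 4 < 5 * ((5 : ℝ) ^ j * T))
    (hTM : 340 * (T : ℝ) ^ 2 * M ≤ Y / 350000) :
    ((LoW (τ - 4 * ((2 ^ i * v : ℕ) : ℤ)) (-(((2 ^ i * v : ℕ) : ℤ) * (4 * τ + 1)))).c₄,
      (LoW (τ - 4 * ((2 ^ i * v : ℕ) : ℤ)) (-(((2 ^ i * v : ℕ) : ℤ) * (4 * τ + 1)))).c₆) ∈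
      twoLaw Y s s ∩ twoHt Y (40000 * Y ^ s) s := by
  have h2i : 0 < 2 ^ i := by positivity
  have h5j : 0 < 5 ^ j := by positivity
  have hApos : 0 < 2 ^ i * v := Nat.mul_pos h2i hv0
  have hBpos : 0 < 5 ^ j * r := Nat.mul_pos h5j hr0
  have hAz : ((2 ^ i * v : ℕ) : ℤ) ≠ 0 := by exact_mod_cast hApos.ne'
  have hBz : (4 * τ + 1 : ℤ) ≠ 0 := by omega
  have hb0 : (-(((2 ^ i * v : ℕ) : ℤ) * (4 * τ + 1))) ≠ 0 := neg_ne_zero.2 (mul_ne_zero hAz hBz)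
  have hc : IsCoprime (4 * (τ - 4 * ((2 ^ i * v : ℕ) : ℤ)) + 1)
      (-(((2 ^ i * v : ℕ) : ℤ) * (4 * τ + 1))) := by
    apply low_two_coprime
    rw [Int.isCoprime_iff_gcd_eq_one, Int.gcd, Int.natAbs_natCast, hβ]
    exact hcop
  have hΔ0 := LoW_Δ_ne (τ - 4 * ((2 ^ i * v : ℕ) : ℤ)) _ hb0
  obtain ⟨e, he⟩ : ∃ e : ℕ, e = (4 * τ + 1 + 16 * ((2 ^ i * v : ℕ) : ℤ)).natAbs := ⟨_, rfl⟩
  have hE : ((LoW (τ - 4 * ((2 ^ i * v : ℕ) : ℤ))
      (-(((2 ^ i * v : ℕ) : ℤ) * (4 * τ + 1)))).Δ).natAbs = ((2 ^ i * v) * (5 ^ j * r) * e) ^ 2 := by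
    rw [low_two_Δ, Int.natAbs_pow, Int.natAbs_mul, Int.natAbs_mul, Int.natAbs_natCast, hβ, ← he]
  have he1 : 16 * (2 ^ i * v) ≤ e + 5 ^ j * r ∧ e ≤ 16 * (2 ^ i * v) + 5 ^ j * r := by
    rw [he, ← hβ]
    constructor <;> omega
  -- real sizes
  have hv8R : (T : ℝ) < 8 * (v : ℝ) := by exact_mod_cast hv8
  have hvR : (v : ℝ) ≤ T := by exact_mod_cast hv
  have hrR : (r : ℝ) ≤ 2 * T := by exact_mod_cast hr
  have hr20R : (T : ℝ) < 20 * (r : ℝ) := by exact_mod_cast hr20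
  have h2iR : (0 : ℝ) < (2 : ℝ) ^ i := by positivity
  have h5jR : (0 : ℝ) < (5 : ℝ) ^ j := by positivity
  obtain ⟨A, hAdef⟩ : ∃ A : ℝ, A = (2 : ℝ) ^ i * v := ⟨_, rfl⟩
  obtain ⟨B, hBdef⟩ : ∃ B : ℝ, B = (5 : ℝ) ^ j * r := ⟨_, rfl⟩
  have hA1 : A ≤ M := by
    rw [hAdef]
    exact (mul_le_mul_of_nonneg_left hvR h2iR.le).trans hi1
  have hA2 : M / 16 ≤ A := by
    rw [hAdef]
    have h1 : (2 : ℝ) ^ i * T ≤ (2 : ℝ) ^ i * (8 * v) := mul_le_mul_of_nonneg_left hv8R.le h2iR.le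
    linarith
  have hB1 : B ≤ M / 2 := by
    rw [hBdef]
    have h1 : (5 : ℝ) ^ j * r ≤ (5 : ℝ) ^ j * (2 * T) := mul_le_mul_of_nonneg_left hrR h5jR.le
    linarith
  have hB2 : M / 400 ≤ B := by
    rw [hBdef]
    have h1 : (5 : ℝ) ^ j * T ≤ (5 : ℝ) ^ j * (20 * r) :=
      mul_le_mul_of_nonneg_left hr20R.le h5jR.le
    linarith
  have hAcast : ((2 ^ i * v : ℕ) : ℝ) = A := by rw [hAdef]; push_cast; ring
  have hBcast : ((5 ^ j * r : ℕ) : ℝ) = B := by rw [hBdef]; push_cast; ring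
  have heL : 16 * A ≤ (e : ℝ) + B := by
    rw [← hAcast, ← hBcast]
    exact_mod_cast he1.1
  have heU : (e : ℝ) ≤ 16 * A + B := by
    rw [← hAcast, ← hBcast]
    exact_mod_cast he1.2
  have he2 : M / 2 ≤ (e : ℝ) := by linarith
  have he3 : (e : ℝ) ≤ 17 * M := by linarith
  have hepos : 0 < e := by
    have : (0 : ℝ) < (e : ℝ) := by linarith
    exact_mod_cast this
  have hA0 : 0 ≤ A := by linarith
  have hB0 : 0 ≤ B := by linarith
  have hDR : ((((2 ^ i * v) * (5 ^ j * r) * e) ^ 2 : ℕ) : ℝ) = (A * B * e) ^ 2 := by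
    rw [Nat.cast_pow, Nat.cast_mul, Nat.cast_mul, hAcast, hBcast]
  have hlow : M ^ 6 / 163840000 ≤ (A * B * e) ^ 2 := by
    have h1 : M / 16 * (M / 400) * (M / 2) ≤ A * B * e := by
      apply mul_le_mul _ he2 (by positivity) (by positivity)
      exact mul_le_mul hA2 hB2 (by positivity) hA0
    calc M ^ 6 / 163840000 = (M / 16 * (M / 400) * (M / 2)) ^ 2 := by ring
      _ ≤ (A * B * e) ^ 2 := pow_le_pow_left₀ (by positivity) h1 2
  have hupp : (A * B * e) ^ 2 ≤ 729 * M ^ 6 := by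
    have h1 : A * B * e ≤ M * (M / 2) * (17 * M) := by
      apply mul_le_mul _ he3 (by positivity) (by positivity)
      exact mul_le_mul hA1 hB1 hB0 hM.le
    calc (A * B * e) ^ 2 ≤ (M * (M / 2) * (17 * M)) ^ 2 := pow_le_pow_left₀ (by positivity) h1 2
      _ = 289 / 4 * M ^ 6 := by ring
      _ ≤ 729 * M ^ 6 := by
          have : 0 ≤ M ^ 6 := by positivity
          linarith
  -- the radical
  have hne : 2 * v * (5 * r) * e ≠ 0 :=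
    Nat.mul_ne_zero (Nat.mul_ne_zero (by omega) (by omega)) hepos.ne'
  have hrd : rd (((2 ^ i * v) * (5 ^ j * r) * e) ^ 2) ≤ 2 * v * (5 * r) * e := by
    have h8 : rd (((2 ^ i * v) * (5 ^ j * r) * e) ^ 2) ≤ rd (2 * v * (5 * r) * e) := by
      apply rd_mono' hne
      intro p hp hpd
      have h9 := hp.dvd_of_dvd_pow hpd
      rcases (hp.dvd_mul).mp h9 with h10 | h10
      · apply Dvd.dvd.mul_right
        rcases (hp.dvd_mul).mp h10 with h11 | h11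
        · apply Dvd.dvd.mul_right
          rcases (hp.dvd_mul).mp h11 with h12 | h12
          · exact Dvd.dvd.mul_right (hp.dvd_of_dvd_pow h12) _
          · exact Dvd.dvd.mul_left h12 _
        · apply Dvd.dvd.mul_left
          rcases (hp.dvd_mul).mp h11 with h12 | h12
          · exact Dvd.dvd.mul_right (hp.dvd_of_dvd_pow h12) _
          · exact Dvd.dvd.mul_left h12 _
      · exact Dvd.dvd.mul_left h10 _
    exact h8.trans (rd_le hne)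
  have hN : ((rd (((2 ^ i * v) * (5 ^ j * r) * e) ^ 2) : ℕ) : ℝ) ≤ Y / 350000 := by
    have h9 : ((rd (((2 ^ i * v) * (5 ^ j * r) * e) ^ 2) : ℕ) : ℝ) ≤
        2 * (v : ℝ) * (5 * r) * e := by exact_mod_cast hrd
    refine h9.trans (le_trans ?_ hTM)
    have hT0 : (0 : ℝ) ≤ (T : ℝ) := Nat.cast_nonneg T
    calc 2 * (v : ℝ) * (5 * r) * e ≤ 2 * (T : ℝ) * (5 * (2 * T)) * (17 * M) := by
          apply mul_le_mul _ he3 (by positivity) (by positivity)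
          apply mul_le_mul _ _ (by positivity) (by positivity)
          · linarith
          · linarith
      _ = 340 * (T : ℝ) ^ 2 * M := by ring
  have k1 : ((rd (((LoW (τ - 4 * ((2 ^ i * v : ℕ) : ℤ))
      (-(((2 ^ i * v : ℕ) : ℤ) * (4 * τ + 1)))).Δ).natAbs) : ℕ) : ℝ) ≤ Y := by
    rw [hE]
    refine hN.trans ?_
    rw [div_le_iff₀ (by norm_num)]
    linarith
  have k2 : ((rd (((LoW (τ - 4 * ((2 ^ i * v : ℕ) : ℤ))
      (-(((2 ^ i * v : ℕ) : ℤ) * (4 * τ + 1)))).Δ).natAbs) : ℕ) : ℝ) ^ s ≤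
      ((((LoW (τ - 4 * ((2 ^ i * v : ℕ) : ℤ))
      (-(((2 ^ i * v : ℕ) : ℤ) * (4 * τ + 1)))).Δ).natAbs : ℕ) : ℝ) := by
    rw [hE, hDR]
    refine le_trans ?_ hlow
    calc ((rd (((2 ^ i * v) * (5 ^ j * r) * e) ^ 2) : ℕ) : ℝ) ^ s ≤ (Y / 350000) ^ s :=
          Real.rpow_le_rpow (by positivity) hN (by linarith)
      _ = Y ^ s / (350000 : ℝ) ^ s := Real.div_rpow (by linarith) (by positivity) s
      _ ≤ Y ^ s / (350000 : ℝ) ^ (2 : ℝ) := by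
          apply div_le_div_of_nonneg_left (by positivity) (by positivity)
          exact Real.rpow_le_rpow_of_exponent_le (by norm_num) hs
      _ = Y ^ s / 122500000000 := by norm_num
      _ ≤ M ^ 6 / 163840000 := by
          rw [hYM, div_le_div_iff₀ (by norm_num) (by norm_num)]
          have : 0 ≤ M ^ 6 := by positivity
          linarith
  have k3 : ((((LoW (τ - 4 * ((2 ^ i * v : ℕ) : ℤ))
      (-(((2 ^ i * v : ℕ) : ℤ) * (4 * τ + 1)))).Δ).natAbs : ℕ) : ℝ) ≤ Y ^ s := by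
    rw [hE, hDR, hYM]
    exact hupp
  have k4 := low_two_height (τ - 4 * ((2 ^ i * v : ℕ) : ℤ)) (((2 ^ i * v : ℕ) : ℤ) * (4 * τ + 1))
    M Y s hM.le hYM (by
      have g1 : |(4 * τ + 1 : ℤ)| = ((5 ^ j * r : ℕ) : ℤ) := by rw [Int.abs_eq_natAbs, hβ]
      have g2 : |((4 * τ + 1 : ℤ) : ℝ)| = B := by
        rw [← hBcast, ← Int.cast_abs, g1, Int.cast_natCast]
      have g3 : ((4 * (τ - 4 * ((2 ^ i * v : ℕ) : ℤ)) + 1 : ℤ) : ℝ) =
          ((4 * τ + 1 : ℤ) : ℝ) - 16 * A := by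
        rw [← hAcast]; push_cast; ring
      rw [g3]
      have g4 := abs_le.1 g2.le
      rw [abs_le]
      constructor <;> linarith [g4.1, g4.2]) (by
      have g1 : |(4 * τ + 1 : ℤ)| = ((5 ^ j * r : ℕ) : ℤ) := by rw [Int.abs_eq_natAbs, hβ]
      have g2 : |((4 * τ + 1 : ℤ) : ℝ)| = B := by
        rw [← hBcast, ← Int.cast_abs, g1, Int.cast_natCast]
      rw [Int.cast_mul, abs_mul, g2, Int.cast_natCast, hAcast, abs_of_nonneg hA0]
      calc A * B ≤ M * (M / 2) := mul_le_mul hA1 hB1 hB0 hM.le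
        _ = M ^ 2 / 2 := by ring) k3
  exact ⟨⟨_, rfl, rfl, hΔ0, LoW_coprime _ _ hc, LoW_point _ _ hb0, k1, k2, k3⟩,
    ⟨_, rfl, rfl, hΔ0, LoW_coprime _ _ hc, LoW_point _ _ hb0, k1, k2, k4⟩⟩

theorem low_two_ht (s : ℝ) (h1 : 2 ≤ s) (h2 : s < 6) : ∃ c Y0 : ℝ, 0 < c ∧ 1 ≤ Y0 ∧ ∀ Y : ℝ, Y0 ≤ Y →
    ∃ F : Finset (ℤ × ℤ), (F : Set (ℤ × ℤ)) ⊆ twoLaw Y s s ∩ twoHt Y (40000 * Y ^ s) s ∧
      c * Y ^ (1 - s / 6) ≤ (F.card : ℝ) := by
  classical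
  have hs6 : 0 < 1 - s / 6 := by linarith
  refine ⟨1 / 1280000000, max 1 ((40000000 : ℝ) ^ (1 / (1 - s / 6))), by norm_num,
    le_max_left _ _, ?_⟩
  intro Y hY
  have hY1 : 1 ≤ Y := (le_max_left _ _).trans hY
  have hYK : (40000000 : ℝ) ^ (1 / (1 - s / 6)) ≤ Y := (le_max_right _ _).trans hY
  have hY0 : 0 < Y := by linarith
  set z : ℝ := Y ^ (s / 6) with hz
  have hz0 : 0 < z := by positivity
  have hz6 : z ^ 6 = Y ^ s := by
    rw [hz, ← Real.rpow_natCast, ← Real.rpow_mul hY0.le]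
    congr 1
    push_cast
    ring
  have hzY : Y ≤ z ^ 3 := by
    have e : z ^ 3 = Y ^ (s / 2) := by
      rw [hz, ← Real.rpow_natCast, ← Real.rpow_mul hY0.le]
      congr 1
      push_cast
      ring
    rw [e]
    calc Y = Y ^ (1 : ℝ) := (Real.rpow_one Y).symm
      _ ≤ Y ^ (s / 2) := Real.rpow_le_rpow_of_exponent_le hY1 (by linarith)
  have hYz : 40000000 * z ≤ Y := by
    have e1 : Y = Y ^ (1 - s / 6) * z := by
      rw [hz, ← Real.rpow_add hY0]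
      rw [show 1 - s / 6 + s / 6 = 1 by ring, Real.rpow_one]
    have e2 : (40000000 : ℝ) ≤ Y ^ (1 - s / 6) := by
      calc (40000000 : ℝ) = ((40000000 : ℝ) ^ (1 / (1 - s / 6))) ^ (1 - s / 6) := by
            rw [← Real.rpow_mul (by norm_num), one_div_mul_cancel hs6.ne', Real.rpow_one]
        _ ≤ Y ^ (1 - s / 6) := Real.rpow_le_rpow (by positivity) hYK hs6.le
    calc 40000000 * z ≤ Y ^ (1 - s / 6) * z := mul_le_mul_of_nonneg_right e2 hz0.le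
      _ = Y := e1.symm
  set u : ℝ := Real.sqrt (Y / (40000000 * z)) with hu
  have hu2 : u ^ 2 = Y / (40000000 * z) := Real.sq_sqrt (by positivity)
  have hu1 : 1 ≤ u := by
    rw [hu, Real.one_le_sqrt, le_div_iff₀ (by positivity)]
    linarith
  have huz : u ≤ z / 12 := by
    have h3 : u ^ 2 ≤ (z / 12) ^ 2 := by
      rw [hu2, div_le_iff₀ (by positivity)]
      calc Y ≤ z ^ 3 := hzY
        _ ≤ (z / 12) ^ 2 * (40000000 * z) := by
            have : (z / 12) ^ 2 * (40000000 * z) = (40000000 / 144) * z ^ 3 := by ring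
            rw [this]
            have h0 : 0 ≤ z ^ 3 := by positivity
            linarith
    exact (pow_le_pow_iff_left₀ (by linarith) (by positivity) (by norm_num)).1 h3
  obtain ⟨T, hT⟩ : ∃ T : ℕ, T = ⌊u⌋₊ := ⟨_, rfl⟩
  have hTu : (T : ℝ) ≤ u := by rw [hT]; exact Nat.floor_le (by linarith)
  have hTlow : u < (T : ℝ) + 1 := by rw [hT]; exact Nat.lt_floor_add_one _
  have hT1 : 1 ≤ T := by
    rw [hT]; apply Nat.le_floor; push_cast; linarith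
  have hT1R : (1 : ℝ) ≤ (T : ℝ) := by exact_mod_cast hT1
  obtain ⟨M, hM⟩ : ∃ M : ℝ, M = z / 3 := ⟨_, rfl⟩
  have hM0 : 0 < M := by rw [hM]; positivity
  have hYM : Y ^ s = 729 * M ^ 6 := by rw [← hz6, hM]; ring
  have hTM4 : (T : ℝ) ≤ M / 4 := by rw [hM]; linarith
  obtain ⟨i, hi1, hi2⟩ := low_two_scale 2 (by norm_num) T hT1 M (by linarith)
  obtain ⟨j, hj1, hj2⟩ := low_two_scale 5 (by norm_num) T hT1 (M / 4) hTM4
  push_cast at hi1 hi2 hj1 hj2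
  have hTM : 340 * (T : ℝ) ^ 2 * M ≤ Y / 350000 := by
    have h3 : (T : ℝ) ^ 2 ≤ u ^ 2 := pow_le_pow_left₀ (by positivity) hTu 2
    calc 340 * (T : ℝ) ^ 2 * M ≤ 340 * u ^ 2 * M := by
          apply mul_le_mul_of_nonneg_right _ hM0.le
          linarith
      _ = 17 / 6000000 * Y := by
          rw [hu2, hM]
          field_simp
          ring
      _ ≤ Y / 350000 := by
          linarith
  choose t ht using exists_t
  obtain ⟨m, hm⟩ := low_two_five j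
  set P := ((Icc 1 T) ×ˢ (Icc 1 T)).filter (fun w : ℕ × ℕ => (Nat.Coprime (2 * w.1 - 1) w.2 ∧
      T < 8 * w.2) ∧ ¬ 5 ∣ w.2 ∧ T < 20 * w.1) with hP
  obtain ⟨τ, hτ⟩ : ∃ τ : ℕ → ℤ, τ = fun k => m * (4 * t k + 1) + t k := ⟨_, rfl⟩
  have hτ1 : ∀ k, 4 * τ k + 1 = 5 ^ j * (4 * t k + 1) := by
    intro k
    rw [hτ, hm]
    ring
  have hτ2 : ∀ k, 1 ≤ k → (4 * τ k + 1).natAbs = 5 ^ j * (2 * k - 1) := by
    intro k hk
    rw [hτ1, Int.natAbs_mul, Int.natAbs_pow]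
    rcases ht k with h | h
    · rw [h]; rfl
    · omega
  have hPmem : ∀ w ∈ P, 1 ≤ w.1 ∧ w.1 ≤ T ∧ 1 ≤ w.2 ∧ w.2 ≤ T ∧ Nat.Coprime (2 * w.1 - 1) w.2 ∧
      T < 8 * w.2 ∧ ¬ 5 ∣ w.2 ∧ T < 20 * w.1 := by
    intro w hw
    rw [hP, Finset.mem_filter, Finset.mem_product, Finset.mem_Icc, Finset.mem_Icc] at hw
    obtain ⟨⟨⟨h1, h2⟩, h3, h4⟩, ⟨h5, h6⟩, h7, h8⟩ := hw
    exact ⟨h1, h2, h3, h4, h5, h6, h7, h8⟩
  set f : ℕ × ℕ → ℤ × ℤ := fun w =>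
    ((LoW (τ w.1 - 4 * ((2 ^ i * w.2 : ℕ) : ℤ)) (-(((2 ^ i * w.2 : ℕ) : ℤ) * (4 * τ w.1 + 1)))).c₄,
      (LoW (τ w.1 - 4 * ((2 ^ i * w.2 : ℕ) : ℤ))
        (-(((2 ^ i * w.2 : ℕ) : ℤ) * (4 * τ w.1 + 1)))).c₆) with hf
  have h2i : 0 < 2 ^ i := by positivity
  have h5j : 0 < 5 ^ j := by positivity
  have hinj : Set.InjOn f (P : Set (ℕ × ℕ)) := by
    intro w hw w' hw' hww
    obtain ⟨h1, h2, h3, h4, h5, h6, h7, h8⟩ := hPmem w hw
    obtain ⟨h1', h2', h3', h4', h5', h6', h7', h8'⟩ := hPmem w' hw'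
    simp only [hf, Prod.mk.injEq] at hww
    have hp : (0 : ℤ) < ((2 ^ i * w.2 : ℕ) : ℤ) := by exact_mod_cast Nat.mul_pos h2i h3
    have hp' : (0 : ℤ) < ((2 ^ i * w'.2 : ℕ) : ℤ) := by exact_mod_cast Nat.mul_pos h2i h3'
    obtain ⟨e1, e2⟩ := low_two_inj hp hp' hww.1 hww.2
    apply Prod.ext
    · have e3 := hτ2 w.1 h1
      rw [e2, hτ2 w'.1 h1'] at e3
      have e4 := Nat.eq_of_mul_eq_mul_left h5j e3
      omega
    · have e3 : 2 ^ i * w.2 = 2 ^ i * w'.2 := by exact_mod_cast e1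
      exact Nat.eq_of_mul_eq_mul_left h2i e3
  have hmem : ∀ w ∈ P, f w ∈ twoLaw Y s s ∩ twoHt Y (40000 * Y ^ s) s := by
    intro w hw
    obtain ⟨h3, h4, h5, h6, h7, h8, h9, h10⟩ := hPmem w hw
    have hcop : Nat.Coprime (2 ^ i * w.2) (5 ^ j * (2 * w.1 - 1)) := by
      apply Nat.Coprime.mul_left
      · apply Nat.Coprime.pow_left
        apply Nat.Coprime.mul_right
        · exact Nat.Coprime.pow_right _ (by norm_num)
        · rw [Nat.coprime_two_left]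
          exact ⟨w.1 - 1, by omega⟩
      · apply Nat.Coprime.mul_right
        · apply Nat.Coprime.pow_right
          exact ((Nat.Prime.coprime_iff_not_dvd (by norm_num)).2 h9).symm
        · exact h7.symm
    exact low_two_mem s Y M h1 hY1 hM0 hYM T i j w.2 (2 * w.1 - 1) (τ w.1) h5 h6 h8 (by omega)
      (by omega) (by omega) (hτ2 w.1 h3) hcop hi1 hi2 hj1 hj2 hTM
  have hcount := low_two_count T hT1
  rw [← hP] at hcount
  refine ⟨P.image f, ?_, ?_⟩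
  · intro c hc
    simp only [Finset.coe_image, Set.mem_image, Finset.mem_coe] at hc
    obtain ⟨w, hw, rfl⟩ := hc
    exact hmem w hw
  · rw [Finset.card_image_of_injOn hinj]
    refine le_trans ?_ hcount
    have e1 : Y ^ (1 - s / 6) = Y / z := by
      rw [hz, Real.rpow_sub hY0, Real.rpow_one]
    have h3 : u / 2 ≤ (T : ℝ) := by linarith
    rw [e1]
    calc 1 / 1280000000 * (Y / z) = 1 / 8 * ((u / 2) * (u / 2)) := by
          have : (u / 2) * (u / 2) = u ^ 2 / 4 := by ring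
          rw [this, hu2]
          field_simp
          ring
      _ ≤ 1 / 8 * ((T : ℝ) * T) := by
          apply mul_le_mul_of_nonneg_left _ (by norm_num)
          exact mul_le_mul h3 h3 (by linarith) (by positivity)
      _ = 1 / 8 * T * T := by ring

theorem low_two (s : ℝ) (h1 : 2 ≤ s) (h2 : s < 6) : ∃ c Y0 : ℝ, 0 < c ∧ 1 ≤ Y0 ∧ ∀ Y : ℝ, Y0 ≤ Y →
    ∃ F : Finset (ℤ × ℤ), (F : Set (ℤ × ℤ)) ⊆ twoLaw Y s s ∧ c * Y ^ (1 - s / 6) ≤ (F.card : ℝ) := by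
  obtain ⟨c, Y0, hc, hY0, h⟩ := low_two_ht s h1 h2
  refine ⟨c, Y0, hc, hY0, fun Y hY => ?_⟩
  obtain ⟨F, hF1, hF2⟩ := h Y hY
  exact ⟨F, hF1.trans Set.inter_subset_left, hF2⟩

end P4

end Pool.Agent.Lib.MP_d8bd92_nt
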