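import Pool.Agent.Lib.MP_d8bd92_nt.P4.Upper
import Pool.Agent.Lib.MP_d8bd92_nt.P4.LowOne
import Pool.Agent.Lib.MP_d8bd92_nt.P4.LowTwo
import Pool.Agent.Lib.MP_d8bd92_nt.Hp.CurvesM
import Pool.Agent.Lib.MP_d8bd92_nt.Hp.MainTrue

set_option autoImplicit false

/-!
The law of the Szpiro ratio for the curves with a point of order two.
-/

namespace Pool.Agent.Lib.MP_d8bd92_nt

namespace P4

open Finset Pool.Agent.Lib.Szpiro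

theorem one_le_rd (n : ℕ) : (1 : ℝ) ≤ ((rd n : ℕ) : ℝ) := by
  have : 1 ≤ rd n := Nat.pos_of_ne_zero
    (Finset.prod_ne_zero_iff.2 fun p hp => (Nat.prime_of_mem_primeFactors hp).ne_zero)
  exact_mod_cast this

/-- the upper bound of the law, `3/2 ≤ s ≤ 2`, `|Δ| ≤ Y ^ κ` -/
theorem twoLawH_upper (κ : ℝ) (hκ : 0 < κ) : ∃ δ : ℝ, 0 < δ ∧ ∀ ε : ℝ, 0 < ε → ∃ C : ℝ, 0 < C ∧
    ∀ s Y : ℝ, 3 / 2 ≤ s → s ≤ 2 → 1 ≤ Y → (twoLawH Y κ s).Finite ∧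
      ((twoLawH Y κ s).ncard : ℝ) ≤ C * (Y ^ (1 - s / 6 + ε) + Y ^ (3 / 4 - δ)) := by
  obtain ⟨C1, δ1, hC1, hδ1, h1⟩ := Hp.modSet_few_gen κ (-3 / 2 + 1 / 24) (-17 / 4) hκ (by norm_num)
    (by norm_num) (Hp.main_true (κ + 4) (1 / 24) (by linarith) (by norm_num))
  refine ⟨δ1, hδ1, fun ε hε => ?_⟩
  obtain ⟨C2, hC2, h2⟩ := twoHH_upper (7 / 12) ε (by norm_num) hε
  refine ⟨2 * C2 + C1, by positivity, fun s Y hs1 hs2 hY => ?_⟩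
  have hY0 : 0 < Y := by linarith
  obtain ⟨m1, m2⟩ := h1 Y hY
  obtain ⟨t1, t2⟩ := h2 s Y hs1 (by linarith) hY
  have hsub : twoLawH Y κ s ⊆ Hp.modSet Y κ (-17 / 4) ∪ twoHH Y (Y ^ (3 * (7 / 12) : ℝ)) s := by
    rintro c ⟨W, h4, h6, hΔ, hss, hP, hN, hs, hD⟩
    rcases lt_or_ge (((rd W.Δ.natAbs : ℕ) : ℝ) ^ (6 + -17 / 4 : ℝ)) ((Ht W : ℕ) : ℝ) with hlt | hge
    · exact Or.inl ⟨W, h4, h6, hΔ, hss, hP, hN, hlt, hD⟩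
    · refine Or.inr ⟨W, h4, h6, hΔ, hss, hP, hN, hs, hge.trans ?_⟩
      have e1 : (6 + -17 / 4 : ℝ) = 3 * (7 / 12) := by norm_num
      rw [e1]
      exact Real.rpow_le_rpow (Nat.cast_nonneg _) hN (by norm_num)
  refine ⟨(m1.union t1).subset hsub, ?_⟩
  have k1 := Set.ncard_le_ncard hsub (m1.union t1)
  have k2 := Set.ncard_union_le (Hp.modSet Y κ (-17 / 4)) (twoHH Y (Y ^ (3 * (7 / 12) : ℝ)) s)
  have k3 : ((twoLawH Y κ s).ncard : ℝ) ≤ ((Hp.modSet Y κ (-17 / 4)).ncard : ℝ) +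
      ((twoHH Y (Y ^ (3 * (7 / 12) : ℝ)) s).ncard : ℝ) := by exact_mod_cast k1.trans k2
  have e2 : Y ^ (7 / 12 : ℝ) ≤ Y ^ (1 - s / 6) :=
    Real.rpow_le_rpow_of_exponent_le hY (by linarith)
  have e3 : Y ^ (1 - s / 6 + ε) = Y ^ ε * Y ^ (1 - s / 6) := by
    rw [← Real.rpow_add hY0]
    congr 1
    ring
  have hA : 0 < Y ^ (1 - s / 6 + ε) := Real.rpow_pos_of_pos hY0 _
  have hB : 0 < Y ^ (3 / 4 - δ1) := Real.rpow_pos_of_pos hY0 _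
  calc ((twoLawH Y κ s).ncard : ℝ) ≤ ((Hp.modSet Y κ (-17 / 4)).ncard : ℝ) +
      ((twoHH Y (Y ^ (3 * (7 / 12) : ℝ)) s).ncard : ℝ) := k3
    _ ≤ C1 * Y ^ (3 / 4 - δ1) + C2 * Y ^ ε * (Y ^ (1 - s / 6) + Y ^ (7 / 12 : ℝ)) := add_le_add m2 t2
    _ ≤ C1 * Y ^ (3 / 4 - δ1) + C2 * Y ^ ε * (Y ^ (1 - s / 6) + Y ^ (1 - s / 6)) := by
        gcongr
    _ = C1 * Y ^ (3 / 4 - δ1) + 2 * C2 * Y ^ (1 - s / 6 + ε) := by rw [e3]; ring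
    _ ≤ (2 * C2 + C1) * (Y ^ (1 - s / 6 + ε) + Y ^ (3 / 4 - δ1)) := by nlinarith

/-- the upper bound of the law for heights `≤ Y²`, `3/2 ≤ s ≤ 2` -/
theorem twoHH_upper_two (ε : ℝ) (hε : 0 < ε) : ∃ C : ℝ, 0 < C ∧
    ∀ s Y : ℝ, 3 / 2 ≤ s → s ≤ 2 → 1 ≤ Y → (twoHH Y (Y ^ (2 : ℝ)) s).Finite ∧
      ((twoHH Y (Y ^ (2 : ℝ)) s).ncard : ℝ) ≤ C * Y ^ (1 - s / 6 + ε) := by
  obtain ⟨C2, hC2, h2⟩ := twoHH_upper (2 / 3) ε (by norm_num) hε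
  refine ⟨2 * C2, by positivity, fun s Y hs1 hs2 hY => ?_⟩
  have hY0 : 0 < Y := by linarith
  obtain ⟨t1, t2⟩ := h2 s Y hs1 (by linarith) hY
  have e0 : (3 * (2 / 3) : ℝ) = 2 := by norm_num
  rw [e0] at t1 t2
  refine ⟨t1, t2.trans ?_⟩
  have e2 : Y ^ (2 / 3 : ℝ) ≤ Y ^ (1 - s / 6) :=
    Real.rpow_le_rpow_of_exponent_le hY (by linarith)
  have e3 : Y ^ (1 - s / 6 + ε) = Y ^ ε * Y ^ (1 - s / 6) := by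
    rw [← Real.rpow_add hY0]
    congr 1
    ring
  calc C2 * Y ^ ε * (Y ^ (1 - s / 6) + Y ^ (2 / 3 : ℝ)) ≤
      C2 * Y ^ ε * (Y ^ (1 - s / 6) + Y ^ (1 - s / 6)) := by gcongr
    _ = 2 * C2 * Y ^ (1 - s / 6 + ε) := by rw [e3]; ring

/-- the lower bound of the law, all `s < 6`, with the height -/
theorem two_lower (s : ℝ) (h1 : 3 / 2 ≤ s) (h2 : s < 6) : ∃ c Y0 : ℝ, 0 < c ∧ 1 ≤ Y0 ∧ ∀ Y : ℝ, Y0 ≤ Y →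
    ∃ F : Finset (ℤ × ℤ), (F : Set (ℤ × ℤ)) ⊆ twoLaw Y s s ∩ twoHt Y (40000 * Y ^ s) s ∧
      c * Y ^ (1 - s / 6) ≤ (F.card : ℝ) := by
  rcases lt_or_ge s 3 with h | h
  · obtain ⟨c, Y0, hc, hY0, hl⟩ := low_one_ht s h1 h
    refine ⟨c, Y0, hc, hY0, fun Y hY => ?_⟩
    obtain ⟨F, hF1, hF2⟩ := hl Y hY
    refine ⟨F, fun c hc => ⟨(hF1 hc).1, ?_⟩, hF2⟩
    obtain ⟨W, g4, g6, hΔ, hss, hP, hN, hs, hH⟩ := (hF1 hc).2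
    refine ⟨W, g4, g6, hΔ, hss, hP, hN, hs, hH.trans ?_⟩
    have : 0 ≤ Y ^ s := Real.rpow_nonneg (by linarith) _
    linarith
  · exact low_two_ht s (by linarith) h2

/-- `40000 Y ^ s ≤ Y ^ κ` for `s < κ` and `Y` large -/
theorem const_le (s κ : ℝ) (h : s < κ) : ∃ Y1 : ℝ, 1 ≤ Y1 ∧ ∀ Y : ℝ, Y1 ≤ Y → 40000 * Y ^ s ≤ Y ^ κ := by
  have hs : 0 < κ - s := by linarith
  refine ⟨max 1 ((40000 : ℝ) ^ (1 / (κ - s))), le_max_left _ _, fun Y hY => ?_⟩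
  have hY1 : 1 ≤ Y := (le_max_left _ _).trans hY
  have hYb : (40000 : ℝ) ^ (1 / (κ - s)) ≤ Y := (le_max_right _ _).trans hY
  have hYp : 0 < Y := by linarith
  have e1 : (40000 : ℝ) ≤ Y ^ (κ - s) := by
    calc (40000 : ℝ) = ((40000 : ℝ) ^ (1 / (κ - s))) ^ (κ - s) := by
          rw [← Real.rpow_mul (by norm_num), one_div_mul_cancel hs.ne', Real.rpow_one]
      _ ≤ Y ^ (κ - s) := Real.rpow_le_rpow (by positivity) hYb hs.le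
  calc 40000 * Y ^ s ≤ Y ^ (κ - s) * Y ^ s :=
        mul_le_mul_of_nonneg_right e1 (Real.rpow_nonneg hYp.le _)
    _ = Y ^ κ := by
        rw [← Real.rpow_add hYp]
        congr 1
        ring

/-- the lower bound of the law, all `s < 6` -/
theorem twoLaw_lower (s : ℝ) (h1 : 3 / 2 ≤ s) (h2 : s < 6) : ∃ c Y0 : ℝ, 0 < c ∧ 1 ≤ Y0 ∧ ∀ Y : ℝ, Y0 ≤ Y →
    ∃ F : Finset (ℤ × ℤ), (F : Set (ℤ × ℤ)) ⊆ twoLaw Y s s ∧ c * Y ^ (1 - s / 6) ≤ (F.card : ℝ) := by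
  obtain ⟨c, Y0, hc, hY0, h⟩ := two_lower s h1 h2
  refine ⟨c, Y0, hc, hY0, fun Y hY => ?_⟩
  obtain ⟨F, hF1, hF2⟩ := h Y hY
  exact ⟨F, hF1.trans Set.inter_subset_left, hF2⟩

/-- the lower bound of the law for heights `≤ Y ^ κ`, `s < κ` -/
theorem twoHt_lower (s κ : ℝ) (h1 : 3 / 2 ≤ s) (h2 : s < 6) (h3 : s < κ) :
    ∃ c Y0 : ℝ, 0 < c ∧ 1 ≤ Y0 ∧ ∀ Y : ℝ, Y0 ≤ Y →
    ∃ F : Finset (ℤ × ℤ), (F : Set (ℤ × ℤ)) ⊆ twoHt Y (Y ^ κ) s ∧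
      c * Y ^ (1 - s / 6) ≤ (F.card : ℝ) := by
  obtain ⟨c, Y0, hc, hY0, h⟩ := two_lower s h1 h2
  obtain ⟨Y1, hY1, hk⟩ := const_le s κ h3
  refine ⟨c, max Y0 Y1, hc, hY0.trans (le_max_left _ _), fun Y hY => ?_⟩
  obtain ⟨F, hF1, hF2⟩ := h Y ((le_max_left _ _).trans hY)
  refine ⟨F, fun c hc => ?_, hF2⟩
  obtain ⟨W, g4, g6, hΔ, hss, hP, hN, hs, hH⟩ := (hF1 hc).2
  exact ⟨W, g4, g6, hΔ, hss, hP, hN, hs, hH.trans (hk Y ((le_max_right _ _).trans hY))⟩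

end P4

end Pool.Agent.Lib.MP_d8bd92_nt
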