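import Pool.Agent.Lib.MP_d8bd92_nt.P4.Defs
import Pool.Agent.Lib.MP_d8bd92_nt.Hp.CurvesM

set_option autoImplicit false

/-!
From curves to pairs, with the height.
-/

namespace Pool.Agent.Lib.MP_d8bd92_nt

namespace P4

open Finset Pool.Agent.Lib.Szpiro

/-- the pair is bounded by the height of the curve -/
theorem size_le (c4 c6 x y : ℤ) (h : ℕ) (H : ℝ) (hh : h = 1 ∨ h = 4 ∨ h = 16)
    (e1 : 4 * c4 = h * x + 4 * (h * y)) (e2 : 64 * c6 ^ 2 = h * (x + y) * (h * x - 8 * (h * y)) ^ 2)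
    (hH : ((max (c4.natAbs ^ 3) (c6.natAbs ^ 2) : ℕ) : ℝ) ≤ H) :
    max (x.natAbs : ℝ) (y.natAbs : ℝ) ≤ 36 * H ^ (1 / 3 : ℝ) := by
  have hcast : ∀ z : ℤ, ((z.natAbs : ℕ) : ℝ) = |(z : ℝ)| := fun z => by
    rw [Nat.cast_natAbs, Int.cast_abs]
  have hH0 : 0 ≤ H := (Nat.cast_nonneg _).trans hH
  obtain ⟨B, hB⟩ : ∃ B : ℝ, B = H ^ (1 / 3 : ℝ) := ⟨_, rfl⟩
  have hB0 : 0 ≤ B := by rw [hB]; positivity
  have hB3 : B ^ 3 = H := by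
    rw [hB, ← Real.rpow_natCast, ← Real.rpow_mul hH0]
    norm_num
  rw [← hB]
  rw [Nat.cast_max, Nat.cast_pow, Nat.cast_pow, hcast, hcast, sq_abs, ← hB3] at hH
  have h4 : |(c4 : ℝ)| ≤ B := le_of_pow_le_pow_left₀ (by norm_num) hB0 ((le_max_left _ _).trans hH)
  have h6 : (c6 : ℝ) ^ 2 ≤ B ^ 3 := (le_max_right _ _).trans hH
  obtain ⟨q1, q2⟩ := abs_le.1 h4
  have hh1 : (1 : ℝ) ≤ h := by rcases hh with rfl | rfl | rfl <;> norm_num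
  have hh0 : (0 : ℝ) < h := by linarith
  have e1' : 4 * (c4 : ℝ) = h * x + 4 * (h * y) := by exact_mod_cast e1
  have e2' : 64 * (c6 : ℝ) ^ 2 = h * (x + y) * (h * x - 8 * (h * y)) ^ 2 := by exact_mod_cast e2
  obtain ⟨Z, hZ⟩ : ∃ Z : ℝ, Z = h * y := ⟨_, rfl⟩
  obtain ⟨X, hX⟩ : ∃ X : ℝ, X = h * x := ⟨_, rfl⟩
  have e3 : (h : ℝ) * (x + y) = X + Z := by rw [hX, hZ]; ring
  rw [e3, ← hX, ← hZ] at e2'
  rw [← hX, ← hZ] at e1'
  have e4 : X = 4 * c4 - 4 * Z := by linarith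
  have key : (4 * (c4 : ℝ) - 3 * Z) * (c4 - 3 * Z) ^ 2 = 4 * c6 ^ 2 := by
    rw [e4] at e2'
    linear_combination -e2' / 16
  have hZ1 : 3 * Z ≤ 5 * B := by
    by_contra hcon
    push Not at hcon
    have a1 : 4 * (c4 : ℝ) - 3 * Z < 0 := by linarith
    have a2 : (c4 : ℝ) - 3 * Z < 0 := by linarith
    have a3 : 0 < ((c4 : ℝ) - 3 * Z) ^ 2 := by nlinarith
    have a4 : (4 * (c4 : ℝ) - 3 * Z) * (c4 - 3 * Z) ^ 2 < 0 := mul_neg_of_neg_of_pos a1 a3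
    rw [key] at a4
    have a5 : 0 ≤ (c6 : ℝ) ^ 2 := sq_nonneg _
    linarith
  have hZ2 : -(5 * B) ≤ 3 * Z := by
    by_contra hcon
    push Not at hcon
    have a1 : B ≤ 4 * (c4 : ℝ) - 3 * Z := by linarith
    have a2 : 4 * B < (c4 : ℝ) - 3 * Z := by linarith
    have a3 : (4 * B) ^ 2 < ((c4 : ℝ) - 3 * Z) ^ 2 := pow_lt_pow_left₀ a2 (by linarith) (by norm_num)
    have a4 : 4 * (c6 : ℝ) ^ 2 ≤ 4 * B ^ 3 := by linarith
    rw [← key] at a4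
    have a5 : 0 < 4 * (c4 : ℝ) - 3 * Z := by linarith
    have a6 : (4 * (c4 : ℝ) - 3 * Z) * (4 * B) ^ 2 < (4 * (c4 : ℝ) - 3 * Z) * (c4 - 3 * Z) ^ 2 :=
      mul_lt_mul_of_pos_left a3 a5
    have a7 : B * (4 * B) ^ 2 ≤ (4 * (c4 : ℝ) - 3 * Z) * (4 * B) ^ 2 :=
      mul_le_mul_of_nonneg_right a1 (by positivity)
    have a8 : 0 ≤ B ^ 3 := by positivity
    nlinarith
  have hred : ∀ z : ℝ, |h * z| ≤ 36 * B → |z| ≤ 36 * B := by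
    intro z hz
    rw [abs_mul, abs_of_pos hh0] at hz
    have : |z| ≤ h * |z| := le_mul_of_one_le_left (abs_nonneg _) hh1
    linarith
  rw [hcast, hcast]
  apply max_le
  · apply hred
    rw [← hX, e4, abs_le]
    constructor <;> linarith
  · apply hred
    rw [← hZ, abs_le]
    constructor <;> linarith

/-- from curves to pairs -/
theorem pairs_of_curves (Q : WeierstrassCurve ℤ → Prop) (F : Finset (ℤ × ℤ))
    (hF : ∀ c ∈ F, ∃ W : WeierstrassCurve ℤ, W.c₄ = c.1 ∧ W.c₆ = c.2 ∧ W.Δ ≠ 0 ∧ IsCoprime W.c₄ W.Δ ∧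
      (∃ P : (W.baseChange ℚ).toAffine.Point, addOrderOf P = 2) ∧ Q W) :
    ∃ P : Finset (ℤ × ℤ), F.card ≤ 6 * P.card ∧ ∀ w ∈ P, ∃ W : WeierstrassCurve ℤ, Q W ∧ W.Δ ≠ 0 ∧
      w.1 ≠ 0 ∧ w.2 ≠ 0 ∧ IsCoprime w.1 w.2 ∧ (∃ g : ℤ, w.1 + w.2 = g ^ 2) ∧
      rd w.1.natAbs * rd w.2.natAbs ≤ 8 * rd W.Δ.natAbs ∧
      W.Δ.natAbs ≤ (max w.1.natAbs w.2.natAbs) ^ 3 ∧
      max (w.1.natAbs : ℝ) (w.2.natAbs : ℝ) ≤ 36 * ((Ht W : ℕ) : ℝ) ^ (1 / 3 : ℝ) ∧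
      ((Ht W : ℕ) : ℝ) ≤ (22 * max (w.1.natAbs : ℝ) (w.2.natAbs : ℝ)) ^ 3 := by
  classical
  have hpar : ∀ c : ℤ × ℤ, ∃ t : ℕ × (ℤ × ℤ), c ∈ F → ((t.1 = 1 ∨ t.1 = 4 ∨ t.1 = 16) ∧
      4 * c.1 = t.1 * t.2.1 + 4 * (t.1 * t.2.2) ∧
      64 * c.2 ^ 2 = t.1 * (t.2.1 + t.2.2) * (t.1 * t.2.1 - 8 * (t.1 * t.2.2)) ^ 2 ∧
      ∃ W : WeierstrassCurve ℤ, Q W ∧ W.Δ ≠ 0 ∧
        t.2.1 ≠ 0 ∧ t.2.2 ≠ 0 ∧ IsCoprime t.2.1 t.2.2 ∧ (∃ g : ℤ, t.2.1 + t.2.2 = g ^ 2) ∧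
        rd t.2.1.natAbs * rd t.2.2.natAbs ≤ 8 * rd W.Δ.natAbs ∧
        W.Δ.natAbs ≤ (max t.2.1.natAbs t.2.2.natAbs) ^ 3 ∧
        max (t.2.1.natAbs : ℝ) (t.2.2.natAbs : ℝ) ≤ 36 * ((Ht W : ℕ) : ℝ) ^ (1 / 3 : ℝ) ∧
        ((Ht W : ℕ) : ℝ) ≤ (22 * max (t.2.1.natAbs : ℝ) (t.2.2.natAbs : ℝ)) ^ 3) := by
    intro c
    by_cases hc : c ∈ F
    · obtain ⟨W, h4, h6, hΔ, hss, hP, hQ⟩ := hF c hc
      obtain ⟨h, x, y, hh, e1, e2, hx, hy, hco, hs, hrd, hm, _, _⟩ := Hp.curves_data W hΔ hss hP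
      exact ⟨(h, (x, y)), fun _ => ⟨hh, by rw [← h4]; exact e1, by rw [← h6]; exact e2,
        W, hQ, hΔ, hx, hy, hco, hs, hrd, hm, size_le W.c₄ W.c₆ x y h _ hh e1 e2 le_rfl,
        Hp.mod_size W.c₄ W.c₆ x y h _ hh e1 e2 (le_max_left _ _) (le_max_right _ _)⟩⟩
    · exact ⟨(0, (0, 0)), fun h => absurd h hc⟩
  choose t ht using hpar
  refine ⟨F.image fun c => (t c).2, ?_, ?_⟩
  · have h1 : F.card ≤ ((F.image fun c => (t c).2) ×ˢ (({1, 4, 16} : Finset ℕ) ×ˢ (Finset.univ : Finset Bool))).card := by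
      apply Finset.card_le_card_of_injOn (fun c => ((t c).2, ((t c).1, decide (0 ≤ c.2))))
      · intro c hc
        rw [Finset.mem_coe] at hc
        simp only [Finset.coe_product, Set.mem_prod, Finset.mem_coe, Finset.mem_image, Finset.mem_insert,
          Finset.mem_singleton, Finset.mem_univ, and_true]
        exact ⟨⟨c, hc, rfl⟩, (ht c hc).1⟩
      · intro c hc c' hc' hcc
        simp only [Prod.mk.injEq] at hcc
        obtain ⟨h1, h2, h3⟩ := hcc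
        obtain ⟨_, e1, e2, _⟩ := ht c hc
        obtain ⟨_, e1', e2', _⟩ := ht c' hc'
        rw [h1, h2] at e1 e2
        have h4 : c.1 = c'.1 := by linarith
        have h5 : c.2 ^ 2 = c'.2 ^ 2 := by linarith
        have h6 : c.2 = c'.2 := by
          rcases sq_eq_sq_iff_eq_or_eq_neg.mp h5 with h | h
          · exact h
          · have h6 : (0 ≤ c.2) ↔ (0 ≤ c'.2) := by simpa using h3
            by_cases h7 : 0 ≤ c'.2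
            · have := h6.mpr h7
              omega
            · have h8 : ¬ 0 ≤ c.2 := fun h => h7 (h6.mp h)
              omega
        exact Prod.ext h4 h6
    rw [Finset.card_product, Finset.card_product] at h1
    have h2 : ({1, 4, 16} : Finset ℕ).card = 3 := by decide
    rw [h2, Finset.card_univ, Fintype.card_bool] at h1
    linarith
  · intro w hw
    obtain ⟨c, hc, rfl⟩ := Finset.mem_image.1 hw
    exact (ht c hc).2.2.2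

end P4

end Pool.Agent.Lib.MP_d8bd92_nt
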