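import Pool.Agent.Lib.MP_d8bd92_nt.CdE1

set_option autoImplicit false

/-!
Counting for the elementary sieve: square roots in an interval, and the number of pairs `(x, y)`,
`x + y` a square, `s₁ ∣ x`, `s₂ ∣ y`, `M ≤ |x| < 2 M`, `|y| < 2 X`.
-/

namespace Pool.Agent.Lib.MP_d8bd92_nt

namespace P4

open Finset Pool.Agent.Lib.Szpiro

namespace SvR

theorem card_residue (D : ℕ) (L : ℝ) (hD : 1 ≤ D) (hL : 0 ≤ L) (T : Finset ℕ)
    (hT : ∀ x ∈ T, ∀ y ∈ T, (x : ℝ) - y ≤ L)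
    (hc : ∀ x ∈ T, ∀ y ∈ T, x ≡ y [MOD D]) : (T.card : ℝ) ≤ 1 + L / D := by
  have hD0 : (0 : ℝ) < D := by exact_mod_cast hD
  rcases T.eq_empty_or_nonempty with h0 | h0
  · subst h0
    simp only [Finset.card_empty, Nat.cast_zero]
    positivity
  set m := T.min' h0 with hm
  have hmT : m ∈ T := T.min'_mem h0
  have hle : ∀ x ∈ T, m ≤ x := fun x hx => T.min'_le x hx
  have h1 : T.card ≤ ⌊L / D⌋₊ + 1 := by
    rw [← Finset.card_range (⌊L / D⌋₊ + 1)]
    refine Finset.card_le_card_of_injOn (fun x => (x - m) / D) ?_ ?_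
    · intro x hx
      have hx' : x ∈ T := hx
      have h2 := hT x hx' m hmT
      have h3 := hle x hx'
      simp only [Finset.coe_range, Set.mem_Iio]
      have h4 : (x - m) / D ≤ ⌊L / D⌋₊ := by
        refine Nat.le_floor ?_
        have h5 : (((x - m) / D : ℕ) : ℝ) ≤ ((x - m : ℕ) : ℝ) / D := Nat.cast_div_le
        refine h5.trans ?_
        rw [Nat.cast_sub h3]
        exact div_le_div_of_nonneg_right h2 hD0.le
      omega
    · intro x hx y hy hxy
      have hx' : x ∈ T := hx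
      have hy' : y ∈ T := hy
      have h2 := hle x hx'
      have h3 := hle y hy'
      have h4 := hc x hx' y hy'
      have h5 : x - m ≡ y - m [MOD D] := by
        refine Nat.ModEq.add_right_cancel' m ?_
        rwa [Nat.sub_add_cancel h2, Nat.sub_add_cancel h3]
      have h6 : (x - m) % D = (y - m) % D := h5
      simp only at hxy
      have h7 := Nat.div_add_mod (x - m) D
      have h8 := Nat.div_add_mod (y - m) D
      rw [hxy, h6] at h7
      omega
  have h2 : ((⌊L / D⌋₊ : ℕ) : ℝ) ≤ L / D := Nat.floor_le (by positivity)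
  calc (T.card : ℝ) ≤ ((⌊L / D⌋₊ + 1 : ℕ) : ℝ) := by exact_mod_cast h1
    _ = ((⌊L / D⌋₊ : ℕ) : ℝ) + 1 := by push_cast; ring
    _ ≤ 1 + L / D := by linarith

/-- square roots modulo `D` in an interval -/
theorem roots_interval (σ : ℝ) (hσ : 0 < σ) : ∃ C : ℝ, 1 ≤ C ∧
    ∀ (D : ℕ) (c : ℤ) (L : ℝ) (T : Finset ℕ), 1 ≤ D → 0 ≤ L →
    (∀ x ∈ T, Nat.Coprime x D ∧ (D : ℤ) ∣ (x : ℤ) ^ 2 - c) →
    (∀ x ∈ T, ∀ y ∈ T, (x : ℝ) - y ≤ L) →
    (T.card : ℝ) ≤ C * (D : ℝ) ^ σ * (1 + L / D) := by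
  classical
  obtain ⟨C, hC, hb⟩ := exists_pow_card_primeFactors_le 4 σ hσ
  refine ⟨C, hC, ?_⟩
  intro D c L T hD hL hT hTL
  have : NeZero D := ⟨by omega⟩
  have hD0 : (0 : ℝ) < D := by exact_mod_cast hD
  have hM0 : 0 ≤ 1 + L / D := by positivity
  rcases T.eq_empty_or_nonempty with h0 | ⟨x0, hx0⟩
  · subst h0
    simp only [Finset.card_empty, Nat.cast_zero]
    positivity
  have hx0c := (hT x0 hx0).1
  set un : ℕ → (ZMod D)ˣ := fun x => if h : Nat.Coprime x D then ZMod.unitOfCoprime x h else 1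
    with hun
  have hun1 : ∀ x, Nat.Coprime x D → ((un x : (ZMod D)ˣ) : ZMod D) = (x : ZMod D) := by
    intro x hx
    rw [hun]
    simp only [dif_pos hx, ZMod.coe_unitOfCoprime]
  set R : Finset (ZMod D)ˣ := Finset.univ.filter (fun u => u ^ 2 = 1) with hR
  have hRcard : (R.card : ℝ) ≤ C * (D : ℝ) ^ σ := by
    have h1 : R.card = Nat.card {u : (ZMod D)ˣ // u ^ 2 = 1} := by
      rw [Nat.card_eq_fintype_card, Fintype.card_subtype]
    have h2 := CdE1.nat_card_tors 2 (by norm_num) D (by omega)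
    rw [← h1] at h2
    calc (R.card : ℝ) ≤ (((2 * 2) ^ D.primeFactors.card : ℕ) : ℝ) := by exact_mod_cast h2
      _ = ((4 : ℕ) : ℝ) ^ D.primeFactors.card := by push_cast; norm_num
      _ ≤ C * (D : ℝ) ^ σ := by exact_mod_cast hb D (by omega)
  have hmem : ∀ x ∈ T, un x * (un x0)⁻¹ ∈ R := by
    intro x hx
    rw [hR, Finset.mem_filter]
    refine ⟨Finset.mem_univ _, ?_⟩
    have h1 := (hT x hx)
    have h2 := (hT x0 hx0)
    have h6 : (D : ℤ) ∣ (x : ℤ) ^ 2 - (x0 : ℤ) ^ 2 := by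
      have h4 := dvd_sub h1.2 h2.2
      have h5 : (x : ℤ) ^ 2 - c - ((x0 : ℤ) ^ 2 - c) = (x : ℤ) ^ 2 - (x0 : ℤ) ^ 2 := by ring
      rwa [h5] at h4
    have h7 : ((x : ZMod D)) ^ 2 = ((x0 : ZMod D)) ^ 2 := by
      have h8 := (ZMod.intCast_zmod_eq_zero_iff_dvd ((x : ℤ) ^ 2 - (x0 : ℤ) ^ 2) D).mpr h6
      push_cast at h8
      exact sub_eq_zero.mp h8
    have h9 : (un x) ^ 2 = (un x0) ^ 2 := by
      apply Units.ext
      rw [Units.val_pow_eq_pow_val, Units.val_pow_eq_pow_val, hun1 x h1.1, hun1 x0 h2.1, h7]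
    rw [mul_pow, inv_pow, h9, mul_inv_cancel]
  have hfib : ∀ r ∈ R, ((T.filter (fun x => un x * (un x0)⁻¹ = r)).card : ℝ) ≤ 1 + L / D := by
    intro r _
    refine card_residue D L hD hL _ ?_ ?_
    · intro x hx y hy
      exact hTL x (Finset.mem_filter.mp hx).1 y (Finset.mem_filter.mp hy).1
    · intro x hx y hy
      rw [Finset.mem_filter] at hx hy
      have h1 := hT x hx.1
      have h2 := hT y hy.1
      have h3 : un x = un y := mul_right_cancel (hx.2.trans hy.2.symm)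
      have h4 : (x : ZMod D) = (y : ZMod D) := by
        rw [← hun1 x h1.1, ← hun1 y h2.1, h3]
      exact (ZMod.natCast_eq_natCast_iff x y D).mp h4
  have hsum : (T.card : ℝ) = ∑ r ∈ R, ((T.filter (fun x => un x * (un x0)⁻¹ = r)).card : ℝ) := by
    rw [Finset.card_eq_sum_card_fiberwise (f := fun x => un x * (un x0)⁻¹) (t := R) hmem]
    push_cast
    rfl
  rw [hsum]
  calc ∑ r ∈ R, ((T.filter (fun x => un x * (un x0)⁻¹ = r)).card : ℝ)
      ≤ ∑ _r ∈ R, (1 + L / D) := Finset.sum_le_sum hfib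
    _ = R.card * (1 + L / D) := by rw [Finset.sum_const, nsmul_eq_mul]
    _ ≤ C * (D : ℝ) ^ σ * (1 + L / D) := mul_le_mul_of_nonneg_right hRcard hM0

/-- nonzero multiples of `s` of absolute value less than `B` -/
theorem card_mult (s : ℕ) (B : ℝ) (hs : 1 ≤ s) (hB : 0 ≤ B) (Y : Finset ℤ)
    (hY : ∀ y ∈ Y, y ≠ 0 ∧ (s : ℤ) ∣ y ∧ (y.natAbs : ℝ) < B) : (Y.card : ℝ) ≤ 2 * (B / s) := by
  classical
  have hs0 : (0 : ℝ) < s := by exact_mod_cast hs
  set K := ⌊B / s⌋₊ with hK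
  have h1 : Y.card ≤ ((Finset.Icc (-(K : ℤ)) K).erase 0).card := by
    refine Finset.card_le_card_of_injOn (fun y => y / s) ?_ ?_
    · intro y hy
      obtain ⟨h0, ⟨t, rfl⟩, h2⟩ := hY y hy
      have hsz : (s : ℤ) ≠ 0 := by exact_mod_cast (by omega : s ≠ 0)
      simp only [Finset.coe_erase, Finset.coe_Icc, Set.mem_sdiff, Set.mem_Icc,
        Set.mem_singleton_iff]
      rw [Int.mul_ediv_cancel_left t hsz]
      have ht : t.natAbs ≤ K := by
        refine Nat.le_floor ?_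
        rw [le_div_iff₀ hs0]
        rw [Int.natAbs_mul, Int.natAbs_natCast] at h2
        push_cast at h2 ⊢
        linarith
      refine ⟨⟨by omega, by omega⟩, ?_⟩
      intro ht0
      exact h0 (by rw [ht0, mul_zero])
    · intro y hy z hz hyz
      obtain ⟨_, h1, _⟩ := hY y hy
      obtain ⟨_, h2, _⟩ := hY z hz
      simp only at hyz
      have h3 := Int.ediv_mul_cancel h1
      have h4 := Int.ediv_mul_cancel h2
      rw [← h3, ← h4, hyz]
  have h2 : ((Finset.Icc (-(K : ℤ)) K).erase 0).card = 2 * K := by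
    rw [Finset.card_erase_of_mem (by simp), Int.card_Icc]
    omega
  have h3 : ((K : ℕ) : ℝ) ≤ B / s := Nat.floor_le (by positivity)
  rw [h2] at h1
  calc (Y.card : ℝ) ≤ ((2 * K : ℕ) : ℝ) := by exact_mod_cast h1
    _ = 2 * (K : ℝ) := by push_cast; ring
    _ ≤ 2 * (B / s) := by linarith

/-- fibres over the first member of an injective pair of functions -/
theorem card_fibres {α : Type} (P : Finset α) (f : α → ℤ) (g : α → ℕ) (B : ℝ)
    (hinj : ∀ a ∈ P, ∀ b ∈ P, f a = f b → g a = g b → a = b)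
    (hB : ∀ y ∈ P.image f, (((P.filter (fun a => f a = y)).image g).card : ℝ) ≤ B) :
    (P.card : ℝ) ≤ ((P.image f).card : ℝ) * B := by
  classical
  have h1 : P.card = ∑ y ∈ P.image f, (P.filter (fun a => f a = y)).card :=
    Finset.card_eq_sum_card_fiberwise (fun a ha => Finset.mem_image_of_mem f ha)
  rw [h1]
  push_cast
  rw [← nsmul_eq_mul]
  refine Finset.sum_le_card_nsmul _ _ _ ?_
  intro y hy
  refine le_trans ?_ (hB y hy)
  rw [Finset.card_image_of_injOn]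
  intro a ha b hb hab
  have ha' := Finset.mem_filter.mp (Finset.mem_coe.mp ha)
  have hb' := Finset.mem_filter.mp (Finset.mem_coe.mp hb)
  exact hinj a ha'.1 b hb'.1 (ha'.2.trans hb'.2.symm) hab

/-- the nonnegative square root of `x + y` -/
def gg (w : ℤ × ℤ) : ℕ := Nat.sqrt (w.1 + w.2).natAbs

theorem gg_sq {w : ℤ × ℤ} (h : ∃ g : ℤ, w.1 + w.2 = g ^ 2) : ((gg w : ℕ) : ℤ) ^ 2 = w.1 + w.2 := by
  obtain ⟨g, hg⟩ := h
  unfold gg
  rw [hg, Int.natAbs_pow, Nat.sqrt_eq', Int.natCast_natAbs, sq_abs]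

theorem gg_coprime {w : ℤ × ℤ} {s : ℕ} (h : ((gg w : ℕ) : ℤ) ^ 2 = w.1 + w.2)
    (hc : IsCoprime w.1 w.2) (hs : (s : ℤ) ∣ w.1 ∨ (s : ℤ) ∣ w.2) : Nat.Coprime (gg w) s := by
  rw [← Nat.isCoprime_iff_coprime]
  have h1 : IsCoprime (((gg w : ℕ) : ℤ) ^ 2) (s : ℤ) := by
    rw [h]
    rcases hs with hs | hs
    · have h2 : IsCoprime (w.1 + w.2) w.1 := by
        have := (IsCoprime.add_mul_left_left hc.symm 1)
        rwa [mul_one, add_comm] at this
      exact h2.of_isCoprime_of_dvd_right hs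
    · have h2 : IsCoprime (w.1 + w.2) w.2 := by
        have := (IsCoprime.add_mul_left_left hc 1)
        rwa [mul_one] at this
      exact h2.of_isCoprime_of_dvd_right hs
  exact (IsCoprime.pow_left_iff (by norm_num)).mp h1

theorem abs_cast_natAbs (a : ℤ) : ((a.natAbs : ℕ) : ℝ) = |(a : ℝ)| := by
  rw [Nat.cast_natAbs, Int.cast_abs]

end SvR

open SvR in
/-- pairs `(x, y)` with `x + y` a square, `s₁ ∣ x`, `s₂ ∣ y` -/
theorem fibre_count (σ : ℝ) (hσ : 0 < σ) : ∃ C : ℝ, 1 ≤ C ∧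
    ∀ (M X : ℝ) (s1 s2 : ℕ) (P : Finset (ℤ × ℤ)), 1 ≤ M → 0 < X → 1 ≤ s1 → 1 ≤ s2 →
    (∀ w ∈ P, w.1 ≠ 0 ∧ w.2 ≠ 0 ∧ IsCoprime w.1 w.2 ∧ (∃ g : ℤ, w.1 + w.2 = g ^ 2) ∧
      (s1 : ℤ) ∣ w.1 ∧ (s2 : ℤ) ∣ w.2 ∧ M ≤ (w.1.natAbs : ℝ) ∧ (w.1.natAbs : ℝ) < 2 * M ∧
      (w.2.natAbs : ℝ) < 2 * X ∧ (w.2.natAbs : ℝ) ≤ (w.1.natAbs : ℝ)) →
    (P.card : ℝ) ≤ C * M ^ σ * (X * √M / (s1 * s2) + min (X / s2) (M / s1)) := by
  classical
  obtain ⟨C, hC, hb⟩ := roots_interval σ hσ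
  have h2σ : (1 : ℝ) ≤ 2 ^ σ := Real.one_le_rpow (by norm_num) hσ.le
  refine ⟨32 * (C * 2 ^ σ), ?_, ?_⟩
  · have : (1 : ℝ) ≤ C * 2 ^ σ := one_le_mul_of_one_le_of_one_le hC h2σ
    linarith
  intro M X s1 s2 P hM hX hs1 hs2 hP
  have hM0 : (0 : ℝ) < M := by linarith
  have hs10 : (0 : ℝ) < s1 := by exact_mod_cast hs1
  have hs20 : (0 : ℝ) < s2 := by exact_mod_cast hs2
  have hsq0 : 0 < √M := Real.sqrt_pos.mpr hM0
  have hsq : √M * √M = M := Real.mul_self_sqrt hM0.le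
  have hC0 : 0 < C := by linarith
  have hMσ : 0 < M ^ σ := Real.rpow_pos_of_pos hM0 σ
  rcases P.eq_empty_or_nonempty with h0 | ⟨w0, hw0⟩
  · subst h0
    simp only [Finset.card_empty, Nat.cast_zero]
    positivity
  -- sizes of s1, s2
  have hpow : ∀ s : ℕ, 1 ≤ s → (s : ℝ) ≤ 2 * M → (s : ℝ) ^ σ ≤ 2 ^ σ * M ^ σ := by
    intro s _ hs
    rw [← Real.mul_rpow (by norm_num) hM0.le]
    exact Real.rpow_le_rpow (Nat.cast_nonneg s) hs hσ.le
  have hs1M : (s1 : ℝ) ≤ 2 * M := by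
    obtain ⟨h1, _, _, _, h5, _, _, h8, _⟩ := hP w0 hw0
    have h9 : s1 ≤ w0.1.natAbs :=
      Nat.le_of_dvd (Int.natAbs_pos.mpr h1) (Int.natCast_dvd.mp h5)
    have h10 : (s1 : ℝ) ≤ w0.1.natAbs := by exact_mod_cast h9
    linarith
  have hs2M : (s2 : ℝ) ≤ 2 * M := by
    obtain ⟨_, h2, _, _, _, h6, _, h8, _, h10⟩ := hP w0 hw0
    have h9 : s2 ≤ w0.2.natAbs :=
      Nat.le_of_dvd (Int.natAbs_pos.mpr h2) (Int.natCast_dvd.mp h6)
    have h11 : (s2 : ℝ) ≤ w0.2.natAbs := by exact_mod_cast h9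
    linarith
  have hgg : ∀ w ∈ P, ((gg w : ℕ) : ℤ) ^ 2 = w.1 + w.2 := fun w hw => gg_sq (hP w hw).2.2.2.1
  have hggR : ∀ w ∈ P, ((gg w : ℕ) : ℝ) ^ 2 = (w.1 : ℝ) + w.2 := by
    intro w hw
    have := hgg w hw
    exact_mod_cast this
  have hgle : ∀ w ∈ P, ((gg w : ℕ) : ℝ) ≤ 2 * √M := by
    intro w hw
    obtain ⟨_, _, _, _, _, _, _, h8, _, h10⟩ := hP w hw
    rw [abs_cast_natAbs] at h8 h10
    rw [abs_cast_natAbs] at h10
    refine le_of_sq_le_sq ?_ (by positivity)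
    rw [hggR w hw, mul_pow, Real.sq_sqrt hM0.le]
    have h11 := le_abs_self (w.1 : ℝ)
    have h12 := le_abs_self (w.2 : ℝ)
    linarith
  -- (A)
  have hA : (P.card : ℝ) ≤ (4 * (X / s2)) * (C * (2 ^ σ * M ^ σ) * (1 + 2 * √M / s1)) := by
    refine (card_fibres P (fun w => w.2) gg (C * (2 ^ σ * M ^ σ) * (1 + 2 * √M / s1)) ?_ ?_).trans ?_
    · intro a ha b hb' hab hg
      have h1 := hgg a ha
      have h2 := hgg b hb'
      rw [hg] at h1
      refine Prod.ext ?_ hab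
      linarith
    · intro y _
      refine (hb s1 y (2 * √M) _ hs1 (by positivity) ?_ ?_).trans ?_
      · intro g hg
        obtain ⟨w, hw, rfl⟩ := Finset.mem_image.mp hg
        obtain ⟨hwP, hwy⟩ := Finset.mem_filter.mp hw
        obtain ⟨_, _, h3, _, h5, _⟩ := hP w hwP
        refine ⟨gg_coprime (hgg w hwP) h3 (Or.inl h5), ?_⟩
        rw [hgg w hwP, hwy]
        rwa [add_sub_cancel_right]
      · intro g hg g' _
        obtain ⟨w, hw, rfl⟩ := Finset.mem_image.mp hg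
        have h1 := hgle w (Finset.mem_filter.mp hw).1
        have h2 : (0 : ℝ) ≤ (g' : ℝ) := Nat.cast_nonneg _
        linarith
      · have := hpow s1 hs1 hs1M
        refine mul_le_mul_of_nonneg_right ?_ (by positivity)
        exact mul_le_mul_of_nonneg_left this hC0.le
    · refine mul_le_mul_of_nonneg_right ?_ (by positivity)
      have h1 := card_mult s2 (2 * X) hs2 (by positivity) (P.image (fun w => w.2)) (by
        intro y hy
        obtain ⟨w, hw, rfl⟩ := Finset.mem_image.mp hy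
        obtain ⟨_, h2, _, _, _, h6, _, _, h9, _⟩ := hP w hw
        exact ⟨h2, h6, h9⟩)
      refine h1.trans (le_of_eq ?_)
      ring
  -- (C)
  have hB : (P.card : ℝ) ≤ (4 * (M / s1)) * (C * (2 ^ σ * M ^ σ) * (1 + 8 * X / √M / s2)) := by
    refine (card_fibres P (fun w => w.1) gg
      (C * (2 ^ σ * M ^ σ) * (1 + 8 * X / √M / s2)) ?_ ?_).trans ?_
    · intro a ha b hb' hab hg
      have h1 := hgg a ha
      have h2 := hgg b hb'
      rw [hg] at h1
      refine Prod.ext hab ?_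
      linarith
    · intro x _
      refine (hb s2 x (8 * X / √M) _ hs2 (by positivity) ?_ ?_).trans ?_
      · intro g hg
        obtain ⟨w, hw, rfl⟩ := Finset.mem_image.mp hg
        obtain ⟨hwP, hwy⟩ := Finset.mem_filter.mp hw
        obtain ⟨_, _, h3, _, _, h6, _⟩ := hP w hwP
        refine ⟨gg_coprime (hgg w hwP) h3 (Or.inr h6), ?_⟩
        rw [hgg w hwP, hwy]
        rwa [add_sub_cancel_left]
      · intro g hg g' hg'
        obtain ⟨w, hw, rfl⟩ := Finset.mem_image.mp hg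
        obtain ⟨w', hw', rfl⟩ := Finset.mem_image.mp hg'
        obtain ⟨hwP, hwx⟩ := Finset.mem_filter.mp hw
        obtain ⟨hwP', hwx'⟩ := Finset.mem_filter.mp hw'
        rcases lt_or_ge (M / 4) X with hXM | hXM
        · have h1 := hgle w hwP
          have h2 : (0 : ℝ) ≤ ((gg w' : ℕ) : ℝ) := Nat.cast_nonneg _
          have h3 : 2 * √M ≤ 8 * X / √M := by
            rw [le_div_iff₀ hsq0, mul_assoc, hsq]
            linarith
          linarith
        · obtain ⟨_, _, _, _, _, _, h7, _, h9, _⟩ := hP w hwP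
          obtain ⟨_, _, _, _, _, _, h7', _, h9', _⟩ := hP w' hwP'
          rw [abs_cast_natAbs] at h7 h9 h7' h9'
          have e1 := hggR w hwP
          have e2 := hggR w' hwP'
          have hab : ((gg w : ℕ) : ℝ) ^ 2 - ((gg w' : ℕ) : ℝ) ^ 2 ≤ 4 * X := by
            rw [e1, e2, hwx, hwx']
            have h11 := le_abs_self (w.2 : ℝ)
            have h12 := neg_abs_le (w'.2 : ℝ)
            linarith
          have hpos : M / 2 ≤ ((gg w : ℕ) : ℝ) ^ 2 := by
            rw [e1]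
            have h12 := neg_abs_le (w.2 : ℝ)
            have h13 : 0 ≤ (w.1 : ℝ) + w.2 := by rw [← e1]; positivity
            have h14 := le_abs_self (w.2 : ℝ)
            rcases le_or_gt 0 (w.1 : ℝ) with h15 | h15
            · rw [abs_of_nonneg h15] at h7
              linarith
            · rw [abs_of_neg h15] at h7
              linarith
          have hg1 : √M / 2 ≤ ((gg w : ℕ) : ℝ) := by
            refine le_of_sq_le_sq ?_ (Nat.cast_nonneg _)
            rw [div_pow, Real.sq_sqrt hM0.le]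
            linarith
          have hg2 : (0 : ℝ) ≤ ((gg w' : ℕ) : ℝ) := Nat.cast_nonneg _
          rcases le_or_gt ((gg w : ℕ) : ℝ) ((gg w' : ℕ) : ℝ) with h16 | h16
          · have : (0 : ℝ) ≤ 8 * X / √M := by positivity
            linarith
          · rw [le_div_iff₀ hsq0]
            have h17 : (((gg w : ℕ) : ℝ) - ((gg w' : ℕ) : ℝ)) * (√M / 2) ≤
                (((gg w : ℕ) : ℝ) - ((gg w' : ℕ) : ℝ)) * (((gg w : ℕ) : ℝ) + ((gg w' : ℕ) : ℝ)) :=
              mul_le_mul_of_nonneg_left (by linarith) (by linarith)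
            nlinarith [h17, hab]
      · have := hpow s2 hs2 hs2M
        refine mul_le_mul_of_nonneg_right ?_ (by positivity)
        exact mul_le_mul_of_nonneg_left this hC0.le
    · refine mul_le_mul_of_nonneg_right ?_ (by positivity)
      have h1 := card_mult s1 (2 * M) hs1 (by positivity) (P.image (fun w => w.1)) (by
        intro y hy
        obtain ⟨w, hw, rfl⟩ := Finset.mem_image.mp hy
        obtain ⟨h2, _, _, _, h5, _, _, h8, _⟩ := hP w hw
        exact ⟨h2, h5, h8⟩)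
      refine h1.trans (le_of_eq ?_)
      ring
  have hA' : (P.card : ℝ) ≤ 32 * (C * 2 ^ σ) * M ^ σ * (X * √M / (s1 * s2) + X / s2) := by
    refine hA.trans ?_
    have e : (4 * (X / s2)) * (C * (2 ^ σ * M ^ σ) * (1 + 2 * √M / s1)) =
        (C * 2 ^ σ * M ^ σ) * (4 * (X / s2) + 8 * (X * √M / (s1 * s2))) := by
      field_simp
      ring
    rw [e]
    have h1 : 4 * (X / s2) + 8 * (X * √M / (s1 * s2)) ≤
        32 * (X * √M / (s1 * s2) + X / s2) := by
      have h2 : 0 ≤ X / s2 := by positivity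
      have h3 : 0 ≤ X * √M / (s1 * s2) := by positivity
      linarith
    calc (C * 2 ^ σ * M ^ σ) * (4 * (X / s2) + 8 * (X * √M / (s1 * s2)))
        ≤ (C * 2 ^ σ * M ^ σ) * (32 * (X * √M / (s1 * s2) + X / s2)) :=
          mul_le_mul_of_nonneg_left h1 (by positivity)
      _ = _ := by ring
  have hB' : (P.card : ℝ) ≤ 32 * (C * 2 ^ σ) * M ^ σ * (X * √M / (s1 * s2) + M / s1) := by
    refine hB.trans ?_
    have e : (4 * (M / s1)) * (C * (2 ^ σ * M ^ σ) * (1 + 8 * X / √M / s2)) =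
        (C * 2 ^ σ * M ^ σ) * (4 * (M / s1) + 32 * (X * (M / √M) / (s1 * s2))) := by
      field_simp
      ring
    have e2 : M / √M = √M := by
      rw [div_eq_iff hsq0.ne', hsq]
    rw [e, e2]
    have h1 : 4 * (M / s1) + 32 * (X * √M / (s1 * s2)) ≤
        32 * (X * √M / (s1 * s2) + M / s1) := by
      have h2 : 0 ≤ M / s1 := by positivity
      linarith
    calc (C * 2 ^ σ * M ^ σ) * (4 * (M / s1) + 32 * (X * √M / (s1 * s2)))
        ≤ (C * 2 ^ σ * M ^ σ) * (32 * (X * √M / (s1 * s2) + M / s1)) :=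
          mul_le_mul_of_nonneg_left h1 (by positivity)
      _ = _ := by ring
  rcases le_total (X / s2) (M / s1) with h | h
  · rw [min_eq_left h]; exact hA'
  · rw [min_eq_right h]; exact hB'

end P4

end Pool.Agent.Lib.MP_d8bd92_nt
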