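import Pool.Agent.Lib.MP_d8bd92_nt.P4.Defs
import Pool.Agent.Lib.MP_d8bd92_nt.P4.SieveR
import Pool.Agent.Lib.MP_d8bd92_nt.TwRad

set_option autoImplicit false

/-!
The elementary sieve: squareful parts, dyadic splitting and summation.
-/

namespace Pool.Agent.Lib.MP_d8bd92_nt

namespace P4

open Finset Pool.Agent.Lib.Szpiro

namespace SvS

/-- the primes dividing `n` at least twice -/
def big (n : ℕ) : Finset ℕ := n.primeFactors.filter (fun p => 2 ≤ n.factorization p)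

/-- the squareful part -/
def sqf (n : ℕ) : ℕ := ∏ p ∈ big n, p ^ (n.factorization p)

/-- its radical -/
def rr (n : ℕ) : ℕ := ∏ p ∈ big n, p

theorem sqf_dvd {n : ℕ} (hn : n ≠ 0) : sqf n ∣ n := by
  have h1 : n = ∏ p ∈ n.primeFactors, p ^ (n.factorization p) := by
    conv_lhs => rw [← Nat.prod_factorization_pow_eq_self hn]
    rfl
  conv_rhs => rw [h1]
  exact Finset.prod_dvd_prod_of_subset _ _ _ (Finset.filter_subset _ _)

theorem sqf_pos {n : ℕ} (hn : n ≠ 0) : 1 ≤ sqf n :=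
  Nat.pos_of_ne_zero (fun h => hn (by
    have := sqf_dvd hn
    rw [h] at this
    exact Nat.eq_zero_of_zero_dvd this))

theorem sqf_mul {n : ℕ} (hn : n ≠ 0) : sqf n * rd n = n * rr n := by
  have h1 : n = ∏ p ∈ n.primeFactors, p ^ (n.factorization p) := by
    conv_lhs => rw [← Nat.prod_factorization_pow_eq_self hn]
    rfl
  have h2 := Finset.prod_filter_mul_prod_filter_not n.primeFactors
    (fun p => 2 ≤ n.factorization p) (fun p => p ^ (n.factorization p))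
  have h3 := Finset.prod_filter_mul_prod_filter_not n.primeFactors
    (fun p => 2 ≤ n.factorization p) (fun p => p)
  have h4 : ∏ p ∈ n.primeFactors.filter (fun p => ¬ 2 ≤ n.factorization p),
      p ^ (n.factorization p) =
      ∏ p ∈ n.primeFactors.filter (fun p => ¬ 2 ≤ n.factorization p), p := by
    refine Finset.prod_congr rfl ?_
    intro p hp
    obtain ⟨h5, h6⟩ := Finset.mem_filter.mp hp
    have h7 : n.factorization p ≠ 0 := by
      rw [← Finsupp.mem_support_iff, Nat.support_factorization]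
      exact h5
    have h8 : n.factorization p = 1 := by omega
    rw [h8, pow_one]
  rw [h4] at h2
  rw [← h1] at h2
  have h5 : rd n = rr n * ∏ p ∈ n.primeFactors.filter (fun p => ¬ 2 ≤ n.factorization p), p := by
    unfold rd rr big
    exact h3.symm
  have h6 : n = sqf n * ∏ p ∈ n.primeFactors.filter (fun p => ¬ 2 ≤ n.factorization p), p := by
    unfold sqf big
    exact h2.symm
  calc sqf n * rd n = (sqf n *
        ∏ p ∈ n.primeFactors.filter (fun p => ¬ 2 ≤ n.factorization p), p) * rr n := by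
        rw [h5]; ring
    _ = n * rr n := by rw [← h6]

theorem rr_sq (n : ℕ) : rr n ^ 2 ≤ sqf n := by
  unfold rr sqf
  rw [← Finset.prod_pow]
  refine Finset.prod_le_prod' ?_
  intro p hp
  obtain ⟨h1, h2⟩ := Finset.mem_filter.mp hp
  exact Nat.pow_le_pow_right (Nat.prime_of_mem_primeFactors h1).pos h2

theorem rd_sqf_le (n : ℕ) : rd (sqf n) ≤ rr n := by
  unfold rd rr
  refine Finset.prod_le_prod_of_subset_of_one_le' ?_ ?_
  · intro p hp
    have hpp := Nat.prime_of_mem_primeFactors hp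
    have h1 := Nat.dvd_of_mem_primeFactors hp
    unfold sqf at h1
    obtain ⟨q, hq, hpq⟩ := (hpp.prime.dvd_finsetProd_iff _).mp h1
    have hqp := Nat.prime_of_mem_primeFactors (Finset.mem_filter.mp hq).1
    have h2 := hpp.dvd_of_dvd_pow hpq
    rw [(Nat.prime_dvd_prime_iff_eq hpp hqp).mp h2]
    exact hq
  · intro p hp _
    exact (Nat.prime_of_mem_primeFactors (Finset.mem_filter.mp hp).1).pos

theorem rd_pos' (n : ℕ) : 1 ≤ rd n := by
  unfold rd
  exact Nat.pos_of_ne_zero (Finset.prod_ne_zero_iff.mpr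
    (fun p hp => (Nat.prime_of_mem_primeFactors hp).ne_zero))

/-- the number of dyadic intervals -/
theorem log_count (σ : ℝ) (hσ : 0 < σ) : ∃ C : ℝ, 1 ≤ C ∧ ∀ (M : ℝ), 1 ≤ M →
    ((Nat.log 2 ⌊2 * M⌋₊ + 1 : ℕ) : ℝ) ≤ C * M ^ σ := by
  have hl2 : 0 < Real.log 2 := Real.log_pos (by norm_num)
  refine ⟨2 + (σ * Real.log 2)⁻¹, ?_, ?_⟩
  · have : 0 < (σ * Real.log 2)⁻¹ := by positivity
    linarith
  intro M hM
  have hM0 : 0 < M := by linarith
  have h1 : ((Nat.log 2 ⌊2 * M⌋₊ : ℕ) : ℝ) ≤ Real.logb 2 (2 * M) := by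
    have h2 : ((Nat.log 2 ⌊2 * M⌋₊ : ℕ) : ℝ) ≤ Real.logb 2 (⌊2 * M⌋₊ : ℝ) := by
      rw [Real.le_logb_iff_rpow_le (by norm_num) ?_]
      · rw [Real.rpow_natCast]
        have h3 : 2 ^ Nat.log 2 ⌊2 * M⌋₊ ≤ ⌊2 * M⌋₊ := by
          refine Nat.pow_log_le_self 2 ?_
          have : 1 ≤ ⌊2 * M⌋₊ := Nat.le_floor (by push_cast; linarith)
          omega
        exact_mod_cast h3
      · have : 1 ≤ ⌊2 * M⌋₊ := Nat.le_floor (by push_cast; linarith)
        exact_mod_cast this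
    refine h2.trans ?_
    refine Real.logb_le_logb_of_le (by norm_num) ?_ (Nat.floor_le (by positivity))
    have : 1 ≤ ⌊2 * M⌋₊ := Nat.le_floor (by push_cast; linarith)
    exact_mod_cast this
  have h2 : Real.logb 2 (2 * M) = 1 + Real.log M / Real.log 2 := by
    unfold Real.logb
    rw [Real.log_mul (by norm_num) hM0.ne']
    field_simp
  have h3 : Real.log M ≤ M ^ σ / σ := Real.log_le_rpow_div hM0.le hσ
  have h4 : 1 ≤ M ^ σ := Real.one_le_rpow hM hσ.le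
  have h5 : Real.log M / Real.log 2 ≤ (σ * Real.log 2)⁻¹ * M ^ σ := by
    rw [div_le_iff₀ hl2]
    calc Real.log M ≤ M ^ σ / σ := h3
      _ = (σ * Real.log 2)⁻¹ * M ^ σ * Real.log 2 := by field_simp
  push_cast
  rw [h2] at h1
  nlinarith [h1, h4, h5]

/-- the sieve for `|y| ≤ |x|` -/
theorem half (σ : ℝ) (hσ : 0 < σ) : ∃ C : ℝ, 1 ≤ C ∧ ∀ M V : ℝ, 1 ≤ M → 1 ≤ V →
    ∀ P : Finset (ℤ × ℤ),
    (∀ w ∈ P, w.1 ≠ 0 ∧ w.2 ≠ 0 ∧ IsCoprime w.1 w.2 ∧ (∃ g : ℤ, w.1 + w.2 = g ^ 2) ∧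
      (rd w.1.natAbs : ℝ) * rd w.2.natAbs ≤ V ∧
      M ≤ (w.1.natAbs : ℝ) ∧ (w.1.natAbs : ℝ) < 2 * M ∧ w.2.natAbs ≤ w.1.natAbs) →
    (P.card : ℝ) ≤ C * M ^ σ * (V * M ^ (-(1 / 2) : ℝ) + M) := by
  classical
  obtain ⟨C1, hC1, h1⟩ := fibre_count (σ / 4) (by positivity)
  obtain ⟨C2, hC2, h2⟩ := sum_inv_rd (σ / 4) (by positivity)
  obtain ⟨C3, hC3, h3⟩ := log_count (σ / 4) (by positivity)
  have h2σ : (1 : ℝ) ≤ 2 ^ (σ / 4) := Real.one_le_rpow (by norm_num) (by positivity)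
  set E : ℝ := (2 * C1) * C3 * (C2 * 2 ^ (σ / 4)) ^ 2 with hE
  have hE1 : 1 ≤ E := by
    have e1 : 1 ≤ C2 * 2 ^ (σ / 4) := one_le_mul_of_one_le_of_one_le hC2 h2σ
    have e2 : 1 ≤ (C2 * 2 ^ (σ / 4)) ^ 2 := one_le_pow₀ e1
    have e3 : 1 ≤ 2 * C1 := by linarith
    exact one_le_mul_of_one_le_of_one_le (one_le_mul_of_one_le_of_one_le e3 hC3) e2
  refine ⟨E, hE1, ?_⟩
  intro M V hM hV P hP
  have hM0 : 0 < M := by linarith
  have hV0 : 0 < V := by linarith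
  set N : ℕ := ⌊2 * M⌋₊ with hN
  have hN1 : 1 ≤ N := Nat.le_floor (by push_cast; linarith)
  have hNM : (N : ℝ) ≤ 2 * M := Nat.floor_le (by positivity)
  set B : ℝ := V * M ^ (-(1 / 2) : ℝ) + M with hB
  have hMh : 0 < M ^ (-(1 / 2) : ℝ) := Real.rpow_pos_of_pos hM0 _
  have hB0 : 0 < B := by positivity
  have hsq0 : 0 < √M := Real.sqrt_pos.mpr hM0
  have hsq : √M * √M = M := Real.mul_self_sqrt hM0.le
  have hMh' : M ^ (-(1 / 2) : ℝ) = (√M)⁻¹ := by
    rw [Real.rpow_neg hM0.le, Real.sqrt_eq_rpow]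
  set key : ℤ × ℤ → ℕ × ℕ × ℕ := fun w =>
    (sqf w.1.natAbs, sqf w.2.natAbs, Nat.log 2 w.2.natAbs) with hkey
  set K : Finset (ℕ × ℕ × ℕ) := (Icc 1 N) ×ˢ (Icc 1 N) ×ˢ (range (Nat.log 2 N + 1)) with hK
  have hxN : ∀ w ∈ P, w.1.natAbs ≤ N := by
    intro w hw
    exact Nat.le_floor (hP w hw).2.2.2.2.2.2.1.le
  have hmem : ∀ w ∈ P, key w ∈ K := by
    intro w hw
    obtain ⟨hx0, hy0, _, _, _, _, _, hyx⟩ := hP w hw
    have hx : w.1.natAbs ≠ 0 := Int.natAbs_ne_zero.mpr hx0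
    have hy : w.2.natAbs ≠ 0 := Int.natAbs_ne_zero.mpr hy0
    have e1 := hxN w hw
    have e2 := Nat.le_of_dvd (Nat.pos_of_ne_zero hx) (sqf_dvd hx)
    have e3 := Nat.le_of_dvd (Nat.pos_of_ne_zero hy) (sqf_dvd hy)
    rw [hK, hkey]
    simp only [Finset.mem_product, Finset.mem_Icc, Finset.mem_range]
    refine ⟨⟨sqf_pos hx, by omega⟩, ⟨sqf_pos hy, by omega⟩, ?_⟩
    have e4 : Nat.log 2 w.2.natAbs ≤ Nat.log 2 N := Nat.log_mono_right (by omega)
    omega
  have hsum : (P.card : ℝ) = ∑ k ∈ K, ((P.filter (fun w => key w = k)).card : ℝ) := by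
    rw [Finset.card_eq_sum_card_fiberwise (f := key) (t := K) hmem]
    push_cast
    rfl
  have hfib : ∀ k ∈ K, ((P.filter (fun w => key w = k)).card : ℝ) ≤
      (2 * C1 * M ^ (σ / 4) * B) * (((rd k.1 : ℝ))⁻¹ * ((rd k.2.1 : ℝ))⁻¹) := by
    intro k hk
    rcases (P.filter (fun w => key w = k)).eq_empty_or_nonempty with h0 | ⟨w0, hw0⟩
    · rw [h0]
      simp only [Finset.card_empty, Nat.cast_zero]
      positivity
    obtain ⟨s1, s2, i⟩ := k
    simp only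
    obtain ⟨hw0P, hw0k⟩ := Finset.mem_filter.mp hw0
    obtain ⟨hx0, hy0, _, _, hrd, hMx, hx2M, hyx⟩ := hP w0 hw0P
    have hx : w0.1.natAbs ≠ 0 := Int.natAbs_ne_zero.mpr hx0
    have hy : w0.2.natAbs ≠ 0 := Int.natAbs_ne_zero.mpr hy0
    rw [hkey] at hw0k
    simp only [Prod.mk.injEq] at hw0k
    obtain ⟨es1, es2, ei⟩ := hw0k
    set X : ℝ := (2 : ℝ) ^ i with hX
    have hX0 : 0 < X := by positivity
    have hs1 : 1 ≤ s1 := by rw [← es1]; exact sqf_pos hx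
    have hs2 : 1 ≤ s2 := by rw [← es2]; exact sqf_pos hy
    have hs10 : (0 : ℝ) < s1 := by exact_mod_cast hs1
    have hs20 : (0 : ℝ) < s2 := by exact_mod_cast hs2
    -- the fibre
    have hf := h1 M X s1 s2 (P.filter (fun w => key w = (s1, s2, i))) hM hX0 hs1 hs2 (by
      intro w hw
      obtain ⟨hwP, hwk⟩ := Finset.mem_filter.mp hw
      obtain ⟨g1, g2, g3, g4, _, g6, g7, g8⟩ := hP w hwP
      rw [hkey] at hwk
      simp only [Prod.mk.injEq] at hwk
      obtain ⟨f1, f2, f3⟩ := hwk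
      refine ⟨g1, g2, g3, g4, ?_, ?_, g6, g7, ?_, by exact_mod_cast g8⟩
      · rw [← f1]
        exact Int.natCast_dvd.mpr (sqf_dvd (Int.natAbs_ne_zero.mpr g1))
      · rw [← f2]
        exact Int.natCast_dvd.mpr (sqf_dvd (Int.natAbs_ne_zero.mpr g2))
      · have f4 : w.2.natAbs < 2 ^ (i + 1) := by
          rw [← f3]
          exact Nat.lt_pow_succ_log_self (by norm_num) _
        have f5 : (w.2.natAbs : ℝ) < 2 ^ (i + 1) := by exact_mod_cast f4
        rw [hX]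
        calc (w.2.natAbs : ℝ) < 2 ^ (i + 1) := f5
          _ = 2 * 2 ^ i := by ring)
    refine hf.trans ?_
    -- sizes at w0
    have hXy : X ≤ (w0.2.natAbs : ℝ) := by
      have f4 : 2 ^ i ≤ w0.2.natAbs := by
        rw [← ei]
        exact Nat.pow_log_le_self 2 hy
      rw [hX]
      exact_mod_cast f4
    have hX2M : X ≤ 2 * M := by
      have : (w0.2.natAbs : ℝ) ≤ w0.1.natAbs := by exact_mod_cast hyx
      linarith
    have hr1 : (rd s1 : ℝ) ≤ rr w0.1.natAbs := by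
      rw [← es1]; exact_mod_cast rd_sqf_le _
    have hr2 : (rd s2 : ℝ) ≤ rr w0.2.natAbs := by
      rw [← es2]; exact_mod_cast rd_sqf_le _
    have hr10 : (1 : ℝ) ≤ rd s1 := by exact_mod_cast rd_pos' s1
    have hr20 : (1 : ℝ) ≤ rd s2 := by exact_mod_cast rd_pos' s2
    have hq1 : (rr w0.1.natAbs : ℝ) ^ 2 ≤ s1 := by
      rw [← es1]; exact_mod_cast rr_sq _
    have hq2 : (rr w0.2.natAbs : ℝ) ^ 2 ≤ s2 := by
      rw [← es2]; exact_mod_cast rr_sq _
    have hm1 : (s1 : ℝ) * rd w0.1.natAbs = w0.1.natAbs * rr w0.1.natAbs := by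
      rw [← es1]; exact_mod_cast sqf_mul hx
    have hm2 : (s2 : ℝ) * rd w0.2.natAbs = w0.2.natAbs * rr w0.2.natAbs := by
      rw [← es2]; exact_mod_cast sqf_mul hy
    have hstar : M * X * (rd s1 * rd s2) ≤ s1 * s2 * V := by
      calc M * X * (rd s1 * rd s2)
          ≤ ((w0.1.natAbs : ℝ) * w0.2.natAbs) * ((rr w0.1.natAbs : ℝ) * rr w0.2.natAbs) := by
            refine mul_le_mul (mul_le_mul hMx hXy hX0.le (by positivity))
              (mul_le_mul hr1 hr2 (by positivity) (by positivity)) (by positivity) (by positivity)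
        _ = ((s1 : ℝ) * rd w0.1.natAbs) * (s2 * rd w0.2.natAbs) := by rw [hm1, hm2]; ring
        _ = (s1 * s2 : ℝ) * ((rd w0.1.natAbs : ℝ) * rd w0.2.natAbs) := by ring
        _ ≤ s1 * s2 * V := mul_le_mul_of_nonneg_left hrd (by positivity)
    have hR0 : (0 : ℝ) < rd s1 * rd s2 := by positivity
    have t1 : X * √M / (s1 * s2) ≤ V * M ^ (-(1 / 2) : ℝ) * (((rd s1 : ℝ))⁻¹ * ((rd s2 : ℝ))⁻¹) := by
      rw [hMh', ← mul_inv, div_le_iff₀ (by positivity)]
      have e : V * (√M)⁻¹ * ((rd s1 : ℝ) * rd s2)⁻¹ * (s1 * s2) =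
          (s1 * s2 * V) / (√M * (rd s1 * rd s2)) := by
        field_simp
      rw [e, le_div_iff₀ (by positivity)]
      calc X * √M * (√M * (rd s1 * rd s2)) = (√M * √M) * X * (rd s1 * rd s2) := by ring
        _ = M * X * (rd s1 * rd s2) := by rw [hsq]
        _ ≤ _ := hstar
    have t2 : min (X / s2) (M / s1) ≤ 2 * (M * (((rd s1 : ℝ))⁻¹ * ((rd s2 : ℝ))⁻¹)) := by
      have hmin0 : 0 ≤ min (X / s2) (M / s1) := le_min (by positivity) (by positivity)
      have e1 : (min (X / s2) (M / s1)) ^ 2 ≤ (X / s2) * (M / s1) := by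
        rw [pow_two]
        exact mul_le_mul (min_le_left _ _) (min_le_right _ _) hmin0 (by positivity)
      refine le_of_sq_le_sq (e1.trans ?_) (by positivity)
      rw [← mul_inv]
      have e2 : (2 * (M * ((rd s1 : ℝ) * rd s2)⁻¹)) ^ 2 =
          4 * M ^ 2 / ((rd s1 : ℝ) ^ 2 * (rd s2 : ℝ) ^ 2) := by
        field_simp
        ring
      have e3 : (X / s2) * (M / s1) = (X * M) / (s1 * s2) := by
        field_simp
      rw [e2, e3, div_le_div_iff₀ (by positivity) (by positivity)]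
      have e4 : (rd s1 : ℝ) ^ 2 * (rd s2 : ℝ) ^ 2 ≤ s1 * s2 := by
        refine mul_le_mul ?_ ?_ (by positivity) (by positivity)
        · exact (pow_le_pow_left₀ (by positivity) hr1 2).trans hq1
        · exact (pow_le_pow_left₀ (by positivity) hr2 2).trans hq2
      calc X * M * ((rd s1 : ℝ) ^ 2 * (rd s2 : ℝ) ^ 2) ≤ (2 * M * M) * (s1 * s2) := by
            refine mul_le_mul (mul_le_mul_of_nonneg_right hX2M hM0.le) e4 (by positivity)
              (by positivity)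
        _ ≤ 4 * M ^ 2 * (s1 * s2) := by
            refine mul_le_mul_of_nonneg_right ?_ (by positivity)
            nlinarith [hM0]
    have hMσ : 0 < M ^ (σ / 4) := Real.rpow_pos_of_pos hM0 _
    calc C1 * M ^ (σ / 4) * (X * √M / (s1 * s2) + min (X / s2) (M / s1))
        ≤ C1 * M ^ (σ / 4) * (2 * (B * (((rd s1 : ℝ))⁻¹ * ((rd s2 : ℝ))⁻¹))) := by
          refine mul_le_mul_of_nonneg_left ?_ (by positivity)
          have e5 : 0 ≤ V * M ^ (-(1 / 2) : ℝ) * (((rd s1 : ℝ))⁻¹ * ((rd s2 : ℝ))⁻¹) := by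
            positivity
          rw [hB]
          linarith
      _ = _ := by ring
  rw [hsum]
  have hMσ : 0 < M ^ (σ / 4) := Real.rpow_pos_of_pos hM0 _
  have hG0 : 0 ≤ 2 * C1 * M ^ (σ / 4) * B := by positivity
  have hS : ∑ a ∈ Icc 1 N, ((rd a : ℝ))⁻¹ ≤ (C2 * 2 ^ (σ / 4)) * M ^ (σ / 4) := by
    refine (h2 N hN1).trans ?_
    rw [mul_assoc, ← Real.mul_rpow (by norm_num) hM0.le]
    refine mul_le_mul_of_nonneg_left ?_ (by linarith)
    exact Real.rpow_le_rpow (by positivity) hNM (by positivity)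
  have hS0 : 0 ≤ ∑ a ∈ Icc 1 N, ((rd a : ℝ))⁻¹ := Finset.sum_nonneg (fun a _ => by positivity)
  calc ∑ k ∈ K, ((P.filter (fun w => key w = k)).card : ℝ)
      ≤ ∑ k ∈ K, (2 * C1 * M ^ (σ / 4) * B) * (((rd k.1 : ℝ))⁻¹ * ((rd k.2.1 : ℝ))⁻¹) :=
        Finset.sum_le_sum hfib
    _ = (2 * C1 * M ^ (σ / 4) * B) * ((∑ a ∈ Icc 1 N, ((rd a : ℝ))⁻¹) *
        ((∑ a ∈ Icc 1 N, ((rd a : ℝ))⁻¹) * ((Nat.log 2 N + 1 : ℕ) : ℝ))) := by
        rw [← Finset.mul_sum, hK, Finset.sum_product]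
        congr 1
        rw [Finset.sum_mul]
        refine Finset.sum_congr rfl ?_
        intro a _
        rw [Finset.sum_product, Finset.sum_mul, Finset.mul_sum]
        refine Finset.sum_congr rfl ?_
        intro b _
        simp only [Finset.sum_const, Finset.card_range, nsmul_eq_mul]
        ring
    _ ≤ (2 * C1 * M ^ (σ / 4) * B) * (((C2 * 2 ^ (σ / 4)) * M ^ (σ / 4)) *
        (((C2 * 2 ^ (σ / 4)) * M ^ (σ / 4)) * (C3 * M ^ (σ / 4)))) := by
        refine mul_le_mul_of_nonneg_left ?_ hG0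
        refine mul_le_mul hS ?_ (by positivity) (by positivity)
        exact mul_le_mul hS (h3 M hM) (by positivity) (by positivity)
    _ = E * ((M ^ (σ / 4)) ^ 4) * B := by rw [hE]; ring
    _ = E * M ^ σ * B := by
        congr 2
        rw [← Real.rpow_natCast, ← Real.rpow_mul hM0.le]
        congr 1
        push_cast
        ring

end SvS

open SvS in
theorem sieve (σ : ℝ) (hσ : 0 < σ) : ∃ C : ℝ, 0 < C ∧ ∀ M V : ℝ, 1 ≤ M → 1 ≤ V → ∀ P : Finset (ℤ × ℤ),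
    (∀ w ∈ P, w.1 ≠ 0 ∧ w.2 ≠ 0 ∧ IsCoprime w.1 w.2 ∧ (∃ g : ℤ, w.1 + w.2 = g ^ 2) ∧
      (rd w.1.natAbs : ℝ) * rd w.2.natAbs ≤ V ∧
      M ≤ max (w.1.natAbs : ℝ) (w.2.natAbs : ℝ) ∧ max (w.1.natAbs : ℝ) (w.2.natAbs : ℝ) < 2 * M) →
    (P.card : ℝ) ≤ C * M ^ σ * (V * M ^ (-(1 / 2) : ℝ) + M) := by
  classical
  obtain ⟨C, hC, hb⟩ := half σ hσ
  refine ⟨2 * C, by linarith, ?_⟩
  intro M V hM hV P hP
  set P1 := P.filter (fun w => w.2.natAbs ≤ w.1.natAbs) with hP1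
  set P2 := P.filter (fun w => ¬ w.2.natAbs ≤ w.1.natAbs) with hP2
  have hcard : P.card = P1.card + P2.card :=
    (Finset.card_filter_add_card_filter_not (s := P) (fun w => w.2.natAbs ≤ w.1.natAbs)).symm
  have e1 := hb M V hM hV P1 (by
    intro w hw
    obtain ⟨hwP, hle⟩ := Finset.mem_filter.mp hw
    obtain ⟨g1, g2, g3, g4, g5, g6, g7⟩ := hP w hwP
    have hle' : (w.2.natAbs : ℝ) ≤ w.1.natAbs := by exact_mod_cast hle
    rw [max_eq_left hle'] at g6 g7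
    exact ⟨g1, g2, g3, g4, g5, g6, g7, hle⟩)
  have e2 := hb M V hM hV (P2.image Prod.swap) (by
    intro w hw
    obtain ⟨v, hv, rfl⟩ := Finset.mem_image.mp hw
    obtain ⟨hvP, hle⟩ := Finset.mem_filter.mp hv
    obtain ⟨g1, g2, g3, g4, g5, g6, g7⟩ := hP v hvP
    have hle2 : v.1.natAbs ≤ v.2.natAbs := by omega
    have hle' : (v.1.natAbs : ℝ) ≤ v.2.natAbs := by exact_mod_cast hle2
    rw [max_eq_right hle'] at g6 g7
    refine ⟨g2, g1, g3.symm, ?_, ?_, g6, g7, hle2⟩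
    · simp only [Prod.fst_swap, Prod.snd_swap]
      rwa [add_comm]
    · simp only [Prod.fst_swap, Prod.snd_swap]
      rwa [mul_comm])
  rw [Finset.card_image_of_injective _ Prod.swap_injective] at e2
  have e3 : (P.card : ℝ) = P1.card + P2.card := by exact_mod_cast hcard
  rw [e3]
  calc (P1.card : ℝ) + P2.card ≤ C * M ^ σ * (V * M ^ (-(1 / 2) : ℝ) + M) +
        C * M ^ σ * (V * M ^ (-(1 / 2) : ℝ) + M) := add_le_add e1 e2
    _ = 2 * C * M ^ σ * (V * M ^ (-(1 / 2) : ℝ) + M) := by ring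

end P4

end Pool.Agent.Lib.MP_d8bd92_nt
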