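import Pool.Agent.Lib.MP_d8bd92_nt.P4.Defs
import Pool.Agent.Lib.MP_d8bd92_nt.Iso.Sub3

set_option autoImplicit false

/-!
Semistable curves with a rational subgroup of order three and bounded height.

With `u = a³`: in the first case `c₄³ = u (u - 24 b)³` and `c₄³ - c₆² = 1728 b³ (u - 27 b)`, in the second case
`c₄³ = u (u + 216 b)³` and `c₄³ - c₆² = 1728 b (u - 27 b)³`. So `b ^ 4 ≤ H` and then `a ^ 12 ≤ 8 ^ 12 H`.
-/

namespace Pool.Agent.Lib.MP_d8bd92_nt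

namespace P4

open Finset Pool.Agent.Lib.Szpiro WeierstrassCurve

/-- semistable curves with a rational subgroup of order three and `max |c₄|³ |c₆|² ≤ H` -/
def threeSubHt (H : ℝ) : Set (ℤ × ℤ) :=
  {c | ∃ W : WeierstrassCurve ℤ, W.c₄ = c.1 ∧ W.c₆ = c.2 ∧ W.Δ ≠ 0 ∧ IsCoprime W.c₄ W.Δ ∧
    RatSub 3 W ∧ ((Ht W : ℕ) : ℝ) ≤ H}

/-- bound for `b`, abstract form: `x` stands for `u / b` -/
theorem threeSub_b {H u v b : ℝ} {k : ℝ}
    (hv : v = u - 27 * b)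
    (h1 : |u| * |v + k * b| ^ 3 ≤ H)
    (h2 : |b| ^ 3 * |v| ≤ H ∨ |b| * |v| ^ 3 ≤ H) (hk1 : 3 ≤ |k|) : b ^ 4 ≤ H := by
  have hb4 : b ^ 4 = |b| ^ 4 := by rw [← abs_pow, abs_of_nonneg (by positivity)]
  rw [hb4]
  rcases le_or_gt |b| |v| with h | h
  · have hb0 := abs_nonneg b
    rcases h2 with h2 | h2
    · refine le_trans ?_ h2
      have := mul_le_mul_of_nonneg_left h (pow_nonneg hb0 3)
      calc |b| ^ 4 = |b| ^ 3 * |b| := by ring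
        _ ≤ _ := this
    · refine le_trans ?_ h2
      have := mul_le_mul_of_nonneg_left (pow_le_pow_left₀ hb0 h 3) hb0
      calc |b| ^ 4 = |b| * |b| ^ 3 := by ring
        _ ≤ _ := this
  · have hb0 := abs_nonneg b
    have hu : |b| ≤ |u| := by
      have e1 : |27 * b| - |v| ≤ |27 * b + v| := by
        have := abs_sub_abs_le_abs_sub (27 * b) (-v)
        rwa [abs_neg, sub_neg_eq_add] at this
      have e2 : |27 * b| = 27 * |b| := by rw [abs_mul]; norm_num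
      have e3 : 27 * b + v = u := by rw [hv]; ring
      rw [e3, e2] at e1
      linarith
    have hw : |b| ≤ |v + k * b| := by
      have e1 : |k * b| - |v| ≤ |k * b + v| := by
        have := abs_sub_abs_le_abs_sub (k * b) (-v)
        rwa [abs_neg, sub_neg_eq_add] at this
      have e2 : |k * b| = |k| * |b| := abs_mul _ _
      have e3 : 3 * |b| ≤ |k| * |b| := mul_le_mul_of_nonneg_right hk1 hb0
      rw [e2, add_comm] at e1
      linarith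
    refine le_trans ?_ h1
    calc |b| ^ 4 = |b| * |b| ^ 3 := by ring
      _ ≤ |u| * |v + k * b| ^ 3 := mul_le_mul hu (pow_le_pow_left₀ hb0 hw 3) (by positivity)
        (by positivity)

/-- bound for `u = a³` -/
theorem threeSub_u {H u b : ℝ} {k : ℝ} (hH : 0 ≤ H) (hk : |k| ≤ 216) (hb : b ^ 4 ≤ H)
    (h1 : |u| * |u + k * b| ^ 3 ≤ H) : u ^ 4 ≤ 8 ^ 12 * H := by
  have hu4 : u ^ 4 = |u| ^ 4 := by rw [← abs_pow, abs_of_nonneg (by positivity)]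
  have hb4 : b ^ 4 = |b| ^ 4 := by rw [← abs_pow, abs_of_nonneg (by positivity)]
  rw [hu4]
  rw [hb4] at hb
  rcases le_or_gt |u| (512 * |b|) with h | h
  · calc |u| ^ 4 ≤ (512 * |b|) ^ 4 := pow_le_pow_left₀ (abs_nonneg u) h 4
      _ = 8 ^ 12 * |b| ^ 4 := by ring
      _ ≤ 8 ^ 12 * H := by gcongr
  · have hb0 := abs_nonneg b
    have e1 : |u| - |k * b| ≤ |u + k * b| := by
      have := abs_sub_abs_le_abs_sub u (-(k * b))
      rwa [abs_neg, sub_neg_eq_add] at this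
    have e2 : |k * b| ≤ 216 * |b| := by
      rw [abs_mul]
      exact mul_le_mul_of_nonneg_right hk hb0
    have e3 : |u| / 2 ≤ |u + k * b| := by linarith
    have e4 : |u| * (|u| / 2) ^ 3 ≤ H := by
      refine le_trans ?_ h1
      exact mul_le_mul_of_nonneg_left (pow_le_pow_left₀ (by positivity) e3 3) (abs_nonneg u)
    have e5 : |u| ^ 4 = 8 * (|u| * (|u| / 2) ^ 3) := by ring
    rw [e5]
    nlinarith

/-- the size of the parameters -/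
theorem threeSub_size {H : ℝ} (hH : 1 ≤ H) (W : WeierstrassCurve ℤ)
    (hW : ((Ht W : ℕ) : ℝ) ≤ H) (a b : ℤ)
    (h : (W.c₄ = a * (a ^ 3 - 24 * b) ∧ W.c₆ = -a ^ 6 + 36 * a ^ 3 * b - 216 * b ^ 2 ∧
        W.Δ = b ^ 3 * (a ^ 3 - 27 * b)) ∨
      (W.c₄ = a * (a ^ 3 + 216 * b) ∧ W.c₆ = -a ^ 6 + 540 * a ^ 3 * b + 5832 * b ^ 2 ∧
        W.Δ = b * (a ^ 3 - 27 * b) ^ 3)) :
    (b : ℝ) ^ 4 ≤ H ∧ (a : ℝ) ^ 12 ≤ 8 ^ 12 * H := by
  have hc4 : |(W.c₄ : ℝ)| ^ 3 ≤ H := by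
    refine le_trans ?_ hW
    have : W.c₄.natAbs ^ 3 ≤ Ht W := le_max_left _ _
    have h2 : ((W.c₄.natAbs ^ 3 : ℕ) : ℝ) ≤ (Ht W : ℕ) := by exact_mod_cast this
    rw [Nat.cast_pow, Nat.cast_natAbs, Int.cast_abs] at h2
    exact h2
  have hc6 : |(W.c₆ : ℝ)| ^ 2 ≤ H := by
    refine le_trans ?_ hW
    have : W.c₆.natAbs ^ 2 ≤ Ht W := le_max_right _ _
    have h2 : ((W.c₆.natAbs ^ 2 : ℕ) : ℝ) ≤ (Ht W : ℕ) := by exact_mod_cast this
    rw [Nat.cast_pow, Nat.cast_natAbs, Int.cast_abs] at h2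
    exact h2
  have hD : |(W.Δ : ℝ)| ≤ H := by
    have e : 1728 * W.Δ = W.c₄ ^ 3 - W.c₆ ^ 2 := W.c_relation
    have e' : 1728 * (W.Δ : ℝ) = (W.c₄ : ℝ) ^ 3 - (W.c₆ : ℝ) ^ 2 := by exact_mod_cast e
    have e2 : |1728 * (W.Δ : ℝ)| ≤ |(W.c₄ : ℝ)| ^ 3 + |(W.c₆ : ℝ)| ^ 2 := by
      rw [e', ← abs_pow, ← abs_pow]
      exact abs_sub _ _
    rw [abs_mul] at e2
    norm_num at e2
    have := abs_nonneg (W.Δ : ℝ)
    rw [sq_abs] at hc6
    nlinarith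
  have hH0 : (0 : ℝ) ≤ H := by linarith
  rcases h with ⟨e4, e6, eD⟩ | ⟨e4, e6, eD⟩
  · have f4 : (W.c₄ : ℝ) = a * ((a : ℝ) ^ 3 - 24 * b) := by rw [e4]; push_cast; ring
    have fD : (W.Δ : ℝ) = (b : ℝ) ^ 3 * ((a : ℝ) ^ 3 - 27 * b) := by rw [eD]; push_cast; ring
    have g1 : |(a : ℝ) ^ 3| * |(a : ℝ) ^ 3 + (-24) * b| ^ 3 ≤ H := by
      rw [f4, ← abs_pow] at hc4
      rw [← abs_pow, ← abs_mul]
      refine le_of_eq_of_le ?_ hc4
      congr 1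
      ring
    have g2 : |(b : ℝ)| ^ 3 * |(a : ℝ) ^ 3 - 27 * b| ≤ H := by
      rw [← abs_pow, ← abs_mul, ← fD]
      exact hD
    have g3 : |(a : ℝ) ^ 3| * |((a : ℝ) ^ 3 - 27 * b) + 3 * b| ^ 3 ≤ H := by
      convert g1 using 3
      congr 1
      ring
    have hb := threeSub_b (u := (a : ℝ) ^ 3) (v := (a : ℝ) ^ 3 - 27 * b) (b := (b : ℝ)) (k := 3)
      rfl g3 (Or.inl g2) (by norm_num)
    refine ⟨hb, ?_⟩
    have hu := threeSub_u (u := (a : ℝ) ^ 3) (k := -24) hH0 (by norm_num) hb g1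
    calc (a : ℝ) ^ 12 = ((a : ℝ) ^ 3) ^ 4 := by ring
      _ ≤ _ := hu
  · have f4 : (W.c₄ : ℝ) = a * ((a : ℝ) ^ 3 + 216 * b) := by rw [e4]; push_cast; ring
    have fD : (W.Δ : ℝ) = (b : ℝ) * ((a : ℝ) ^ 3 - 27 * b) ^ 3 := by rw [eD]; push_cast; ring
    have g1 : |(a : ℝ) ^ 3| * |(a : ℝ) ^ 3 + 216 * b| ^ 3 ≤ H := by
      rw [f4, ← abs_pow] at hc4
      rw [← abs_pow, ← abs_mul]
      refine le_of_eq_of_le ?_ hc4
      congr 1
      ring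
    have g2 : |(b : ℝ)| * |(a : ℝ) ^ 3 - 27 * b| ^ 3 ≤ H := by
      rw [← abs_pow, ← abs_mul, ← fD]
      exact hD
    have g3 : |(a : ℝ) ^ 3| * |((a : ℝ) ^ 3 - 27 * b) + 243 * b| ^ 3 ≤ H := by
      convert g1 using 3
      congr 1
      ring
    have hb := threeSub_b (u := (a : ℝ) ^ 3) (v := (a : ℝ) ^ 3 - 27 * b) (b := (b : ℝ)) (k := 243)
      rfl g3 (Or.inr g2) (by norm_num)
    refine ⟨hb, ?_⟩
    have hu := threeSub_u (u := (a : ℝ) ^ 3) (k := 216) hH0 (by norm_num) hb g1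
    calc (a : ℝ) ^ 12 = ((a : ℝ) ^ 3) ^ 4 := by ring
      _ ≤ _ := hu

/-- from `x ^ n ≤ K ^ n H` to a box -/
theorem threeSub_box {H K : ℝ} (hH : 1 ≤ H) (hK : 1 ≤ K) (n : ℕ) (hn : n ≠ 0) (x : ℤ)
    (hx : |(x : ℝ)| ^ n ≤ K ^ n * H) :
    x ∈ Finset.Icc (-((⌊K * H ^ (1 / n : ℝ)⌋₊ : ℕ) : ℤ)) ((⌊K * H ^ (1 / n : ℝ)⌋₊ : ℕ) : ℤ) := by
  have hH0 : (0 : ℝ) ≤ H := by linarith
  have h1 : |(x : ℝ)| ≤ K * H ^ (1 / n : ℝ) := by
    have h2 : (K * H ^ (1 / n : ℝ)) ^ n = K ^ n * H := by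
      rw [mul_pow, ← Real.rpow_natCast (H ^ (1 / n : ℝ)) n, ← Real.rpow_mul hH0, one_div,
        inv_mul_cancel₀ (by exact_mod_cast hn), Real.rpow_one]
    rw [← h2] at hx
    exact le_of_pow_le_pow_left₀ hn (by positivity) hx
  have h3 : x.natAbs ≤ ⌊K * H ^ (1 / n : ℝ)⌋₊ := by
    apply Nat.le_floor
    rw [Nat.cast_natAbs, Int.cast_abs]
    exact h1
  rw [Finset.mem_Icc]
  omega

/-- the semistable curves with a rational subgroup of order three and height at most `H` -/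
theorem threeSubHt_upper : ∃ C : ℝ, 0 < C ∧ ∀ H : ℝ, 1 ≤ H → (threeSubHt H).Finite ∧
    ((threeSubHt H).ncard : ℝ) ≤ C * H ^ (1 / 3 : ℝ) := by
  classical
  refine ⟨102, by norm_num, fun H hH => ?_⟩
  have hH0 : (0 : ℝ) < H := by linarith
  obtain ⟨A, hA⟩ : ∃ A : ℕ, A = ⌊8 * H ^ (1 / (12 : ℕ) : ℝ)⌋₊ := ⟨_, rfl⟩
  obtain ⟨B, hB⟩ : ∃ B : ℕ, B = ⌊1 * H ^ (1 / (4 : ℕ) : ℝ)⌋₊ := ⟨_, rfl⟩
  obtain ⟨box, hbox⟩ : ∃ box : Finset (ℤ × ℤ),
      box = (Finset.Icc (-(A : ℤ)) A) ×ˢ (Finset.Icc (-(B : ℤ)) B) := ⟨_, rfl⟩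
  obtain ⟨F, hF⟩ : ∃ F : Finset (ℤ × ℤ), F =
      (box.image (fun t => (t.1 * (t.1 ^ 3 - 24 * t.2), -t.1 ^ 6 + 36 * t.1 ^ 3 * t.2 - 216 * t.2 ^ 2))) ∪
      (box.image (fun t => (t.1 * (t.1 ^ 3 + 216 * t.2), -t.1 ^ 6 + 540 * t.1 ^ 3 * t.2 + 5832 * t.2 ^ 2))) :=
    ⟨_, rfl⟩
  have hsub : threeSubHt H ⊆ (F : Set (ℤ × ℤ)) := by
    rintro c ⟨W, h4, h6, hΔ, hss, ⟨P, hP, hσ⟩, hht⟩
    have := Iso.isGalois_Qbar
    obtain ⟨X, hX⟩ := Iso.three_sub (AlgebraicClosure ℚ) W P hP hσ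
    obtain ⟨a, b, h⟩ := Iso.iso3 W hss X hX
    obtain ⟨hb, ha⟩ := threeSub_size hH W hht a b h
    have hbox' : (a, b) ∈ box := by
      rw [hbox, Finset.mem_product]
      constructor
      · rw [hA]
        apply threeSub_box hH (by norm_num) 12 (by norm_num)
        rw [← abs_pow, abs_of_nonneg (by positivity)]
        exact ha
      · rw [hB]
        apply threeSub_box hH le_rfl 4 (by norm_num)
        rw [← abs_pow, abs_of_nonneg (by positivity), one_pow, one_mul]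
        exact hb
    rw [hF, Finset.coe_union]
    rcases h with ⟨e4, e6, -⟩ | ⟨e4, e6, -⟩
    · left
      rw [Finset.coe_image]
      exact ⟨(a, b), hbox', Prod.ext (e4.symm.trans h4) (e6.symm.trans h6)⟩
    · right
      rw [Finset.coe_image]
      exact ⟨(a, b), hbox', Prod.ext (e4.symm.trans h4) (e6.symm.trans h6)⟩
  refine ⟨F.finite_toSet.subset hsub, ?_⟩
  have k1 : (threeSubHt H).ncard ≤ F.card := by
    rw [← Set.ncard_coe_finset]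
    exact Set.ncard_le_ncard hsub F.finite_toSet
  have k2 : F.card ≤ 2 * ((2 * A + 1) * (2 * B + 1)) := by
    have c1 : box.card = (2 * A + 1) * (2 * B + 1) := by
      rw [hbox, Finset.card_product, Int.card_Icc, Int.card_Icc]
      congr 1 <;> omega
    rw [hF]
    refine (Finset.card_union_le _ _).trans ?_
    have c2 := Finset.card_image_le (s := box) (f := fun t : ℤ × ℤ =>
      (t.1 * (t.1 ^ 3 - 24 * t.2), -t.1 ^ 6 + 36 * t.1 ^ 3 * t.2 - 216 * t.2 ^ 2))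
    have c3 := Finset.card_image_le (s := box) (f := fun t : ℤ × ℤ =>
      (t.1 * (t.1 ^ 3 + 216 * t.2), -t.1 ^ 6 + 540 * t.1 ^ 3 * t.2 + 5832 * t.2 ^ 2))
    rw [c1] at c2 c3
    omega
  have k3 : ((threeSubHt H).ncard : ℝ) ≤ 2 * ((2 * A + 1) * (2 * B + 1)) := by
    exact_mod_cast k1.trans k2
  refine k3.trans ?_
  have hA1 : (A : ℝ) ≤ 8 * H ^ (1 / 12 : ℝ) := by
    rw [hA]
    refine (Nat.floor_le (by positivity)).trans (le_of_eq ?_)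
    norm_num
  have hB1 : (B : ℝ) ≤ H ^ (1 / 4 : ℝ) := by
    rw [hB]
    refine (Nat.floor_le (by positivity)).trans (le_of_eq ?_)
    norm_num
  have p1 : (1 : ℝ) ≤ H ^ (1 / 12 : ℝ) := Real.one_le_rpow hH (by norm_num)
  have p2 : (1 : ℝ) ≤ H ^ (1 / 4 : ℝ) := Real.one_le_rpow hH (by norm_num)
  have p3 : H ^ (1 / 12 : ℝ) * H ^ (1 / 4 : ℝ) = H ^ (1 / 3 : ℝ) := by
    rw [← Real.rpow_add hH0]
    norm_num
  have q1 : 2 * (A : ℝ) + 1 ≤ 17 * H ^ (1 / 12 : ℝ) := by linarith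
  have q2 : 2 * (B : ℝ) + 1 ≤ 3 * H ^ (1 / 4 : ℝ) := by linarith
  calc 2 * ((2 * (A : ℝ) + 1) * (2 * B + 1))
      ≤ 2 * ((17 * H ^ (1 / 12 : ℝ)) * (3 * H ^ (1 / 4 : ℝ))) := by gcongr
    _ = 102 * (H ^ (1 / 12 : ℝ) * H ^ (1 / 4 : ℝ)) := by ring
    _ = 102 * H ^ (1 / 3 : ℝ) := by rw [p3]

end P4

end Pool.Agent.Lib.MP_d8bd92_nt
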