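import Pool.Agent.Lib.MP_d8bd92_nt.P4.Sieve
import Pool.Agent.Lib.MP_d8bd92_nt.P4.Pairs
import Pool.Agent.Lib.MP_d8bd92_nt.Hp.Exc

set_option autoImplicit false

/-!
The upper bound for the law, curves of bounded height.

PROOF of twoHH_upper. Let H = Y^(3h). The pair of a curve has max = M <= 36 Y^h. With N^s <= Ht <= (22 M)³ and N <= Y:
rd x rd y <= 8 N <= 8 min(Y, (22 M)^(3/s)). Dyadic in M (at most C Y^σ values): `sieve` gives C M^σ (V M^(-1/2) + M), and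
min(Y, M^(3/s)) M^(-1/2) <= Y^(1-s/6) (for M <= Y^(s/3) use M^(3/s - 1/2), 3/s > 1/2, otherwise Y M^(-1/2)).
-/

namespace Pool.Agent.Lib.MP_d8bd92_nt

namespace P4

open Finset Pool.Agent.Lib.Szpiro

theorem twoHH_finite (Y H s : ℝ) : (twoHH Y H s).Finite := by
  have hsub : twoHH Y H s ⊆ (Set.Icc (-((⌊H⌋₊ : ℕ) : ℤ)) ((⌊H⌋₊ : ℕ) : ℤ)) ×ˢ
      (Set.Icc (-((⌊H⌋₊ : ℕ) : ℤ)) ((⌊H⌋₊ : ℕ) : ℤ)) := by
    rintro c ⟨W, h4, h6, -, -, -, -, -, hH⟩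
    have k1 : W.c₄.natAbs ≤ ⌊H⌋₊ := by
      apply Nat.le_floor
      refine le_trans ?_ hH
      have : W.c₄.natAbs ≤ Ht W := (Nat.le_self_pow (by norm_num) _).trans (le_max_left _ _)
      exact_mod_cast this
    have k2 : W.c₆.natAbs ≤ ⌊H⌋₊ := by
      apply Nat.le_floor
      refine le_trans ?_ hH
      have : W.c₆.natAbs ≤ Ht W := (Nat.le_self_pow (by norm_num) _).trans (le_max_right _ _)
      exact_mod_cast this
    rw [h4] at k1
    rw [h6] at k2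
    rw [Set.mem_prod, Set.mem_Icc, Set.mem_Icc]
    omega
  exact ((Set.finite_Icc _ _).prod (Set.finite_Icc _ _)).subset hsub

/-- the main inequality of the exponents -/
theorem min_le_law (s Y M : ℝ) (hs1 : 3 / 2 ≤ s) (hs2 : s ≤ 4) (hY : 1 ≤ Y) (hM : 1 ≤ M) :
    8 * min Y ((2 * M) ^ (3 / s)) * M ^ (-(1 / 2) : ℝ) ≤ 32 * Y ^ (1 - s / 6) := by
  have hs0 : 0 < s := by linarith
  have hY0 : 0 < Y := by linarith
  have hM0 : 0 < M := by linarith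
  have hMh : 0 < M ^ (-(1 / 2) : ℝ) := Real.rpow_pos_of_pos hM0 _
  have h3s : 3 / s ≤ 2 := by rw [div_le_iff₀ hs0]; linarith
  have h3s' : 3 / 4 ≤ 3 / s := by
    rw [div_le_div_iff₀ (by norm_num) hs0]; linarith
  rcases le_or_gt M (Y ^ (s / 3)) with hcase | hcase
  · have h1 : (2 * M) ^ (3 / s) ≤ 4 * M ^ (3 / s) := by
      rw [Real.mul_rpow (by norm_num) hM0.le]
      have h2 : (2 : ℝ) ^ (3 / s) ≤ 2 ^ (2 : ℝ) :=
        Real.rpow_le_rpow_of_exponent_le (by norm_num) h3s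
      have h3 : (2 : ℝ) ^ (2 : ℝ) = 4 := by norm_num
      rw [h3] at h2
      exact mul_le_mul_of_nonneg_right h2 (by positivity)
    have h4 : M ^ (3 / s) * M ^ (-(1 / 2) : ℝ) ≤ Y ^ (1 - s / 6) := by
      rw [← Real.rpow_add hM0]
      have h5 : M ^ (3 / s + -(1 / 2)) ≤ (Y ^ (s / 3)) ^ (3 / s + -(1 / 2)) :=
        Real.rpow_le_rpow hM0.le hcase (by linarith)
      refine h5.trans (le_of_eq ?_)
      rw [← Real.rpow_mul hY0.le]
      congr 1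
      field_simp
      ring
    calc 8 * min Y ((2 * M) ^ (3 / s)) * M ^ (-(1 / 2) : ℝ)
        ≤ 8 * (4 * M ^ (3 / s)) * M ^ (-(1 / 2) : ℝ) := by
          gcongr
          exact (min_le_right _ _).trans h1
      _ = 32 * (M ^ (3 / s) * M ^ (-(1 / 2) : ℝ)) := by ring
      _ ≤ 32 * Y ^ (1 - s / 6) := by gcongr
  · have h4 : Y * M ^ (-(1 / 2) : ℝ) ≤ Y ^ (1 - s / 6) := by
      have h5 : M ^ (-(1 / 2) : ℝ) ≤ (Y ^ (s / 3)) ^ (-(1 / 2) : ℝ) :=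
        Real.rpow_le_rpow_of_nonpos (Real.rpow_pos_of_pos hY0 _) hcase.le (by norm_num)
      calc Y * M ^ (-(1 / 2) : ℝ) ≤ Y * (Y ^ (s / 3)) ^ (-(1 / 2) : ℝ) := by gcongr
        _ = Y ^ (1 : ℝ) * Y ^ (s / 3 * (-(1 / 2))) := by
          rw [Real.rpow_one, ← Real.rpow_mul hY0.le]
        _ = Y ^ (1 - s / 6) := by
          rw [← Real.rpow_add hY0]
          congr 1
          ring
    have h6 : 0 ≤ Y ^ (1 - s / 6) := by positivity
    calc 8 * min Y ((2 * M) ^ (3 / s)) * M ^ (-(1 / 2) : ℝ)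
        ≤ 8 * Y * M ^ (-(1 / 2) : ℝ) := by
          gcongr
          exact min_le_left _ _
      _ = 8 * (Y * M ^ (-(1 / 2) : ℝ)) := by ring
      _ ≤ 8 * Y ^ (1 - s / 6) := by gcongr
      _ ≤ 32 * Y ^ (1 - s / 6) := by linarith

theorem twoHH_upper (h ε : ℝ) (hh : 0 < h) (hε : 0 < ε) : ∃ C : ℝ, 0 < C ∧ ∀ s Y : ℝ, 3 / 2 ≤ s → s ≤ 4 →
    1 ≤ Y → (twoHH Y (Y ^ (3 * h)) s).Finite ∧
      ((twoHH Y (Y ^ (3 * h)) s).ncard : ℝ) ≤ C * Y ^ ε * (Y ^ (1 - s / 6) + Y ^ h) := by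
  classical
  obtain ⟨τ, hτ⟩ : ∃ τ : ℝ, τ = ε / (2 * h) := ⟨_, rfl⟩
  have hτ0 : 0 < τ := by rw [hτ]; positivity
  have hhτ : h * τ = ε / 2 := by rw [hτ]; field_simp
  obtain ⟨Cs, hCs, hsv⟩ := sieve τ hτ0
  obtain ⟨Cl, hCl, hlog⟩ := Hp.exc_log τ hτ0
  have hCl0 : 0 < Cl := by linarith
  refine ⟨6 * ((Cl * 36 ^ τ) * (Cs * 36 ^ τ * 18000)), by positivity, fun s Y hs1 hs2 hY => ⟨twoHH_finite _ _ _, ?_⟩⟩
  have hs0 : 0 < s := by linarith
  have hY0 : 0 < Y := by linarith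
  have hYh : 1 ≤ Y ^ h := Real.one_le_rpow hY hh.le
  have hYh0 : 0 < Y ^ h := by linarith
  obtain ⟨B, hB⟩ : ∃ B : ℝ, B = 36 * Y ^ h := ⟨_, rfl⟩
  have hB1 : 1 ≤ B := by rw [hB]; linarith
  have hB0 : 0 < B := by linarith
  have hBτ : B ^ τ = 36 ^ τ * Y ^ (ε / 2) := by
    rw [hB, Real.mul_rpow (by norm_num) hYh0.le, ← Real.rpow_mul hY0.le, hhτ]
  set F : Finset (ℤ × ℤ) := (twoHH_finite Y (Y ^ (3 * h)) s).toFinset with hF
  obtain ⟨P, hFP, hP⟩ := pairs_of_curves (fun W => ((rd W.Δ.natAbs : ℕ) : ℝ) ≤ Y ∧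
    ((rd W.Δ.natAbs : ℕ) : ℝ) ^ s ≤ ((Ht W : ℕ) : ℝ) ∧ ((Ht W : ℕ) : ℝ) ≤ Y ^ (3 * h)) F (by
      intro c hc
      rw [hF, Set.Finite.mem_toFinset] at hc
      obtain ⟨W, e1, e2, e3, e4, e5, e6, e7, e8⟩ := hc
      exact ⟨W, e1, e2, e3, e4, e5, e6, e7, e8⟩)
  -- the size of a pair
  have hsize : ∀ w ∈ P, 1 ≤ max w.1.natAbs w.2.natAbs ∧ ((max w.1.natAbs w.2.natAbs : ℕ) : ℝ) ≤ B := by
    intro w hw
    obtain ⟨W, ⟨-, -, q3⟩, -, w1, w2, -, -, -, -, w7, -⟩ := hP w hw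
    refine ⟨le_max_of_le_left (Int.natAbs_pos.mpr w1), ?_⟩
    rw [Nat.cast_max]
    refine w7.trans ?_
    rw [hB]
    have h1 : ((Ht W : ℕ) : ℝ) ^ (1 / 3 : ℝ) ≤ (Y ^ (3 * h)) ^ (1 / 3 : ℝ) :=
      Real.rpow_le_rpow (Nat.cast_nonneg _) q3 (by norm_num)
    have h2 : (Y ^ (3 * h)) ^ (1 / 3 : ℝ) = Y ^ h := by
      rw [← Real.rpow_mul hY0.le]
      congr 1
      ring
    rw [h2] at h1
    linarith
  -- dyadic pieces
  have hcover : P ⊆ (range (Nat.log 2 ⌊B⌋₊ + 1)).biUnion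
      (fun i => P.filter (fun w => Nat.log 2 (max w.1.natAbs w.2.natAbs) = i)) := by
    intro w hw
    rw [Finset.mem_biUnion]
    refine ⟨Nat.log 2 (max w.1.natAbs w.2.natAbs), ?_, ?_⟩
    · rw [Finset.mem_range, Nat.lt_succ_iff]
      exact Nat.log_mono_right (Nat.le_floor (hsize w hw).2)
    · rw [Finset.mem_filter]
      exact ⟨hw, rfl⟩
  have hpiece : ∀ i ∈ range (Nat.log 2 ⌊B⌋₊ + 1),
      ((P.filter (fun w => Nat.log 2 (max w.1.natAbs w.2.natAbs) = i)).card : ℝ) ≤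
        Cs * 36 ^ τ * 18000 * (Y ^ (ε / 2) * (Y ^ (1 - s / 6) + Y ^ h)) := by
    intro i _
    rcases (P.filter (fun w => Nat.log 2 (max w.1.natAbs w.2.natAbs) = i)).eq_empty_or_nonempty with
      hE | ⟨w0, hw0⟩
    · rw [hE]
      simp only [Finset.card_empty, Nat.cast_zero]
      positivity
    obtain ⟨M, hM⟩ : ∃ M : ℝ, M = (2 : ℝ) ^ i := ⟨_, rfl⟩
    have hM1 : 1 ≤ M := by rw [hM]; exact one_le_pow₀ (by norm_num)
    have hM0 : 0 < M := by linarith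
    have hbox : ∀ n : ℕ, 1 ≤ n → Nat.log 2 n = i → M ≤ (n : ℝ) ∧ (n : ℝ) < 2 * M := by
      intro n hn hi
      have h1 : 2 ^ i ≤ n := by rw [← hi]; exact Nat.pow_log_le_self 2 (by omega)
      have h2 : n < 2 ^ (i + 1) := by rw [← hi]; exact Nat.lt_pow_succ_log_self (by norm_num) n
      refine ⟨?_, ?_⟩
      · rw [hM]; exact_mod_cast h1
      · rw [hM]
        have h3 : (n : ℝ) < ((2 ^ (i + 1) : ℕ) : ℝ) := by exact_mod_cast h2
        rw [pow_succ] at h3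
        push_cast at h3
        linarith
    have hMB : M ≤ B := by
      rw [Finset.mem_filter] at hw0
      obtain ⟨h1, h2⟩ := hsize w0 hw0.1
      exact (hbox _ h1 hw0.2).1.trans h2
    have h2M : 1 ≤ 2 * M := by linarith
    have hV1 : 1 ≤ 484 * (8 * min Y ((2 * M) ^ (3 / s))) := by
      have h1 : 1 ≤ (2 * M) ^ (3 / s) := Real.one_le_rpow h2M (by positivity)
      have h2 : 1 ≤ min Y ((2 * M) ^ (3 / s)) := le_min hY h1
      linarith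
    have hmain := hsv M (484 * (8 * min Y ((2 * M) ^ (3 / s)))) hM1 hV1
      (P.filter (fun w => Nat.log 2 (max w.1.natAbs w.2.natAbs) = i)) (by
        intro w hw
        rw [Finset.mem_filter] at hw
        obtain ⟨W, ⟨q1, q2, -⟩, -, w1, w2, w3, w4, w5, -, -, w6⟩ := hP w hw.1
        obtain ⟨b1, b2⟩ := hbox _ (hsize w hw.1).1 hw.2
        rw [Nat.cast_max] at b1 b2
        refine ⟨w1, w2, w3, w4, ?_, b1, b2⟩
        have h1 : (rd w.1.natAbs : ℝ) * rd w.2.natAbs ≤ 8 * ((rd W.Δ.natAbs : ℕ) : ℝ) := by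
          exact_mod_cast w5
        refine h1.trans ?_
        have h2 : ((rd W.Δ.natAbs : ℕ) : ℝ) ≤ 484 * (2 * M) ^ (3 / s) := by
          have hN0 : (0 : ℝ) ≤ ((rd W.Δ.natAbs : ℕ) : ℝ) := Nat.cast_nonneg _
          have h3 : ((Ht W : ℕ) : ℝ) ≤ (22 * (2 * M)) ^ (3 : ℝ) := by
            have h5 : (22 * max (w.1.natAbs : ℝ) (w.2.natAbs : ℝ)) ^ 3 ≤ (22 * (2 * M)) ^ 3 :=
              pow_le_pow_left₀ (by positivity) (by linarith) 3
            have h6 : (22 * (2 * M)) ^ (3 : ℝ) = (22 * (2 * M)) ^ 3 := by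
              exact_mod_cast Real.rpow_natCast (22 * (2 * M)) 3
            rw [h6]
            exact w6.trans h5
          have h7 : ((rd W.Δ.natAbs : ℕ) : ℝ) = (((rd W.Δ.natAbs : ℕ) : ℝ) ^ s) ^ (1 / s) := by
            rw [← Real.rpow_mul hN0, mul_one_div_cancel hs0.ne', Real.rpow_one]
          have h3s : 3 / s ≤ 2 := by rw [div_le_iff₀ hs0]; linarith
          have h22 : (22 : ℝ) ^ (3 / s) ≤ 484 := by
            calc (22 : ℝ) ^ (3 / s) ≤ 22 ^ (2 : ℝ) :=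
                  Real.rpow_le_rpow_of_exponent_le (by norm_num) h3s
              _ = 484 := by rw [Real.rpow_two]; norm_num
          rw [h7]
          calc (((rd W.Δ.natAbs : ℕ) : ℝ) ^ s) ^ (1 / s) ≤ ((22 * (2 * M)) ^ (3 : ℝ)) ^ (1 / s) :=
                Real.rpow_le_rpow (by positivity) (q2.trans h3) (by positivity)
            _ = (22 * (2 * M)) ^ (3 / s) := by
                rw [← Real.rpow_mul (by positivity)]
                congr 1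
                ring
            _ = 22 ^ (3 / s) * (2 * M) ^ (3 / s) := Real.mul_rpow (by norm_num) (by positivity)
            _ ≤ 484 * (2 * M) ^ (3 / s) := by gcongr
        have h8 : ((rd W.Δ.natAbs : ℕ) : ℝ) ≤ 484 * min Y ((2 * M) ^ (3 / s)) := by
          rcases min_choice Y ((2 * M) ^ (3 / s)) with hc | hc
          · rw [hc]; linarith
          · rw [hc]; exact h2
        linarith)
    have h1 := min_le_law s Y M hs1 hs2 hY hM1
    have h2 : M ^ τ ≤ 36 ^ τ * Y ^ (ε / 2) := by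
      rw [← hBτ]
      exact Real.rpow_le_rpow hM0.le hMB hτ0.le
    have h3 : M ≤ 36 * Y ^ h := by rw [← hB]; exact hMB
    have h4 : 0 ≤ Y ^ (1 - s / 6) := by positivity
    calc ((P.filter (fun w => Nat.log 2 (max w.1.natAbs w.2.natAbs) = i)).card : ℝ)
        ≤ Cs * M ^ τ * (484 * (8 * min Y ((2 * M) ^ (3 / s))) * M ^ (-(1 / 2) : ℝ) + M) := hmain
      _ ≤ Cs * (36 ^ τ * Y ^ (ε / 2)) * (18000 * (Y ^ (1 - s / 6) + Y ^ h)) := by
          apply mul_le_mul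
          · exact mul_le_mul_of_nonneg_left h2 hCs.le
          · linarith
          · have h5 : 0 ≤ 484 * (8 * min Y ((2 * M) ^ (3 / s))) := by linarith
            positivity
          · positivity
      _ = Cs * 36 ^ τ * 18000 * (Y ^ (ε / 2) * (Y ^ (1 - s / 6) + Y ^ h)) := by ring
  have hsum : (P.card : ℝ) ≤ ((Nat.log 2 ⌊B⌋₊ + 1 : ℕ) : ℝ) *
      (Cs * 36 ^ τ * 18000 * (Y ^ (ε / 2) * (Y ^ (1 - s / 6) + Y ^ h))) := by
    have h1 : P.card ≤ ∑ i ∈ range (Nat.log 2 ⌊B⌋₊ + 1),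
        (P.filter (fun w => Nat.log 2 (max w.1.natAbs w.2.natAbs) = i)).card :=
      (Finset.card_le_card hcover).trans Finset.card_biUnion_le
    calc (P.card : ℝ) ≤ ((∑ i ∈ range (Nat.log 2 ⌊B⌋₊ + 1),
          (P.filter (fun w => Nat.log 2 (max w.1.natAbs w.2.natAbs) = i)).card : ℕ) : ℝ) := by
            exact_mod_cast h1
      _ = ∑ i ∈ range (Nat.log 2 ⌊B⌋₊ + 1),
          ((P.filter (fun w => Nat.log 2 (max w.1.natAbs w.2.natAbs) = i)).card : ℝ) := by push_cast; rfl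
      _ ≤ ∑ _i ∈ range (Nat.log 2 ⌊B⌋₊ + 1),
          (Cs * 36 ^ τ * 18000 * (Y ^ (ε / 2) * (Y ^ (1 - s / 6) + Y ^ h))) := Finset.sum_le_sum hpiece
      _ = _ := by rw [Finset.sum_const, Finset.card_range, nsmul_eq_mul]
  have hlogB : ((Nat.log 2 ⌊B⌋₊ + 1 : ℕ) : ℝ) ≤ Cl * (36 ^ τ * Y ^ (ε / 2)) := by
    rw [← hBτ]
    exact hlog B hB1
  have hYε : Y ^ (ε / 2) * Y ^ (ε / 2) = Y ^ ε := by
    rw [← Real.rpow_add hY0]
    congr 1
    ring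
  have hFc : ((twoHH Y (Y ^ (3 * h)) s).ncard : ℝ) = (F.card : ℝ) := by
    rw [hF, ← Set.ncard_eq_toFinset_card _ (twoHH_finite Y (Y ^ (3 * h)) s)]
  have hFP' : (F.card : ℝ) ≤ 6 * (P.card : ℝ) := by exact_mod_cast hFP
  rw [hFc]
  have hR : 0 ≤ Cs * 36 ^ τ * 18000 * (Y ^ (ε / 2) * (Y ^ (1 - s / 6) + Y ^ h)) := by positivity
  calc (F.card : ℝ) ≤ 6 * (P.card : ℝ) := hFP'
    _ ≤ 6 * (Cl * (36 ^ τ * Y ^ (ε / 2)) *
        (Cs * 36 ^ τ * 18000 * (Y ^ (ε / 2) * (Y ^ (1 - s / 6) + Y ^ h)))) := by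
        have := hsum.trans (mul_le_mul_of_nonneg_right hlogB hR)
        linarith
    _ = 6 * ((Cl * 36 ^ τ) * (Cs * 36 ^ τ * 18000)) * (Y ^ (ε / 2) * Y ^ (ε / 2)) *
        (Y ^ (1 - s / 6) + Y ^ h) := by ring
    _ = 6 * ((Cl * 36 ^ τ) * (Cs * 36 ^ τ * 18000)) * Y ^ ε * (Y ^ (1 - s / 6) + Y ^ h) := by rw [hYε]

end P4

end Pool.Agent.Lib.MP_d8bd92_nt
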